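import Pool.Agent.Lib.MP_263316_co.Spec

/-!
MP_263316_co: the main induction (S_MAIN).
-/

set_option autoImplicit false

namespace Pool.Agent.SWC

open Finset

namespace MainAux

theorem TT_kernel {R : Type} [CommRing R] {N : ℕ} (m : ℕ → ℕ) (q : R) (x : Fin N → R)
    (U : Finset ℕ) (s t : ℕ) (hs : s ∈ U) :
    ∃ K : Fin N → Fin N → R, ∀ (f : Fin N → R) (j : Fin N),
      TT m q x U s t f j = ∑ i, f i * K i j := by
  refine ⟨fun i j => (if s = t then (if i = j then 1 else 0) else 1) *
    Z m q U (fun u k => if u = s then (if k = i then 1 else 0) else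
      x k * (if u = t then (if k = j then 1 else 0) else 1)), ?_⟩
  intro f j
  unfold TT
  rw [Z_vertex hs]
  refine Finset.sum_congr rfl fun i _ => ?_
  rw [if_pos rfl, mul_assoc]
  congr 2
  refine Z_congr fun u _ k => ?_
  by_cases h : u = s
  · rw [if_pos h, if_pos h]
  · rw [if_neg h, if_neg h, if_neg h]

theorem TT_add {R : Type} [CommRing R] {N : ℕ} (m : ℕ → ℕ) (q : R) (x : Fin N → R)
    (U : Finset ℕ) (s t : ℕ) (hs : s ∈ U) (f g : Fin N → R) :
    TT m q x U s t (f + g) = TT m q x U s t f + TT m q x U s t g := by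
  obtain ⟨K, hK⟩ := TT_kernel m q x U s t hs
  funext j
  rw [Pi.add_apply, hK, hK, hK, ← Finset.sum_add_distrib]
  exact Finset.sum_congr rfl fun i _ => by rw [Pi.add_apply]; ring

theorem TT_mul {R : Type} [CommRing R] {N : ℕ} (m : ℕ → ℕ) (q : R) (x : Fin N → R)
    (U : Finset ℕ) (s t : ℕ) (hs : s ∈ U) (u : R) (f : Fin N → R) :
    TT m q x U s t (fun j => u * f j) = fun j => u * TT m q x U s t f j := by
  obtain ⟨K, hK⟩ := TT_kernel m q x U s t hs
  funext j
  rw [hK, hK, Finset.mul_sum]
  exact Finset.sum_congr rfl fun i _ => by ring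

theorem eh_zero {R : Type} [CommRing R] {N : ℕ} (q : R) (x : Fin N → R) : eh q x 0 = x := by
  funext j
  simp [eh]

theorem FF_eq {R : Type} [CommRing R] {N : ℕ} (m : ℕ → ℕ) (q : R) (x : Fin N → R)
    (U : Finset ℕ) (s t : ℕ) : FF m q x U t = TT m q x U s t (eh q x 0) := by
  funext j
  unfold FF TT
  rw [eh_zero]
  refine Z_congr fun u _ k => ?_
  rw [ite_self]

theorem sum_FF {R : Type} [CommRing R] {N : ℕ} (m : ℕ → ℕ) (q : R) (x : Fin N → R)
    (U : Finset ℕ) (t : ℕ) (ht : t ∈ U) : ∑ j, FF m q x U t j = XX m q x U := by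
  have h := Z_update_sum (m := m) (q := q) ht (univ : Finset (Fin N)) (fun _ => (1 : R))
    (fun j k => x k * (if k = j then 1 else 0)) (fun _ k => x k)
  have h1 : XX m q x U = Z m q U (fun u k => if u = t then ∑ i : Fin N, (1 : R) *
      (x k * (if k = i then 1 else 0)) else x k) := by
    unfold XX
    refine Z_congr fun u _ k => ?_
    by_cases hu : u = t
    · rw [if_pos hu]; simp
    · rw [if_neg hu]
  rw [h1, h]
  refine Finset.sum_congr rfl fun j _ => ?_
  rw [one_mul]
  unfold FF
  refine Z_congr fun u _ k => ?_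
  by_cases hu : u = t
  · rw [if_pos hu, if_pos hu]
  · rw [if_neg hu, if_neg hu, mul_one]

theorem one_mem (N : ℕ) : (1 : AN N) ∈ Cone N 0 0 := by
  unfold Cone
  apply AddSubmonoid.subset_closure
  refine ⟨0, 1, rfl, ?_, by simp⟩
  unfold PU
  apply AddSubmonoid.subset_closure
  exact ⟨0, 1, rfl, by simp [qn]⟩

theorem eh_mem (N c : ℕ) : eh (qq N) (xx N) c ∈ MCone N (c + 1) c := by
  unfold MCone
  apply AddSubmonoid.subset_closure
  refine ⟨0, 0, c, 1, one_mem N, by omega, by omega, ?_⟩
  funext j
  rw [one_mul]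

theorem Good_subset {m : ℕ → ℕ} {U V : Finset ℕ} (h : Good m U) (hV : V ⊆ U) : Good m V :=
  fun x1 h1 x2 h2 x3 h3 x4 h4 x5 h5 => h x1 (hV h1) x2 (hV h2) x3 (hV h3) x4 (hV h4) x5 (hV h5)

theorem TT_single {R : Type} [CommRing R] {N : ℕ} (m : ℕ → ℕ) (q : R) (x : Fin N → R)
    (s : ℕ) (f : Fin N → R) : TT m q x {s} s s f = f := by
  funext j
  unfold TT
  rw [Z_singleton]
  simp

theorem eE_single (m : ℕ → ℕ) (s : ℕ) : eE m {s} = 0 := by
  unfold eE aL
  rw [Finset.sum_singleton]
  simp

theorem eE_union (m : ℕ → ℕ) (A B : Finset ℕ) (h : ∀ u ∈ A, ∀ v ∈ B, u < v ∧ m u < v) :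
    eE m (A ∪ B) = eE m A + eE m B := by
  have hd : Disjoint A B := by
    rw [Finset.disjoint_left]
    intro u hu hv
    exact lt_irrefl _ (h u hu u hv).1
  unfold eE
  rw [Finset.sum_union hd]
  congr 1
  · refine Finset.sum_congr rfl fun v hv => ?_
    unfold aL
    congr 1
    ext u
    simp only [Finset.mem_filter, Finset.mem_union]
    constructor
    · rintro ⟨hu | hu, h1⟩
      · exact ⟨hu, h1⟩
      · have := (h v hv u hu).1; omega
    · rintro ⟨hu, h1⟩
      exact ⟨Or.inl hu, h1⟩
  · refine Finset.sum_congr rfl fun v hv => ?_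
    unfold aL
    congr 1
    ext u
    simp only [Finset.mem_filter, Finset.mem_union]
    constructor
    · rintro ⟨hu | hu, h1⟩
      · have := (h u hu v hv).2; omega
      · exact ⟨hu, h1⟩
    · rintro ⟨hu, h1⟩
      exact ⟨Or.inr hu, h1⟩

theorem eE_cut (m : ℕ → ℕ) (U : Finset ℕ) (v : ℕ) (hv : v ∈ U)
    (h : ∀ a ∈ U, ∀ b ∈ U, a < v → v < b → m a < b) :
    eE m U = eE m (U.filter (fun u => u ≤ v)) + eE m (U.filter (fun u => v ≤ u)) ∧
    U.card + 1 = (U.filter (fun u => u ≤ v)).card + (U.filter (fun u => v ≤ u)).card := by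
  have hU : U = U.filter (fun u => u ≤ v) ∪ U.filter (fun u => v < u) := by
    ext u
    simp only [Finset.mem_union, Finset.mem_filter]
    constructor
    · intro hu
      rcases Nat.lt_or_ge v u with h1 | h1
      · exact Or.inr ⟨hu, h1⟩
      · exact Or.inl ⟨hu, h1⟩
    · rintro (⟨hu, _⟩ | ⟨hu, _⟩) <;> exact hu
  have hd : Disjoint (U.filter (fun u => u ≤ v)) (U.filter (fun u => v < u)) := by
    rw [Finset.disjoint_left]
    intro u hu hv
    rw [Finset.mem_filter] at hu hv
    omega
  have hH : U.filter (fun u => v ≤ u) = insert v (U.filter (fun u => v < u)) := by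
    ext u
    simp only [Finset.mem_insert, Finset.mem_filter]
    constructor
    · rintro ⟨hu, h1⟩
      rcases Nat.eq_or_lt_of_le h1 with h2 | h2
      · exact Or.inl h2.symm
      · exact Or.inr ⟨hu, h2⟩
    · rintro (rfl | ⟨hu, h1⟩)
      · exact ⟨hv, le_refl _⟩
      · exact ⟨hu, h1.le⟩
  have hvn : v ∉ U.filter (fun u => v < u) := by simp
  refine ⟨?_, ?_⟩
  · have e1 : eE m U = ∑ u ∈ U.filter (fun u => u ≤ v), aL m U u +
        ∑ u ∈ U.filter (fun u => v < u), aL m U u := by
      unfold eE
      conv_lhs => rw [hU]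
      rw [Finset.sum_union hd, ← hU]
    have e2 : eE m (U.filter (fun u => v ≤ u)) =
        ∑ u ∈ U.filter (fun u => v < u), aL m (U.filter (fun u => v ≤ u)) u := by
      unfold eE
      conv_lhs =>
        arg 1
        rw [hH]
      rw [Finset.sum_insert hvn]
      have : aL m (U.filter (fun u => v ≤ u)) v = 0 := by
        unfold aL
        rw [Finset.card_eq_zero, Finset.filter_eq_empty_iff]
        intro u hu
        rw [Finset.mem_filter] at hu
        omega
      rw [this, zero_add]
    rw [e1, e2]
    unfold eE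
    congr 1
    · refine Finset.sum_congr rfl fun w hw => ?_
      rw [Finset.mem_filter] at hw
      unfold aL
      rw [Finset.filter_filter]
      congr 1
      ext u
      simp only [Finset.mem_filter]
      constructor
      · rintro ⟨h1, h2⟩; exact ⟨h1, by omega⟩
      · rintro ⟨h1, h2⟩; exact ⟨h1, by omega⟩
    · refine Finset.sum_congr rfl fun w hw => ?_
      rw [Finset.mem_filter] at hw
      unfold aL
      rw [Finset.filter_filter]
      congr 1
      ext u
      simp only [Finset.mem_filter]
      constructor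
      · rintro ⟨h1, h2⟩
        refine ⟨h1, ?_, h2⟩
        by_contra h3
        have := h u h1 w hw.1 (by omega) hw.2
        omega
      · rintro ⟨h1, h2⟩; exact ⟨h1, by omega⟩
  · rw [hH, Finset.card_insert_of_notMem hvn]
    conv_lhs => rw [hU]
    rw [Finset.card_union_of_disjoint hd]
    omega

end MainAux

open MainAux in
theorem t_MAIN (hTRI : S_TRI) (hDIS : S_DIS) (hCUT : S_CUT) (hKM : S_KM) (hLM1 : S_LM1)
    (hLM0 : S_LM0) (hMlin : S_Mlin) (hMsmul : S_Msmul) (hMsum : S_Msum) : S_MAIN := by
  intro N m hm U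
  induction U using Finset.strongInduction with
  | H U ih =>
    intro hG s t hs ht hst c
    -- consequences of the induction hypothesis
    have ihT : ∀ V ⊂ U, ∀ s t : ℕ, s ∈ V → t ∈ V → (∀ u ∈ V, s ≤ u ∧ u ≤ t) → ∀ c : ℕ,
        TT m (qq N) (xx N) V s t (eh (qq N) (xx N) c) ∈ MCone N (c + V.card) (c + eE m V) :=
      fun V hV => ih V hV (Good_subset hG hV.1)
    have ihF : ∀ V ⊂ U, ∀ t : ℕ, t ∈ V → (∀ u ∈ V, u ≤ t) →
        FF m (qq N) (xx N) V t ∈ MCone N V.card (eE m V) := by
      intro V hV t ht h
      have hne : V.Nonempty := ⟨t, ht⟩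
      have h1 := ihT V hV (V.min' hne) t (V.min'_mem hne) ht
        (fun u hu => ⟨V.min'_le u hu, h u hu⟩) 0
      rw [Nat.zero_add, Nat.zero_add] at h1
      rw [FF_eq m (qq N) (xx N) V (V.min' hne) t]
      exact h1
    have ihX : ∀ V ⊂ U, XX m (qq N) (xx N) V ∈ Cone N V.card (eE m V) := by
      intro V hV
      rcases V.eq_empty_or_nonempty with h0 | hne
      · subst h0
        have : XX m (qq N) (xx N) (∅ : Finset ℕ) = 1 := by simp [XX]
        rw [this]
        exact one_mem N
      · rw [← sum_FF m (qq N) (xx N) V (V.max' hne) (V.max'_mem hne)]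
        exact hMsum N _ _ _ (ihF V hV _ (V.max'_mem hne) (fun u hu => V.le_max' u hu))
    rcases Nat.eq_or_lt_of_le (hst s hs).2 with hst' | hlt
    · -- single vertex
      have hU : U = {s} := by
        ext u
        rw [Finset.mem_singleton]
        constructor
        · intro hu; have := hst u hu; omega
        · rintro rfl; exact hs
      subst hst'
      subst hU
      rw [TT_single, eE_single, Finset.card_singleton, Nat.add_zero]
      exact eh_mem N c
    · rcases hTRI m hm U s t hs ht hlt hst hG with ⟨A, B, hAB, hA, hB, h⟩ | ⟨v, hv, hsv, hvt, h⟩ |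
        hC | ⟨n, f, hL⟩
      · -- disconnected
        subst hAB
        have hd : Disjoint A B := by
          rw [Finset.disjoint_left]
          intro u hu hv
          exact lt_irrefl _ (h u hu u hv).1
        have hsA : s ∈ A := by
          rcases Finset.mem_union.mp hs with h1 | h1
          · exact h1
          · obtain ⟨a, ha⟩ := hA
            have h2 := (h a ha s h1).1
            have h3 := (hst a (Finset.mem_union_left _ ha)).1
            omega
        have htB : t ∈ B := by
          rcases Finset.mem_union.mp ht with h1 | h1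
          · obtain ⟨b, hb⟩ := hB
            have h2 := (h t h1 b hb).1
            have h3 := (hst b (Finset.mem_union_right _ hb)).2
            omega
          · exact h1
        have hAs : A ⊂ A ∪ B := by
          refine ⟨Finset.subset_union_left, fun hh => ?_⟩
          exact Finset.disjoint_left.mp hd (hh (Finset.mem_union_right _ htB)) htB
        have hBs : B ⊂ A ∪ B := by
          refine ⟨Finset.subset_union_right, fun hh => ?_⟩
          exact Finset.disjoint_left.mp hd hsA (hh (Finset.mem_union_left _ hsA))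
        have hTT : TT m (qq N) (xx N) (A ∪ B) s t (eh (qq N) (xx N) c) = fun j =>
            (∑ i, TT m (qq N) (xx N) A s (A.max' hA) (eh (qq N) (xx N) c) i) *
              FF m (qq N) (xx N) B t j := by
          funext j
          exact hDIS (AN N) N m (qq N) (xx N) A B s (A.max' hA) t hsA (A.max'_mem hA) htB h _ j
        rw [hTT]
        have h1 := hMsum N _ _ _ (ihT A hAs s (A.max' hA) hsA (A.max'_mem hA)
          (fun u hu => ⟨(hst u (Finset.mem_union_left _ hu)).1, A.le_max' u hu⟩) c)
        have h2 := ihF B hBs t htB (fun u hu => (hst u (Finset.mem_union_right _ hu)).2)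
        have h3 := hMsmul N _ _ _ _ _ _ h1 h2
        rw [Finset.card_union_of_disjoint hd, eE_union m A B h]
        rw [show c + (A.card + B.card) = c + A.card + B.card by omega,
          show c + (eE m A + eE m B) = c + eE m A + eE m B by omega]
        exact h3
      · -- cut vertex
        obtain ⟨hE, hcard⟩ := eE_cut m U v hv h
        have hsL : s ∈ U.filter (fun u => u ≤ v) := Finset.mem_filter.mpr ⟨hs, hsv.le⟩
        have hvL : v ∈ U.filter (fun u => u ≤ v) := Finset.mem_filter.mpr ⟨hv, le_refl _⟩
        have hvH : v ∈ U.filter (fun u => v ≤ u) := Finset.mem_filter.mpr ⟨hv, le_refl _⟩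
        have htH : t ∈ U.filter (fun u => v ≤ u) := Finset.mem_filter.mpr ⟨ht, hvt.le⟩
        have hLs : U.filter (fun u => u ≤ v) ⊂ U := by
          refine ⟨Finset.filter_subset _ _, fun hh => ?_⟩
          have := (Finset.mem_filter.mp (hh ht)).2
          omega
        have hHs : U.filter (fun u => v ≤ u) ⊂ U := by
          refine ⟨Finset.filter_subset _ _, fun hh => ?_⟩
          have := (Finset.mem_filter.mp (hh hs)).2
          omega
        have h1 := ihT _ hLs s v hsL hvL (fun u hu => by
          rw [Finset.mem_filter] at hu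
          exact ⟨(hst u hu.1).1, hu.2⟩) c
        have h2 := ihT _ hHs v t hvH htH (fun u hu => by
          rw [Finset.mem_filter] at hu
          exact ⟨hu.2, (hst u hu.1).2⟩)
        rw [hCUT (AN N) N m (qq N) (xx N) U s v t hs hv ht hsv.le hvt.le h]
        obtain ⟨l, hl⟩ : ∃ l, (U.filter (fun u => u ≤ v)).card = l + 1 :=
          Nat.exists_eq_succ_of_ne_zero (Finset.card_ne_zero_of_mem hvL)
        rw [hl] at h1 hcard
        have h3 := hMlin N (c + l) (c + eE m (U.filter (fun u => u ≤ v)))
          (U.filter (fun u => v ≤ u)).card (eE m (U.filter (fun u => v ≤ u)))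
          (TT m (qq N) (xx N) (U.filter (fun u => v ≤ u)) v t)
          (fun f g => TT_add m (qq N) (xx N) _ v t hvH f g)
          (fun u f => TT_mul m (qq N) (xx N) _ v t hvH u f) h2 _ h1
        rw [hE]
        rw [show c + U.card = c + l + (U.filter (fun u => v ≤ u)).card by omega,
          ← Nat.add_assoc]
        exact h3
      · exact hKM N m hm U s t hs ht hlt hst hC c
      · -- ladder
        obtain ⟨hf, hU, hn, hadj⟩ := id hL
        have hf0 : f 0 ∈ U := by
          rw [hU]; exact Finset.mem_image.mpr ⟨0, Finset.mem_range.mpr (by omega), rfl⟩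
        have hf1 : f (n - 1) ∈ U := by
          rw [hU]; exact Finset.mem_image.mpr ⟨n - 1, Finset.mem_range.mpr (by omega), rfl⟩
        have hs0 : s = f 0 := by
          have h1 := (hst _ hf0).1
          have h2 : s ∈ (range n).image f := by rw [← hU]; exact hs
          obtain ⟨i, _, hi⟩ := Finset.mem_image.mp h2
          have h3 := hf.monotone (Nat.zero_le i)
          omega
        have ht0 : t = f (n - 1) := by
          have h1 := (hst _ hf1).2
          have h2 : t ∈ (range n).image f := by rw [← hU]; exact ht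
          obtain ⟨i, hi', hi⟩ := Finset.mem_image.mp h2
          have h3 := hf.monotone (show i ≤ n - 1 by have := Finset.mem_range.mp hi'; omega)
          omega
        rcases Nat.eq_zero_or_pos c with hc | hc
        · subst hc
          rw [← FF_eq, ht0, Nat.zero_add, Nat.zero_add]
          refine hLM0 N m U n f hL ?_
          intro i hi0 hin c
          have hfi : f i ∈ (Ico i n).image f :=
            Finset.mem_image.mpr ⟨i, Finset.mem_Ico.mpr ⟨le_refl _, hin⟩, rfl⟩
          have hfn : f (n - 1) ∈ (Ico i n).image f :=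
            Finset.mem_image.mpr ⟨n - 1, Finset.mem_Ico.mpr ⟨by omega, by omega⟩, rfl⟩
          refine ihT _ ?_ (f i) (f (n - 1)) hfi hfn ?_ c
          · refine ⟨?_, ?_⟩
            · intro u hu
              obtain ⟨l, hl, rfl⟩ := Finset.mem_image.mp hu
              rw [hU]
              exact Finset.mem_image.mpr ⟨l, Finset.mem_range.mpr (Finset.mem_Ico.mp hl).2, rfl⟩
            · intro hh
              obtain ⟨l, hl, hl0⟩ := Finset.mem_image.mp (hh hf0)
              have h5 := hf.injective hl0
              have := (Finset.mem_Ico.mp hl).1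
              omega
          · intro u hu
            obtain ⟨l, hl, rfl⟩ := Finset.mem_image.mp hu
            have h6 := Finset.mem_Ico.mp hl
            exact ⟨hf.monotone h6.1, hf.monotone (by omega)⟩
        · rw [hs0, ht0]
          have hsub : ∀ V ⊆ U, f 0 ∉ V → V ⊂ U := fun V hV h0 =>
            ⟨hV, fun hh => h0 (hh hf0)⟩
          refine hLM1 N m hm U n f hL (fun V hV h0 => ihX V (hsub V hV h0)) ?_ c hc
          intro V hV h0 h1
          refine ihF V (hsub V hV h0) _ h1 (fun u hu => ?_)
          rw [← ht0]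
          exact (hst u (hV hu)).2

end Pool.Agent.SWC
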