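import Pool.Agent.Lib.MP_263316_co.Spec
import Pool.Agent.Lib.MP_263316_co.MAIN

/-!
MP_263316_co: the final theorem in the form of the frozen statement.
-/

set_option autoImplicit false

namespace Pool.Agent.SWC

open Finset

namespace FinAux

/-- extension of `h` to the natural numbers -/
def mh {n : ℕ} (h : Fin n → Fin n) (v : ℕ) : ℕ := if hv : v < n then (h ⟨v, hv⟩ : ℕ) else v

theorem mh_fin {n : ℕ} (h : Fin n → Fin n) (v : Fin n) : mh h (v : ℕ) = (h v : ℕ) := by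
  unfold mh
  rw [dif_pos v.2]

theorem mh_mono {n : ℕ} (h : Fin n → Fin n) (hm : Monotone h) : Monotone (mh h) := by
  intro a b hab
  unfold mh
  by_cases hb : b < n
  · have ha : a < n := by omega
    rw [dif_pos ha, dif_pos hb]
    exact hm (show (⟨a, ha⟩ : Fin n) ≤ ⟨b, hb⟩ from hab)
  · rw [dif_neg hb]
    by_cases ha : a < n
    · rw [dif_pos ha]
      have := (h ⟨a, ha⟩).2
      omega
    · rw [dif_neg ha]
      exact hab

theorem mh_good {n : ℕ} (h : Fin n → Fin n)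
    (hg : ∀ a b c d e : Fin n, a < b → b < c → c < d → d < e →
      (d ≤ h a → e ≤ h c → e ≤ h a) ∧ (e ≤ h b → c ≤ h a → e ≤ h a)) :
    Good (mh h) (range n) := by
  intro x1 h1 x2 h2 x3 h3 x4 h4 x5 h5 h12 h23 h34 h45
  rw [Finset.mem_range] at h1 h2 h3 h4 h5
  have key := hg ⟨x1, h1⟩ ⟨x2, h2⟩ ⟨x3, h3⟩ ⟨x4, h4⟩ ⟨x5, h5⟩ h12 h23 h34 h45
  have e1 : mh h x1 = (h ⟨x1, h1⟩ : ℕ) := mh_fin h ⟨x1, h1⟩
  have e2 : mh h x2 = (h ⟨x2, h2⟩ : ℕ) := mh_fin h ⟨x2, h2⟩
  have e3 : mh h x3 = (h ⟨x3, h3⟩ : ℕ) := mh_fin h ⟨x3, h3⟩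
  rw [e1, e2, e3]
  exact key

theorem eE_mh {n : ℕ} (h : Fin n → Fin n) :
    eE (mh h) (range n) =
      (Finset.univ.filter (fun p : Fin n × Fin n => p.1 < p.2 ∧ p.2 ≤ h p.1)).card := by
  unfold eE aL
  rw [Finset.card_filter, Fintype.sum_prod_type_right, Finset.sum_range]
  refine Finset.sum_congr rfl fun v _ => ?_
  rw [Finset.card_filter, Finset.sum_range]
  refine Finset.sum_congr rfl fun u _ => ?_
  rw [mh_fin]
  rfl

theorem sum_eq {n : ℕ} (h : Fin n → Fin n) (hFUN : S_FUN) :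
    (∑ κ ∈ (Finset.univ.filter
            (fun κ : Fin n → Fin n => ∀ i j : Fin n, i < j → j ≤ h i → κ i ≠ κ j)),
          MvPolynomial.C (Polynomial.X ^ ((Finset.univ.filter
            (fun p : Fin n × Fin n => p.1 < p.2 ∧ p.2 ≤ h p.1 ∧ κ p.1 < κ p.2)).card))
            * ∏ i : Fin n, MvPolynomial.X (κ i) : MvPolynomial (Fin n) (Polynomial ℤ)) =
    XX (mh h) (qq n) (xx n) (range n) := by
  unfold XX
  rw [hFUN (AN n) n n (mh h) (qq n) (fun _ k => xx n k), Finset.sum_filter]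
  refine Finset.sum_congr rfl fun κ _ => ?_
  have hset : (univ.filter (fun p : Fin n × Fin n =>
      p.1 < p.2 ∧ (p.2 : ℕ) ≤ mh h (p.1 : ℕ))) =
      univ.filter (fun p : Fin n × Fin n => p.1 < p.2 ∧ p.2 ≤ h p.1) := by
    refine Finset.filter_congr fun p _ => ?_
    rw [mh_fin]
    rfl
  rw [hset]
  by_cases hp : ∀ i j : Fin n, i < j → j ≤ h i → κ i ≠ κ j
  · rw [if_pos hp]
    have h1 : (∏ p ∈ univ.filter (fun p : Fin n × Fin n => p.1 < p.2 ∧ p.2 ≤ h p.1),
        (if κ p.1 = κ p.2 then (0 : AN n) else if κ p.1 < κ p.2 then qq n else 1)) =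
        ∏ p ∈ univ.filter (fun p : Fin n × Fin n => p.1 < p.2 ∧ p.2 ≤ h p.1),
        (if κ p.1 < κ p.2 then qq n else 1) := by
      refine Finset.prod_congr rfl fun p hpm => ?_
      rw [Finset.mem_filter] at hpm
      rw [if_neg (hp p.1 p.2 hpm.2.1 hpm.2.2)]
    rw [h1, Finset.prod_ite, Finset.prod_const, Finset.prod_const_one, mul_one,
      Finset.filter_filter, mul_comm]
    have h2 : (univ.filter (fun p : Fin n × Fin n => p.1 < p.2 ∧ p.2 ≤ h p.1 ∧
        κ p.1 < κ p.2)) = univ.filter (fun p : Fin n × Fin n => (p.1 < p.2 ∧ p.2 ≤ h p.1) ∧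
        κ p.1 < κ p.2) := by
      refine Finset.filter_congr fun p _ => ?_
      rw [and_assoc]
    rw [h2]
    unfold qq xx
    rw [map_pow]
  · rw [if_neg hp]
    push Not at hp
    obtain ⟨i, j, hij, hj, hk⟩ := hp
    symm
    have h3 : (∏ p ∈ univ.filter (fun p : Fin n × Fin n => p.1 < p.2 ∧ p.2 ≤ h p.1),
        (if κ p.1 = κ p.2 then (0 : AN n) else if κ p.1 < κ p.2 then qq n else 1)) = 0 := by
      refine Finset.prod_eq_zero (i := (i, j)) ?_ ?_
      · rw [Finset.mem_filter]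
        exact ⟨Finset.mem_univ _, hij, hj⟩
      · rw [if_pos hk]
    rw [h3, mul_zero]

end FinAux

open FinAux MainAux in
theorem t_FIN (hMAIN : S_MAIN) (hMsum : S_Msum) (hCpart : S_Cpart) (hPU : S_PUcoeff)
    (hFUN : S_FUN) : S_FINAL := by
  intro n h hm _ hg E hE
  have hX : XX (mh h) (qq n) (xx n) (range n) ∈ Cone n n E := by
    rcases Nat.eq_zero_or_pos n with h0 | hpos
    · subst h0
      have h1 : XX (mh h) (qq 0) (xx 0) (range 0) = 1 := by simp [XX]
      have h2 : E = 0 := by rw [hE]; simp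
      rw [h1, h2]
      exact one_mem 0
    · have hs : 0 ∈ range n := Finset.mem_range.mpr hpos
      have ht : n - 1 ∈ range n := Finset.mem_range.mpr (by omega)
      have h1 := hMAIN n (mh h) (mh_mono h hm) (range n) (mh_good h hg) 0 (n - 1) hs ht
        (fun u hu => ⟨Nat.zero_le u, by have := Finset.mem_range.mp hu; omega⟩) 0
      rw [← FF_eq, Nat.zero_add, Nat.zero_add, Finset.card_range, eE_mh, ← hE] at h1
      have h2 := hMsum n n E _ h1
      rw [sum_FF (mh h) (qq n) (xx n) (range n) (n - 1) ht] at h2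
      exact h2
  obtain ⟨a, ha, hpu⟩ := hCpart n n E _ hX
  exact ⟨a, (sum_eq h hFUN).trans ha, fun μ => hPU E (a μ) (hpu μ)⟩

end Pool.Agent.SWC
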