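import Pool.Agent.Lib.MP_263316_co.Spec

/-!
MP_263316_co: products of palindromic unimodal polynomials (helper86).
-/

set_option autoImplicit false

namespace Pool.Agent.SWC

open Finset

namespace PUmulAux

theorem qn_succ {R : Type} [CommRing R] (q : R) (n : ℕ) : qn q (n + 1) = qn q n + q ^ n := by
  unfold qn
  rw [Finset.sum_range_succ]

theorem qn_succ_left {R : Type} [CommRing R] (q : R) (n : ℕ) :
    qn q (n + 1) = 1 + q * qn q n := by
  unfold qn
  rw [Finset.sum_range_succ', Finset.mul_sum, add_comm, pow_zero]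
  congr 1
  exact Finset.sum_congr rfl fun i _ => by ring

theorem qn_add {R : Type} [CommRing R] (q : R) (a b : ℕ) :
    qn q (a + b) = qn q a + ∑ s ∈ range b, q ^ (a + s) := by
  unfold qn
  rw [Finset.sum_range_add]

theorem qn_mul {R : Type} [CommRing R] (q : R) (k k' : ℕ) (h : k ≤ k') :
    qn q k * qn q k' = ∑ r ∈ range k, q ^ r * qn q (k + k' - 1 - 2 * r) := by
  induction k with
  | zero => simp [qn]
  | succ k ih =>
    have ih' := ih (by omega)
    rw [qn_succ_left, add_mul, one_mul, mul_assoc, ih', Finset.sum_range_succ', Finset.mul_sum]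
    have h1 : ∀ r ∈ range k, q * (q ^ r * qn q (k + k' - 1 - 2 * r)) =
        q ^ (r + 1) * qn q (k + 1 + k' - 1 - 2 * (r + 1)) + q ^ (k' + (k - 1 - r)) := by
      intro r hr
      have hr' : r < k := Finset.mem_range.1 hr
      have e1 : k + k' - 1 - 2 * r = (k + 1 + k' - 1 - 2 * (r + 1)) + 1 := by omega
      rw [e1, qn_succ]
      have e2 : k' + (k - 1 - r) = r + 1 + (k + 1 + k' - 1 - 2 * (r + 1)) := by omega
      rw [e2, pow_add, pow_succ]
      ring
    rw [Finset.sum_congr rfl h1, Finset.sum_add_distrib]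
    have h2 : ∑ r ∈ range k, q ^ (k' + (k - 1 - r)) = ∑ s ∈ range k, q ^ (k' + s) :=
      Finset.sum_range_reflect (fun s => q ^ (k' + s)) k
    have h3 : k + 1 + k' - 1 - 2 * 0 = k' + k := by omega
    rw [h2, h3, qn_add]
    ring

theorem gen {d d' i k i' k' : ℕ} (h : 2 * i + k = d + 1) (h' : 2 * i' + k' = d' + 1)
    (hk : k ≤ k') :
    (Polynomial.X ^ i * qn (Polynomial.X : Polynomial ℤ) k) *
      (Polynomial.X ^ i' * qn (Polynomial.X : Polynomial ℤ) k') ∈ PU (d + d') := by
  have h1 : (Polynomial.X ^ i * qn (Polynomial.X : Polynomial ℤ) k) *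
      (Polynomial.X ^ i' * qn (Polynomial.X : Polynomial ℤ) k') =
      ∑ r ∈ range k, Polynomial.X ^ (i + i' + r) *
        qn (Polynomial.X : Polynomial ℤ) (k + k' - 1 - 2 * r) := by
    have h2 : (Polynomial.X ^ i * qn (Polynomial.X : Polynomial ℤ) k) *
        (Polynomial.X ^ i' * qn (Polynomial.X : Polynomial ℤ) k') =
        Polynomial.X ^ (i + i') *
          (qn (Polynomial.X : Polynomial ℤ) k * qn (Polynomial.X : Polynomial ℤ) k') := by
      rw [pow_add]
      ring
    rw [h2, qn_mul _ k k' hk, Finset.mul_sum]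
    refine Finset.sum_congr rfl fun r _ => ?_
    rw [pow_add Polynomial.X (i + i') r]
    ring
  rw [h1]
  refine AddSubmonoid.sum_mem _ fun r hr => ?_
  have hr' : r < k := Finset.mem_range.1 hr
  exact AddSubmonoid.subset_closure ⟨i + i' + r, k + k' - 1 - 2 * r, by omega, rfl⟩

end PUmulAux

/-- TASK PUmul -/
theorem t_PUmul : S_PUmul := by
  intro d d' p p' hp hp'
  refine AddSubmonoid.closure_induction (motive := fun p _ => p * p' ∈ PU (d + d')) ?_ ?_ ?_ hp
  · rintro p ⟨i, k, h, rfl⟩
    refine AddSubmonoid.closure_induction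
      (motive := fun p' _ => (Polynomial.X ^ i * qn (Polynomial.X : Polynomial ℤ) k) * p' ∈
        PU (d + d')) ?_ ?_ ?_ hp'
    · rintro p' ⟨i', k', h', rfl⟩
      rcases le_total k k' with hk | hk
      · exact PUmulAux.gen h h' hk
      · rw [mul_comm, add_comm d d']
        exact PUmulAux.gen h' h hk
    · rw [mul_zero]
      exact AddSubmonoid.zero_mem _
    · intro a b _ _ ha hb
      rw [mul_add]
      exact AddSubmonoid.add_mem _ ha hb
  · rw [zero_mul]
    exact AddSubmonoid.zero_mem _
  · intro a b _ _ ha hb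
    rw [add_mul]
    exact AddSubmonoid.add_mem _ ha hb

end Pool.Agent.SWC
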