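import Pool.Agent.Lib.MP_263316_co.Spec

/-!
MP_263316_co: coefficients of the products (COEF).
-/

set_option autoImplicit false

namespace Pool.Agent.SWC

open Finset

namespace COEFx

theorem main {R : Type} [CommRing R] {N : ℕ} (s : Finset (Fin N)) (a : Fin N → R) (d : ℕ) :
    (∏ k ∈ s, (1 + Polynomial.X * Polynomial.C (a k))).coeff d =
      ∑ C ∈ powersetCard d s, ∏ k ∈ C, a k := by
  rw [Finset.prod_one_add, Polynomial.finsetSum_coeff, Finset.powersetCard_eq_filter,
    Finset.sum_filter]
  refine Finset.sum_congr rfl fun t _ => ?_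
  have h : ∏ i ∈ t, (Polynomial.X * Polynomial.C (a i)) =
      Polynomial.C (∏ i ∈ t, a i) * Polynomial.X ^ t.card := by
    rw [Finset.prod_mul_distrib, Finset.prod_const, map_prod, mul_comm]
  rw [h, Polynomial.coeff_C_mul_X_pow]
  by_cases hd : d = t.card
  · rw [if_pos hd, if_pos hd.symm]
  · rw [if_neg hd, if_neg fun e => hd e.symm]

end COEFx

theorem t_COEF : S_COEF := by
  intro R _ N q x d
  refine ⟨?_, ?_, fun j => ?_⟩
  · unfold EE es
    have h : ∏ k : Fin N, (1 + (if (k : ℕ) < 0 then
        Polynomial.C q * Polynomial.X * Polynomial.C (x k) else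
          Polynomial.X * Polynomial.C (x k))) =
        ∏ k : Fin N, (1 + Polynomial.X * Polynomial.C (x k)) := by
      refine Finset.prod_congr rfl fun k _ => ?_
      rw [if_neg (Nat.not_lt_zero _)]
    rw [h, COEFx.main]
  · unfold EE es
    have h : ∏ k : Fin N, (1 + (if (k : ℕ) < N then
        Polynomial.C q * Polynomial.X * Polynomial.C (x k) else
          Polynomial.X * Polynomial.C (x k))) =
        ∏ k : Fin N, (1 + Polynomial.X * Polynomial.C (q * x k)) := by
      refine Finset.prod_congr rfl fun k _ => ?_
      rw [if_pos k.isLt, map_mul]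
      ring
    rw [h, COEFx.main, Finset.mul_sum]
    refine Finset.sum_congr rfl fun C hC => ?_
    rw [Finset.prod_mul_distrib, Finset.prod_const, (Finset.mem_powersetCard.mp hC).2]
  · unfold GG eh
    have h : ∏ k ∈ univ.erase j, (1 + (if k < j then
        Polynomial.C q * Polynomial.X * Polynomial.C (x k) else
          Polynomial.X * Polynomial.C (x k))) =
        ∏ k ∈ univ.erase j, (1 + Polynomial.X * Polynomial.C (if k < j then q * x k else x k)) := by
      refine Finset.prod_congr rfl fun k _ => ?_
      by_cases hk : k < j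
      · rw [if_pos hk, if_pos hk, map_mul]
        ring
      · rw [if_neg hk, if_neg hk]
    rw [h, Polynomial.coeff_C_mul, COEFx.main]

end Pool.Agent.SWC
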