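import Pool.Agent.Lib.MP_263316_co.Spec

/-!
MP_263316_co: splitting off one colour.
-/

set_option autoImplicit false

namespace Pool.Agent.SWC

open Finset

namespace CSaux

private theorem prod_pw_same {R : Type} [CommRing R] {N : ℕ} (m : ℕ → ℕ) (q : R) (v : ℕ)
    (i : Fin N) (J : Finset ℕ) :
    ∏ u ∈ J, pw m q v i u i =
      if (∀ u ∈ J, ¬ (v < u ∧ u ≤ m v) ∧ ¬ (u < v ∧ v ≤ m u)) then 1 else 0 := by
  by_cases h : ∀ u ∈ J, ¬ (v < u ∧ u ≤ m v) ∧ ¬ (u < v ∧ v ≤ m u)
  · rw [if_pos h]
    refine Finset.prod_eq_one fun u hu => ?_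
    exact pw_of_not (h u hu).1 (h u hu).2 i i
  · rw [if_neg h]
    push Not at h
    obtain ⟨u, hu, h2⟩ := h
    refine Finset.prod_eq_zero hu ?_
    by_cases h3 : v < u ∧ u ≤ m v
    · rw [pw_lt h3.1 h3.2, if_pos rfl]
    · have h4 := h2 (fun h5 => by
        by_contra h6
        exact h3 ⟨h5, by omega⟩)
      rw [pw_gt h4.1 h4.2, if_pos rfl]

private theorem ind_insert (m : ℕ → ℕ) (v : ℕ) (J : Finset ℕ) :
    ind m (insert v J) ↔ ind m J ∧ ∀ u ∈ J, ¬ (v < u ∧ u ≤ m v) ∧ ¬ (u < v ∧ v ≤ m u) := by
  constructor
  · intro h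
    refine ⟨fun a ha b hb => h a (mem_insert_of_mem ha) b (mem_insert_of_mem hb), fun u hu => ?_⟩
    exact ⟨h v (mem_insert_self v J) u (mem_insert_of_mem hu),
      h u (mem_insert_of_mem hu) v (mem_insert_self v J)⟩
  · rintro ⟨h1, h2⟩ a ha b hb
    rcases mem_insert.mp ha with ha' | ha'
    · rcases mem_insert.mp hb with hb' | hb'
      · omega
      · rw [ha']
        exact (h2 b hb').1
    · rcases mem_insert.mp hb with hb' | hb'
      · rw [hb']
        exact (h2 a ha').2
      · exact h1 a ha' b hb'

end CSaux

/-- **CS.** -/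
theorem t_CS : S_CS := by
  intro R _ N m q U
  induction U using Finset.induction_on with
  | empty =>
    intro w i
    rw [Finset.powerset_empty, Finset.filter_singleton, if_pos (by intro u hu; simp at hu)]
    simp
  | insert v U hv ih =>
    intro w i
    rw [Z_insert hv, Finset.sum_filter, Finset.sum_powerset_insert hv,
      ← Finset.add_sum_erase Finset.univ _ (Finset.mem_univ i), add_comm]
    have hk : ∀ k, w v k * Z m q U (fun u k' => w u k' * pw m q v k u k') =
        ∑ J ∈ U.powerset, if ind m J then w v k * ((∏ u ∈ J, (w u i * pw m q v k u i)) *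
          Z m q (U \ J) (fun u k' => if k' = i then 0 else
            (w u k' * pw m q v k u k') * ∏ u' ∈ J, pw m q u' i u k')) else 0 := by
      intro k
      rw [ih _ i, Finset.sum_filter, Finset.mul_sum]
      refine Finset.sum_congr rfl fun J _ => ?_
      rw [mul_ite, mul_zero]
    congr 1
    · rw [Finset.sum_congr rfl (fun k _ => hk k), Finset.sum_comm]
      refine Finset.sum_congr rfl fun J hJ => ?_
      have hvJ : v ∉ J := fun h => hv (Finset.mem_powerset.mp hJ h)
      by_cases hind : ind m J
      · simp only [if_pos hind]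
        rw [Finset.insert_sdiff_of_notMem U hvJ, Z_insert (by simp [hv]), Finset.mul_sum,
          ← Finset.sum_erase Finset.univ (a := i) (by simp)]
        refine Finset.sum_congr rfl fun k hk' => ?_
        have hki : k ≠ i := Finset.ne_of_mem_erase hk'
        have h2 : ∏ u ∈ J, pw m q v k u i = ∏ u ∈ J, pw m q u i v k :=
          Finset.prod_congr rfl fun u _ => pw_comm m q v k u i
        have h3 : Z m q (U \ J) (fun u k' => if k' = i then 0 else
            (w u k' * pw m q v k u k') * ∏ u' ∈ J, pw m q u' i u k') =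
            Z m q (U \ J) (fun u k' => (if k' = i then 0 else w u k' *
              ∏ u' ∈ J, pw m q u' i u k') * pw m q v k u k') := by
          refine Z_congr fun u _ k' => ?_
          by_cases h4 : k' = i
          · rw [if_pos h4, if_pos h4, zero_mul]
          · rw [if_neg h4, if_neg h4]
            ring
        rw [if_neg hki, Finset.prod_mul_distrib, h2, h3]
        ring
      · simp only [if_neg hind, Finset.sum_const_zero]
    · rw [hk i]
      refine Finset.sum_congr rfl fun J hJ => ?_
      have hvJ : v ∉ J := fun h => hv (Finset.mem_powerset.mp hJ h)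
      have hU : insert v U \ insert v J = U \ J := by
        ext a
        simp only [Finset.mem_sdiff, Finset.mem_insert]
        constructor
        · rintro ⟨h1 | h1, h2⟩
          · exact absurd (Or.inl h1) h2
          · exact ⟨h1, fun h => h2 (Or.inr h)⟩
        · rintro ⟨h1, h2⟩
          refine ⟨Or.inr h1, ?_⟩
          rintro (h3 | h3)
          · exact hv (h3 ▸ h1)
          · exact h2 h3
      have h3 : Z m q (U \ J) (fun u k' => if k' = i then 0 else
          (w u k' * pw m q v i u k') * ∏ u' ∈ J, pw m q u' i u k') =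
          Z m q (U \ J) (fun u k' => if k' = i then 0 else w u k' *
            ∏ u' ∈ insert v J, pw m q u' i u k') := by
        refine Z_congr fun u _ k' => ?_
        by_cases h4 : k' = i
        · rw [if_pos h4, if_pos h4]
        · rw [if_neg h4, if_neg h4, Finset.prod_insert hvJ]
          ring
      rw [hU, Finset.prod_insert hvJ, Finset.prod_mul_distrib, CSaux.prod_pw_same, h3]
      by_cases hind : ind m J
      · by_cases hadj : ∀ u ∈ J, ¬ (v < u ∧ u ≤ m v) ∧ ¬ (u < v ∧ v ≤ m u)
        · rw [if_pos hind, if_pos hadj, if_pos ((CSaux.ind_insert m v J).mpr ⟨hind, hadj⟩)]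
          ring
        · rw [if_pos hind, if_neg hadj,
            if_neg fun h => hadj ((CSaux.ind_insert m v J).mp h).2]
          ring
      · rw [if_neg hind, if_neg fun h => hind ((CSaux.ind_insert m v J).mp h).1]

end Pool.Agent.SWC
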