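import Pool.Agent.Lib.MP_263316_co.Spec

/-!
MP_263316_co: splitting off one colour, threshold `i + 1` (helper86).
-/

set_option autoImplicit false

namespace Pool.Agent.SWC

open Finset

namespace CS2Aux

theorem aL_union {m : ℕ → ℕ} {S J : Finset ℕ} (h : Disjoint S J) (v : ℕ) :
    aL m (S ∪ J) v = aL m S v + aL m J v := by
  unfold aL
  rw [Finset.filter_union, Finset.card_union_of_disjoint (Finset.disjoint_filter_filter h)]

theorem aR_union {m : ℕ → ℕ} {S J : Finset ℕ} (h : Disjoint S J) (v : ℕ) :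
    aR m (S ∪ J) v = aR m S v + aR m J v := by
  unfold aR
  rw [Finset.filter_union, Finset.card_union_of_disjoint (Finset.disjoint_filter_filter h)]

theorem prod_lt {R : Type} [CommRing R] {N : ℕ} (m : ℕ → ℕ) (q : R) (J : Finset ℕ) (v : ℕ)
    {i k : Fin N} (hik : i < k) : ∏ u ∈ J, pw m q u i v k = q ^ aL m J v := by
  have h1 : ∀ u ∈ J, pw m q u i v k = if u < v ∧ v ≤ m u then q else 1 := by
    intro u _
    unfold pw
    by_cases h : u < v ∧ v ≤ m u
    · rw [if_pos h, if_pos h, if_neg hik.ne, if_pos hik]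
    · rw [if_neg h, if_neg h, if_neg hik.ne, if_neg (not_lt_of_gt hik), ite_self]
  rw [Finset.prod_congr rfl h1, Finset.prod_ite, Finset.prod_const, Finset.prod_const_one,
    mul_one]
  rfl

theorem prod_gt {R : Type} [CommRing R] {N : ℕ} (m : ℕ → ℕ) (q : R) (J : Finset ℕ) (v : ℕ)
    {i k : Fin N} (hik : k < i) : ∏ u ∈ J, pw m q u i v k = q ^ aR m J v := by
  have h1 : ∀ u ∈ J, pw m q u i v k = if v < u ∧ u ≤ m v then q else 1 := by
    intro u _
    unfold pw
    by_cases h : u < v ∧ v ≤ m u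
    · rw [if_pos h, if_neg hik.ne', if_neg (not_lt_of_gt hik), if_neg (by omega)]
    · rw [if_neg h, if_neg hik.ne', if_pos hik]
  rw [Finset.prod_congr rfl h1, Finset.prod_ite, Finset.prod_const, Finset.prod_const_one,
    mul_one]
  rfl

end CS2Aux

/-- TASK CS2 -/
theorem t_CS2 : S_CS → S_CS2 := by
  intro hCS R _ N m q x μ U S i
  unfold ZS
  rw [hCS R N m q (U \ S) _ i]
  refine Finset.sum_congr rfl fun J hJ => ?_
  have hJ' : J ⊆ U \ S := Finset.mem_powerset.1 (Finset.mem_filter.1 hJ).1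
  have hd : Disjoint S J := by
    rw [Finset.disjoint_left]
    intro u hu hu'
    exact (Finset.mem_sdiff.1 (hJ' hu')).2 hu
  have e1 : ∀ v ∈ J, x i * μ v i * q ^ (if (i : ℕ) + 1 ≤ (i : ℕ) then aL m S v else aR m S v) =
      x i * μ v i * q ^ aR m S v := by
    intro v _
    rw [if_neg (by omega)]
  rw [Finset.prod_congr rfl e1]
  congr 1
  unfold ZD
  rw [sdiff_sdiff_left]
  refine Z_congr fun v _ k => ?_
  by_cases hk : k = i
  · rw [if_pos hk, if_pos hk]
  · rw [if_neg hk, if_neg hk]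
    rcases lt_or_gt_of_ne hk with h | h
    · have h' : (k : ℕ) < (i : ℕ) := h
      rw [CS2Aux.prod_gt m q J v h, if_neg (by omega), if_neg (not_lt_of_gt h)]
      rw [CS2Aux.aR_union hd v, pow_add]
      ring
    · have h' : (i : ℕ) < (k : ℕ) := h
      rw [CS2Aux.prod_lt m q J v h, if_pos (by omega), if_pos h]
      rw [CS2Aux.aL_union hd v, pow_add]
      ring

end Pool.Agent.SWC
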