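import Pool.Agent.Lib.MP_263316_co.Spec

/-!
MP_263316_co: splitting of the kernel.
-/

set_option autoImplicit false

namespace Pool.Agent.SWC

open Finset

namespace CS3aux

private theorem prod_pw {R : Type} [CommRing R] {N : ℕ} (m : ℕ → ℕ) (q : R) (v : ℕ)
    (i k : Fin N) (hk : k ≠ i) (J : Finset ℕ) :
    ∏ u ∈ J, pw m q u i v k = q ^ (if i < k then aL m J v else aR m J v) := by
  rcases lt_or_gt_of_ne hk with h | h
  · have h1 : ¬ i < k := not_lt.mpr h.le
    rw [if_neg h1]
    unfold aR
    rw [← Finset.prod_const, Finset.prod_filter]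
    refine Finset.prod_congr rfl fun u _ => ?_
    by_cases h2 : v < u ∧ u ≤ m v
    · rw [if_pos h2, pw_gt h2.1 h2.2, if_neg (Ne.symm hk), if_pos h]
    · rw [if_neg h2]
      by_cases h3 : u < v ∧ v ≤ m u
      · rw [pw_lt h3.1 h3.2, if_neg (Ne.symm hk), if_neg h1]
      · exact pw_of_not h3 h2 i k
  · have h1 : ¬ k < i := not_lt.mpr h.le
    rw [if_pos h]
    unfold aL
    rw [← Finset.prod_const, Finset.prod_filter]
    refine Finset.prod_congr rfl fun u _ => ?_
    by_cases h3 : u < v ∧ v ≤ m u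
    · rw [if_pos h3, pw_lt h3.1 h3.2, if_neg (Ne.symm hk), if_pos h]
    · rw [if_neg h3]
      by_cases h2 : v < u ∧ u ≤ m v
      · rw [pw_gt h2.1 h2.2, if_neg (Ne.symm hk), if_neg h1]
      · exact pw_of_not h3 h2 i k

end CS3aux

/-- **CS3.** -/
theorem t_CS3 (h0 : S_CS) : S_CS3 := by
  intro R _ N m q x U s t i j hs
  unfold KK
  rw [h0 R N m q U _ i, Finset.sum_filter, Finset.sum_filter]
  refine Finset.sum_congr rfl fun D hD => ?_
  rw [Finset.mem_powerset] at hD
  by_cases hind : ind m D
  · rw [if_pos hind]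
    by_cases hsD : s ∈ D
    · rw [if_pos (show s ∈ D ∧ ind m D from ⟨hsD, hind⟩)]
      unfold ZD
      congr 1
      · refine Finset.prod_congr rfl fun v _ => ?_
        by_cases hv : v = s
        · rw [if_pos hv, if_pos rfl, mul_one]
        · rw [if_neg hv, mul_one]
      · refine Z_congr fun v hv k => ?_
        have hvs : v ≠ s := by
          intro h
          rw [h] at hv
          exact (Finset.mem_sdiff.mp hv).2 hsD
        by_cases hk : k = i
        · rw [if_pos hk, if_pos hk]
        · rw [if_neg hk, if_neg hvs, CS3aux.prod_pw m q v i k hk D, mul_one]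
          exact (if_neg hk).symm
    · rw [if_neg (show ¬ (s ∈ D ∧ ind m D) from fun h => hsD h.1)]
      rw [Z_zero (v := s) (Finset.mem_sdiff.mpr ⟨hs, hsD⟩) (fun k => ?_), mul_zero]
      by_cases hk : k = i
      · rw [if_pos hk]
      · rw [if_neg hk, if_pos rfl, if_neg hk]
        ring
  · rw [if_neg hind, if_neg (show ¬ (s ∈ D ∧ ind m D) from fun h => hind h.2)]

end Pool.Agent.SWC
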