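import Pool.Agent.Lib.MP_263316_co.Spec

/-!
MP_263316_co, task CUT: cut vertices.
-/

set_option autoImplicit false

namespace Pool.Agent.SWC

open Finset

namespace CUTAux

theorem erase_U (U : Finset ℕ) (v : ℕ) :
    U.erase v = U.filter (fun u => u < v) ∪ U.filter (fun u => v < u) := by
  ext a
  simp only [Finset.mem_erase, Finset.mem_union, Finset.mem_filter]
  constructor
  · rintro ⟨h1, h2⟩
    rcases lt_or_gt_of_ne h1 with h | h
    · exact Or.inl ⟨h2, h⟩
    · exact Or.inr ⟨h2, h⟩
  · rintro (⟨h1, h2⟩ | ⟨h1, h2⟩)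
    · exact ⟨h2.ne, h1⟩
    · exact ⟨h2.ne', h1⟩

theorem erase_ge (U : Finset ℕ) (v : ℕ) :
    (U.filter (fun u => v ≤ u)).erase v = U.filter (fun u => v < u) := by
  ext a
  simp only [Finset.mem_erase, Finset.mem_filter]
  constructor
  · rintro ⟨h1, h2, h3⟩
    exact ⟨h2, lt_of_le_of_ne h3 (Ne.symm h1)⟩
  · rintro ⟨h1, h2⟩
    exact ⟨h2.ne', h1, h2.le⟩

theorem erase_le (U : Finset ℕ) (v : ℕ) :
    (U.filter (fun u => u ≤ v)).erase v = U.filter (fun u => u < v) := by
  ext a
  simp only [Finset.mem_erase, Finset.mem_filter]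
  constructor
  · rintro ⟨h1, h2, h3⟩
    exact ⟨h2, lt_of_le_of_ne h3 h1⟩
  · rintro ⟨h1, h2⟩
    exact ⟨h2.ne, h1, h2.le⟩

variable {R : Type} [CommRing R] {N : ℕ}

/-- The left factor. -/
theorem left_eq (m : ℕ → ℕ) (q : R) (x : Fin N → R) (U : Finset ℕ) (s v : ℕ) (hv : v ∈ U)
    (f : Fin N → R) (i : Fin N) :
    TT m q x (U.filter (fun u => u ≤ v)) s v f i = (if v = s then f i else x i) *
      Z m q (U.filter (fun u => u < v)) (fun u k => (if u = s then f k else x k) *
        pw m q v i u k) := by
  have hv' : v ∈ U.filter (fun u => u ≤ v) := Finset.mem_filter.mpr ⟨hv, le_rfl⟩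
  unfold TT
  rw [Z_erase hv', erase_le, Finset.sum_eq_single i]
  · simp only [if_true, mul_one]
    congr 1
    refine Z_congr fun u hu k => ?_
    have hne : u ≠ v := (Finset.mem_filter.mp hu).2.ne
    rw [if_neg hne, mul_one]
  · intro k _ hk
    simp [hk]
  · intro h
    exact absurd (Finset.mem_univ i) h

end CUTAux

open CUTAux

theorem t_CUT : S_CUT := by
  intro R _ N m q x U s v t hs hv ht hsv hvt hcut f
  funext j
  have hv' : v ∈ U.filter (fun u => v ≤ u) := Finset.mem_filter.mpr ⟨hv, le_rfl⟩
  have hR : TT m q x (U.filter (fun u => v ≤ u)) v t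
      (TT m q x (U.filter (fun u => u ≤ v)) s v f) j =
      ∑ i, ((if v = s then f i else x i) *
        Z m q (U.filter (fun u => u < v)) (fun u k => (if u = s then f k else x k) *
          pw m q v i u k)) * (if v = t then (if i = j then 1 else 0) else 1) *
        Z m q (U.filter (fun u => v < u)) (fun u k => x k *
          (if u = t then (if k = j then 1 else 0) else 1) * pw m q v i u k) := by
    rw [TT, Z_erase hv', erase_ge]
    refine Finset.sum_congr rfl fun i _ => ?_
    rw [if_pos rfl, left_eq m q x U s v hv f i]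
    congr 1
    refine Z_congr fun u hu k => ?_
    have hne : u ≠ v := (Finset.mem_filter.mp hu).2.ne'
    rw [if_neg hne]
  rw [hR, TT, Z_erase hv, erase_U]
  refine Finset.sum_congr rfl fun i _ => ?_
  have hdis : Disjoint (U.filter (fun u => u < v)) (U.filter (fun u => v < u)) := by
    rw [Finset.disjoint_left]
    intro a ha hb
    exact lt_asymm (Finset.mem_filter.mp ha).2 (Finset.mem_filter.mp hb).2
  rw [Z_union hdis]
  · have h1 : Z m q (U.filter (fun u => u < v)) (fun u k => (if u = s then f k else x k) *
          (if u = t then (if k = j then 1 else 0) else 1) * pw m q v i u k) =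
        Z m q (U.filter (fun u => u < v)) (fun u k => (if u = s then f k else x k) *
          pw m q v i u k) := by
      refine Z_congr fun u hu k => ?_
      have hne : u ≠ t := ((Finset.mem_filter.mp hu).2.trans_le hvt).ne
      rw [if_neg hne, mul_one]
    have h2 : Z m q (U.filter (fun u => v < u)) (fun u k => (if u = s then f k else x k) *
          (if u = t then (if k = j then 1 else 0) else 1) * pw m q v i u k) =
        Z m q (U.filter (fun u => v < u)) (fun u k => x k *
          (if u = t then (if k = j then 1 else 0) else 1) * pw m q v i u k) := by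
      refine Z_congr fun u hu k => ?_
      have hne : u ≠ s := (hsv.trans_lt (Finset.mem_filter.mp hu).2).ne'
      rw [if_neg hne]
    rw [h1, h2]
    ring
  · intro a ha b hb
    have ha' := Finset.mem_filter.mp ha
    have hb' := Finset.mem_filter.mp hb
    have := hcut a ha'.1 b hb'.1 ha'.2 hb'.2
    omega

end Pool.Agent.SWC
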