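import Pool.Agent.Lib.MP_263316_co.Spec

/-!
MP_263316_co, part P: the product of two cones lies in the cone (Cmul).
-/

set_option autoImplicit false

namespace Pool.Agent.SWC

open Finset

theorem t_Cmul (h1 : S_PUmul) : S_Cmul := by
  intro N n d n' d' u u' hu hu'
  induction hu using AddSubmonoid.closure_induction with
  | zero => rw [zero_mul]; exact AddSubmonoid.zero_mem _
  | add a b _ _ iha ihb => rw [add_mul]; exact AddSubmonoid.add_mem _ iha ihb
  | mem a ha =>
    obtain ⟨l, p, hl, hp, rfl⟩ := ha
    induction hu' using AddSubmonoid.closure_induction with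
    | zero => rw [mul_zero]; exact AddSubmonoid.zero_mem _
    | add a b _ _ iha ihb => rw [mul_add]; exact AddSubmonoid.add_mem _ iha ihb
    | mem a ha =>
      obtain ⟨l', p', hl', hp', rfl⟩ := ha
      refine AddSubmonoid.subset_closure ⟨l + l', p * p', ?_, h1 d d' p p' hp hp', ?_⟩
      · rw [Multiset.sum_add, hl, hl']
      · rw [Multiset.map_add, Multiset.prod_add, map_mul]
        ring

end Pool.Agent.SWC
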