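import Pool.Agent.Lib.MP_263316_co.Spec

/-!
MP_263316_co: expansion over partitions.
-/

set_option autoImplicit false

namespace Pool.Agent.SWC

open Finset

private theorem es_zero {R : Type} [CommRing R] {N : ℕ} (x : Fin N → R) : es x 0 = 1 := by
  simp [es]

private theorem filter_prod {A : Type} [CommMonoid A] (g : ℕ → A) (h : g 0 = 1) (l : Multiset ℕ) :
    ((l.filter (fun k => k ≠ 0)).map g).prod = (l.map g).prod := by
  induction l using Multiset.induction_on with
  | empty => rfl
  | cons a l ih =>
    rcases Nat.eq_zero_or_pos a with rfl | ha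
    · rw [Multiset.filter_cons_of_neg _ (by simp), Multiset.map_cons, Multiset.prod_cons, h,
        one_mul, ih]
    · rw [Multiset.filter_cons_of_pos _ (by omega), Multiset.map_cons, Multiset.map_cons,
        Multiset.prod_cons, Multiset.prod_cons, ih]

theorem t_Cpart : S_Cpart := by
  classical
  intro N n d f hf
  induction hf using AddSubmonoid.closure_induction with
  | mem f hf =>
    obtain ⟨l, p, hl, hp, rfl⟩ := hf
    refine ⟨Pi.single (Nat.Partition.ofSums n l hl) p, ?_, fun μ => ?_⟩
    · rw [Finset.sum_eq_single (Nat.Partition.ofSums n l hl)]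
      · rw [Pi.single_eq_same]
        congr 1
        exact (filter_prod (es (xx N)) (es_zero (xx N)) l).symm
      · intro μ _ hμ
        rw [Pi.single_eq_of_ne hμ, map_zero, zero_mul]
      · intro h
        exact absurd (Finset.mem_univ _) h
    · by_cases hμ : μ = Nat.Partition.ofSums n l hl
      · rw [hμ, Pi.single_eq_same]
        exact hp
      · rw [Pi.single_eq_of_ne hμ]
        exact (PU d).zero_mem
  | zero =>
    refine ⟨0, ?_, fun μ => (PU d).zero_mem⟩
    simp
  | add f g _ _ ihf ihg =>
    obtain ⟨a, ha, ha'⟩ := ihf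
    obtain ⟨b, hb, hb'⟩ := ihg
    refine ⟨a + b, ?_, fun μ => (PU d).add_mem (ha' μ) (hb' μ)⟩
    rw [ha, hb, ← Finset.sum_add_distrib]
    refine Finset.sum_congr rfl fun μ _ => ?_
    rw [Pi.add_apply, map_add, add_mul]

end Pool.Agent.SWC
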