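import Pool.Agent.Lib.MP_263316_co.Spec

/-!
MP_263316_co, task DIS (helper18): disconnected sets.
-/

set_option autoImplicit false

namespace Pool.Agent.SWC

open Finset

theorem t_DIS : S_DIS := by
  intro R _ N m q x A B s a t hs ha ht hAB f j
  have hd : Disjoint A B := by
    rw [Finset.disjoint_left]
    intro u hu hu'
    have := (hAB u hu u hu').1
    omega
  have hun : ∀ u ∈ A, ∀ v ∈ B, ¬ (u < v ∧ v ≤ m u) ∧ ¬ (v < u ∧ u ≤ m v) := by
    intro u hu v hv
    have := hAB u hu v hv
    constructor <;> omega
  unfold TT
  rw [Z_union hd hun]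
  congr 1
  · rw [Z_erase (m := m) (q := q) ha]
    refine Finset.sum_congr rfl fun i _ => ?_
    rw [Z_erase (m := m) (q := q) ha]
    have hat : a ≠ t := by
      have := (hAB a ha t ht).1
      omega
    rw [Finset.sum_eq_single i]
    · rw [if_neg hat, if_pos rfl, if_pos rfl]
      congr 1
      refine Z_congr fun u hu k' => ?_
      have h1 : u ≠ a := Finset.ne_of_mem_erase hu
      have h2 : u ≠ t := by
        have := (hAB u (Finset.mem_of_mem_erase hu) t ht).1
        omega
      rw [if_neg h1, if_neg h2]
    · intro k _ hk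
      rw [if_pos rfl, if_neg hk, mul_zero, zero_mul]
    · intro h
      exact absurd (Finset.mem_univ i) h
  · unfold FF
    refine Z_congr fun v hv k => ?_
    have h1 : v ≠ s := by
      have := (hAB s hs v hv).1
      omega
    rw [if_neg h1]

end Pool.Agent.SWC
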