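import Pool.Agent.Lib.MP_263316_co.Spec

/-!
MP_263316_co, task EDG: the edges of `U`, split by a subset.
-/

set_option autoImplicit false

namespace Pool.Agent.SWC

open Finset

theorem t_EDG : S_EDG := by
  intro m U S hS
  unfold eE ea eb
  simp only [aL, aR, Finset.card_filter]
  have hU : ∀ g : ℕ → ℕ, ∑ v ∈ U, g v = ∑ v ∈ U \ S, g v + ∑ v ∈ S, g v := fun g =>
    (Finset.sum_sdiff hS).symm
  have e1 : ∑ v ∈ U, ∑ u ∈ U, (if u < v ∧ v ≤ m u then 1 else 0) =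
      (∑ v ∈ U \ S, ∑ u ∈ U \ S, (if u < v ∧ v ≤ m u then 1 else 0) +
        ∑ v ∈ U \ S, ∑ u ∈ S, (if u < v ∧ v ≤ m u then 1 else 0)) +
      (∑ v ∈ S, ∑ u ∈ U \ S, (if u < v ∧ v ≤ m u then 1 else 0) +
        ∑ v ∈ S, ∑ u ∈ S, (if u < v ∧ v ≤ m u then 1 else 0)) := by
    rw [hU, ← Finset.sum_add_distrib, ← Finset.sum_add_distrib]
    congr 1 <;> exact Finset.sum_congr rfl fun v _ => hU _
  have e2 : ∑ v ∈ U \ S, ∑ u ∈ S, (if v < u ∧ u ≤ m v then 1 else 0) =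
      ∑ v ∈ S, ∑ u ∈ U \ S, (if u < v ∧ v ≤ m u then 1 else 0) := Finset.sum_comm
  rw [e1, e2]
  ring

end Pool.Agent.SWC
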