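import Pool.Agent.Lib.MP_263316_co.Spec

/-!
Sum of the marked elementary symmetric functions.
-/

set_option autoImplicit false

namespace Pool.Agent.SWC

open Finset

private theorem EHsum_term {R : Type} [CommRing R] {N : ℕ} (q : R) (x : Fin N → R)
    (C : Finset (Fin N)) {j : Fin N} (hj : j ∈ C) :
    x j * ∏ k ∈ C.erase j, (if k < j then q * x k else x k) =
      q ^ (C.filter (fun i => i < j)).card * ∏ k ∈ C, x k := by
  have h1 : ∏ k ∈ C.erase j, (if k < j then q * x k else x k) =
      (∏ k ∈ C.erase j, (if k < j then q else 1)) * ∏ k ∈ C.erase j, x k := by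
    rw [← Finset.prod_mul_distrib]
    refine Finset.prod_congr rfl fun k _ => ?_
    split_ifs
    · rfl
    · rw [one_mul]
  have h2 : ∏ k ∈ C.erase j, (if k < j then q else 1) =
      q ^ (C.filter (fun i => i < j)).card := by
    have h3 : (C.erase j).filter (fun i => i < j) = C.filter (fun i => i < j) := by
      ext i
      simp only [Finset.mem_filter, Finset.mem_erase]
      constructor
      · rintro ⟨⟨_, h⟩, h'⟩
        exact ⟨h, h'⟩
      · rintro ⟨h, h'⟩
        exact ⟨⟨h'.ne, h⟩, h'⟩
    rw [Finset.prod_ite, Finset.prod_const, Finset.prod_const_one, mul_one, h3]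
  rw [h1, h2, ← Finset.mul_prod_erase C x hj]
  ring

theorem t_EHsum (hPC : S_PC) (hRK : S_RK) : S_EHsum := by
  intro R _ N q x c
  have h1 : ∑ j, eh q x c j = ∑ j, ∑ C ∈ powersetCard c (univ.erase j),
      x j * ∏ k ∈ C, (if k < j then q * x k else x k) := by
    refine Finset.sum_congr rfl fun j _ => ?_
    unfold eh
    rw [Finset.mul_sum]
  rw [h1, hPC R N c (fun j C => x j * ∏ k ∈ C, (if k < j then q * x k else x k))]
  unfold es
  rw [Finset.mul_sum]
  refine Finset.sum_congr rfl fun C' hC' => ?_
  have hcard : C'.card = c + 1 := (Finset.mem_powersetCard.mp hC').2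
  rw [Finset.sum_congr rfl fun j hj => EHsum_term q x C' hj, ← Finset.sum_mul, hRK R N q C', hcard]

end Pool.Agent.SWC
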