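import Pool.Agent.Lib.MP_263316_co.Spec

/-!
MP_263316_co: the partition function as a sum over functions (S_FUN).
-/

set_option autoImplicit false

namespace Pool.Agent.SWC

open Finset

namespace FunAux

/-- edge weight -/
def ew {R : Type} [CommRing R] {N n : ℕ} (m : ℕ → ℕ) (q : R) (κ : Fin n → Fin N)
    (a b : Fin n) : R :=
  if a < b ∧ (b : ℕ) ≤ m (a : ℕ) then
    (if κ a = κ b then 0 else if κ a < κ b then q else 1) else 1

theorem filter_prod {R : Type} [CommRing R] {N n : ℕ} (m : ℕ → ℕ) (q : R)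
    (κ : Fin n → Fin N) :
    ∏ p ∈ univ.filter (fun p : Fin n × Fin n => p.1 < p.2 ∧ (p.2 : ℕ) ≤ m (p.1 : ℕ)),
      (if κ p.1 = κ p.2 then 0 else if κ p.1 < κ p.2 then q else 1) =
    ∏ b : Fin n, ∏ a : Fin n, ew m q κ a b := by
  rw [Finset.prod_filter, Fintype.prod_prod_type_right]
  rfl

theorem main {R : Type} [CommRing R] {N : ℕ} (m : ℕ → ℕ) (q : R) (n : ℕ) :
    ∀ w : ℕ → Fin N → R, Z m q (range n) w = ∑ κ : Fin n → Fin N, (∏ i : Fin n, w i (κ i)) *
      ∏ b : Fin n, ∏ a : Fin n, ew m q κ a b := by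
  induction n with
  | zero => intro w; simp
  | succ n ih =>
    intro w
    rw [Finset.range_add_one, Z_insert Finset.notMem_range_self]
    rw [← (Fin.snocEquiv (fun _ : Fin (n + 1) => Fin N)).sum_comp, Fintype.sum_prod_type]
    refine Finset.sum_congr rfl fun k _ => ?_
    rw [ih, Finset.mul_sum]
    refine Finset.sum_congr rfl fun κ _ => ?_
    have hsn : ∀ i : Fin n, (Fin.snocEquiv (fun _ : Fin (n + 1) => Fin N)) (k, κ)
        (Fin.castSucc i) = κ i := by
      intro i
      simp [Fin.snocEquiv]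
    have hsl : (Fin.snocEquiv (fun _ : Fin (n + 1) => Fin N)) (k, κ) (Fin.last n) = k := by
      simp [Fin.snocEquiv]
    rw [Fin.prod_univ_castSucc (f := fun i : Fin (n + 1) =>
      w i ((Fin.snocEquiv (fun _ : Fin (n + 1) => Fin N)) (k, κ) i))]
    rw [Fin.prod_univ_castSucc (f := fun b : Fin (n + 1) => ∏ a : Fin (n + 1),
      ew m q ((Fin.snocEquiv (fun _ : Fin (n + 1) => Fin N)) (k, κ)) a b)]
    simp only [hsl, hsn, Fin.val_castSucc, Fin.val_last]
    have h1 : ∀ b : Fin n, (∏ a : Fin (n + 1),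
        ew m q ((Fin.snocEquiv (fun _ : Fin (n + 1) => Fin N)) (k, κ)) a (Fin.castSucc b)) =
        ∏ a : Fin n, ew m q κ a b := by
      intro b
      rw [Fin.prod_univ_castSucc]
      have h2 : ew m q ((Fin.snocEquiv (fun _ : Fin (n + 1) => Fin N)) (k, κ)) (Fin.last n)
          (Fin.castSucc b) = 1 := by
        unfold ew
        rw [if_neg]
        rintro ⟨h3, _⟩
        have h4 : (Fin.castSucc b) < Fin.last n := Fin.castSucc_lt_last b
        exact absurd h3 (not_lt.mpr h4.le)
      rw [h2, mul_one]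
      refine Finset.prod_congr rfl fun a _ => ?_
      unfold ew
      rw [hsn, hsn]
      simp only [Fin.castSucc_lt_castSucc_iff, Fin.val_castSucc]
    have h5 : (∏ a : Fin (n + 1),
        ew m q ((Fin.snocEquiv (fun _ : Fin (n + 1) => Fin N)) (k, κ)) a (Fin.last n)) =
        ∏ a : Fin n, pw m q n k a (κ a) := by
      rw [Fin.prod_univ_castSucc]
      have h6 : ew m q ((Fin.snocEquiv (fun _ : Fin (n + 1) => Fin N)) (k, κ)) (Fin.last n)
          (Fin.last n) = 1 := by
        unfold ew
        rw [if_neg]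
        rintro ⟨h3, _⟩
        exact lt_irrefl _ h3
      rw [h6, mul_one]
      refine Finset.prod_congr rfl fun a _ => ?_
      unfold ew pw
      rw [hsn, hsl]
      have h7 : ¬ (n < (a : ℕ) ∧ (a : ℕ) ≤ m n) := by
        have := a.2
        omega
      rw [if_neg h7]
      simp only [Fin.val_castSucc, Fin.val_last]
      have h8 : (Fin.castSucc a < Fin.last n) ↔ (a : ℕ) < n := by
        rw [Fin.lt_def]
        simp
      by_cases h9 : (a : ℕ) < n ∧ n ≤ m a
      · rw [if_pos (⟨h8.mpr h9.1, h9.2⟩ : Fin.castSucc a < Fin.last n ∧ n ≤ m (a : ℕ)),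
          if_pos h9]
        by_cases h10 : κ a = k
        · rw [if_pos h10, if_pos h10.symm]
        · have h10' : ¬ (k = κ a) := fun h => h10 h.symm
          rw [if_neg h10, if_neg h10']
      · rw [if_neg h9, if_neg]
        rintro ⟨h11, h12⟩
        exact h9 ⟨h8.mp h11, h12⟩
    simp only [h1, h5, Finset.prod_mul_distrib]
    ring

end FunAux

theorem t_FUN : S_FUN := by
  intro R _ N n m q w
  rw [FunAux.main m q n w]
  refine Finset.sum_congr rfl fun κ _ => ?_
  rw [FunAux.filter_prod]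

end Pool.Agent.SWC
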