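import Pool.Agent.Lib.MP_263316_co.Spec

/-!
MP_263316_co: the telescoping sum.
-/

set_option autoImplicit false

namespace Pool.Agent.SWC

open Finset

private theorem gf_ZS0 {R : Type} [CommRing R] {N : ℕ} (m : ℕ → ℕ) (q : R) (x : Fin N → R)
    (μ : ℕ → Fin N → R) (U S : Finset ℕ) :
    ZS m q x μ U S 0 = q ^ ea m U S * Z m q (U \ S) (fun v k => x k * μ v k) := by
  have h := Z_scale m q (U \ S) (fun v => q ^ aL m S v) (fun v k => x k * μ v k)
  rw [Finset.prod_pow_eq_pow_sum] at h
  unfold ZS ea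
  rw [mul_comm (q ^ _), ← h]
  simp

private theorem gf_ZSN {R : Type} [CommRing R] {N : ℕ} (m : ℕ → ℕ) (q : R) (x : Fin N → R)
    (μ : ℕ → Fin N → R) (U S : Finset ℕ) :
    ZS m q x μ U S N = q ^ eb m U S * Z m q (U \ S) (fun v k => x k * μ v k) := by
  have h := Z_scale m q (U \ S) (fun v => q ^ aR m S v) (fun v k => x k * μ v k)
  rw [Finset.prod_pow_eq_pow_sum] at h
  unfold ZS eb
  rw [mul_comm (q ^ _), ← h]
  refine Z_congr fun v _ k => ?_
  rw [if_neg (by have := k.2; omega)]

private theorem gf_EE {R : Type} [CommRing R] {N : ℕ} (q z : R) (x : Fin N → R) (i : Fin N) :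
    (1 + z * x i) * GG q z x i = EE q z x i := by
  unfold GG EE
  rw [← Finset.mul_prod_erase univ (fun k : Fin N =>
    1 + (if (k : ℕ) < (i : ℕ) then q * z * x k else z * x k)) (Finset.mem_univ i)]
  rw [if_neg (lt_irrefl _)]
  congr 1

private theorem gf_EE1 {R : Type} [CommRing R] {N : ℕ} (q z : R) (x : Fin N → R) (i : Fin N) :
    (1 + q * z * x i) * GG q z x i = EE q z x ((i : ℕ) + 1) := by
  unfold GG EE
  rw [← Finset.mul_prod_erase univ (fun k : Fin N =>
    1 + (if (k : ℕ) < (i : ℕ) + 1 then q * z * x k else z * x k)) (Finset.mem_univ i)]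
  rw [if_pos (Nat.lt_succ_self _)]
  congr 1
  refine Finset.prod_congr rfl fun k hk => ?_
  have hki : k ≠ i := Finset.ne_of_mem_erase hk
  have : (k < i) ↔ (k : ℕ) < (i : ℕ) + 1 := by
    rw [Fin.lt_def]
    constructor
    · intro h; omega
    · intro h
      have : (k : ℕ) ≠ i := fun h => hki (Fin.ext h)
      omega
  by_cases h : k < i
  · rw [if_pos h, if_pos (this.1 h)]
  · rw [if_neg h, if_neg (fun h' => h (this.2 h'))]

/-- TASK GF -/
theorem t_GF (hstep : S_STEP) : S_GF := by
  intro R _ _ N m hm q z x hz U s t hs ht hst hU j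
  set T0 : ℕ → R := fun i => ∑ S ∈ PW0 U s t, Pi m q s S * z ^ (U.card - S.card) *
    ZS m q x (mu t j) U S i with hT0
  set T1 : ℕ → R := fun i => ∑ S ∈ PW1 U s t, Pi m q s S * z ^ (U.card - S.card) *
    ZS m q x (fun _ _ => 1) U S i with hT1
  have hst1 := fun i : Fin N => hstep R N m hm q z x U s t hs ht hst hU i j
  have hT1c : ∀ i, i ≤ N → T1 i = T1 0 := by
    intro i
    induction i with
    | zero => intro _; rfl
    | succ i ih =>
      intro hi
      rw [← ih (by omega)]
      exact (mul_left_cancel₀ (hz ⟨i, hi⟩) (hst1 ⟨i, hi⟩).2).symm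
  have e0 : T0 0 = ∑ S ∈ PW0 U s t, Pi m q s S * z ^ (U.card - S.card) *
      (q ^ ea m U S * FF m q x (U \ S) t j) := by
    refine Finset.sum_congr rfl fun S _ => ?_
    rw [gf_ZS0]
    rfl
  have eN : T0 N = ∑ S ∈ PW0 U s t, Pi m q s S * z ^ (U.card - S.card) *
      (q ^ eb m U S * FF m q x (U \ S) t j) := by
    refine Finset.sum_congr rfl fun S _ => ?_
    rw [gf_ZSN]
    rfl
  have f0 : T1 0 = ∑ S ∈ PW1 U s t, Pi m q s S * z ^ (U.card - S.card) *
      (q ^ ea m U S * XX m q x (U \ S)) := by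
    refine Finset.sum_congr rfl fun S _ => ?_
    rw [gf_ZS0]
    simp only [mul_one]
    rfl
  have fN : T1 N = ∑ S ∈ PW1 U s t, Pi m q s S * z ^ (U.card - S.card) *
      (q ^ eb m U S * XX m q x (U \ S)) := by
    refine Finset.sum_congr rfl fun S _ => ?_
    rw [gf_ZSN]
    simp only [mul_one]
    rfl
  rw [← e0, ← eN, ← f0, ← fN]
  refine ⟨?_, (hT1c N (le_refl _)).symm⟩
  have tele : ∑ i : Fin N, (EE q z x i * T0 i - EE q z x ((i : ℕ) + 1) * T0 ((i : ℕ) + 1)) =
      EE q z x 0 * T0 0 - EE q z x N * T0 N := by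
    rw [Fin.sum_univ_eq_sum_range
      (fun i => EE q z x i * T0 i - EE q z x (i + 1) * T0 (i + 1)) N]
    exact Finset.sum_range_sub' (fun i => EE q z x i * T0 i) N
  rw [← tele]
  have hterm : ∀ i : Fin N, EE q z x i * T0 i - EE q z x ((i : ℕ) + 1) * T0 ((i : ℕ) + 1) =
      (1 - q) * (z ^ U.card * (GG q z x i * KK m q x U s t i j) -
        (if i = j then z * x j * GG q z x j * T1 0 else 0)) := by
    intro i
    have h := (hst1 i).1
    rw [← gf_EE, ← gf_EE1]
    have h2 : (1 + z * x i) * T0 i - (1 + q * z * x i) * T0 ((i : ℕ) + 1) =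
        (1 - q) * (z ^ U.card * KK m q x U s t i j - (if i = j then z * x j *
          T1 ((i : ℕ) + 1) else 0)) := h
    rw [hT1c _ (by have := i.2; omega)] at h2
    have h3 := congrArg (fun a => GG q z x i * a) h2
    by_cases hij : i = j
    · subst hij
      simp only [if_true] at h3 ⊢
      linear_combination h3
    · simp only [if_neg hij] at h3 ⊢
      linear_combination h3
  rw [Finset.sum_congr rfl (fun i _ => hterm i), ← Finset.mul_sum, Finset.sum_sub_distrib,
    ← Finset.mul_sum, Finset.sum_ite_eq' univ j]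
  simp

end Pool.Agent.SWC
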