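import Pool.Agent.Lib.MP_263316_co.Spec

/-!
MP_263316_co: q-binomial coefficients.
-/

set_option autoImplicit false

namespace Pool.Agent.SWC

open Finset

namespace KBaux

theorem qn_add {R : Type} [CommRing R] (q : R) (a b : ℕ) :
    qn q (a + b) = qn q a + q ^ a * qn q b := by
  unfold qn
  rw [Finset.sum_range_add, Finset.mul_sum]
  congr 1
  exact Finset.sum_congr rfl fun i _ => pow_add q a i

theorem qf_succ {R : Type} [CommRing R] (q : R) (n : ℕ) : qf q (n + 1) = qf q n * qn q (n + 1) := by
  unfold qf
  rw [Finset.prod_range_succ]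

theorem qf_zero {R : Type} [CommRing R] (q : R) : qf q 0 = 1 := rfl

/-- the two sums -/
def g {R : Type} [CommRing R] (q : R) (W : Finset ℕ) (r : ℕ) : R :=
  ∑ S ∈ powersetCard r W, q ^ (∑ w ∈ W \ S, (S.filter (fun u => u < w)).card)

def g' {R : Type} [CommRing R] (q : R) (W : Finset ℕ) (r : ℕ) : R :=
  ∑ S ∈ powersetCard r W, q ^ (∑ w ∈ W \ S, (S.filter (fun u => w < u)).card)

theorem sum_insert_card {R : Type} [CommRing R] {W : Finset ℕ} {v : ℕ} (hv : v ∉ W) (r : ℕ)
    (F : Finset ℕ → R) : ∑ S ∈ powersetCard (r + 1) (insert v W), F S =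
      ∑ S ∈ powersetCard (r + 1) W, F S + ∑ S ∈ powersetCard r W, F (insert v S) := by
  rw [Finset.powersetCard_succ_insert hv, Finset.sum_union, Finset.sum_image]
  · intro S hS S' hS' h
    have hS1 : v ∉ S := fun h => hv ((Finset.mem_powersetCard.mp hS).1 h)
    have hS2 : v ∉ S' := fun h => hv ((Finset.mem_powersetCard.mp hS').1 h)
    rw [← Finset.erase_insert hS1, ← Finset.erase_insert hS2]
    exact congrArg (fun A => A.erase v) h
  · rw [Finset.disjoint_left]
    intro S hS hS'
    obtain ⟨T, -, rfl⟩ := Finset.mem_image.mp hS'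
    exact hv ((Finset.mem_powersetCard.mp hS).1 (Finset.mem_insert_self v T))

theorem g_zero {R : Type} [CommRing R] (q : R) (W : Finset ℕ) : g q W 0 = 1 := by
  simp [g]

theorem g'_zero {R : Type} [CommRing R] (q : R) (W : Finset ℕ) : g' q W 0 = 1 := by
  simp [g']

theorem g_big {R : Type} [CommRing R] (q : R) (W : Finset ℕ) {r : ℕ} (h : W.card < r) :
    g q W r = 0 := by
  simp [g, Finset.powersetCard_eq_empty.mpr h]

theorem g'_big {R : Type} [CommRing R] (q : R) (W : Finset ℕ) {r : ℕ} (h : W.card < r) :
    g' q W r = 0 := by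
  simp [g', Finset.powersetCard_eq_empty.mpr h]

theorem sdiff1 {W S : Finset ℕ} {v : ℕ} (hv : v ∉ W) :
    (insert v W) \ (insert v S) = W \ S := by
  ext w
  simp only [Finset.mem_sdiff, Finset.mem_insert]
  constructor
  · rintro ⟨rfl | h, h'⟩
    · exact absurd (Or.inl rfl) h'
    · exact ⟨h, fun h'' => h' (Or.inr h'')⟩
  · rintro ⟨h, h'⟩
    refine ⟨Or.inr h, ?_⟩
    rintro (rfl | h'')
    · exact hv h
    · exact h' h''

theorem sdiff2 {W S : Finset ℕ} {v : ℕ} (hv : v ∉ W) (hS : S ⊆ W) :
    (insert v W) \ S = insert v (W \ S) :=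
  Finset.insert_sdiff_of_notMem _ (fun h => hv (hS h))

theorem g_succ {R : Type} [CommRing R] (q : R) {W : Finset ℕ} {v : ℕ} (hv : ∀ w ∈ W, w < v)
    (r : ℕ) : g q (insert v W) (r + 1) = g q W r + q ^ (r + 1) * g q W (r + 1) := by
  have hvW : v ∉ W := fun h => lt_irrefl v (hv v h)
  unfold g
  rw [sum_insert_card hvW, add_comm, Finset.mul_sum]
  congr 1
  · refine Finset.sum_congr rfl fun S hS => ?_
    have hSW := (Finset.mem_powersetCard.mp hS).1
    rw [sdiff1 hvW]
    congr 1
    refine Finset.sum_congr rfl fun w hw => ?_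
    have hwv := hv w (Finset.mem_sdiff.mp hw).1
    rw [Finset.filter_insert, if_neg (by omega)]
  · refine Finset.sum_congr rfl fun S hS => ?_
    obtain ⟨hSW, hc⟩ := Finset.mem_powersetCard.mp hS
    rw [sdiff2 hvW hSW, Finset.sum_insert (fun h => hvW (Finset.mem_sdiff.mp h).1), pow_add]
    congr 2
    rw [Finset.filter_true_of_mem (fun u hu => hv u (hSW hu)), hc]

theorem g'_succ {R : Type} [CommRing R] (q : R) {W : Finset ℕ} {v : ℕ} (hv : ∀ w ∈ W, w < v)
    (r : ℕ) : g' q (insert v W) (r + 1) = q ^ (W.card - r) * g' q W r + g' q W (r + 1) := by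
  have hvW : v ∉ W := fun h => lt_irrefl v (hv v h)
  unfold g'
  rw [sum_insert_card hvW, add_comm, Finset.mul_sum]
  congr 1
  · refine Finset.sum_congr rfl fun S hS => ?_
    obtain ⟨hSW, hc⟩ := Finset.mem_powersetCard.mp hS
    rw [sdiff1 hvW, ← pow_add]
    congr 1
    have h1 : ∀ w ∈ W \ S, ((insert v S).filter (fun u => w < u)).card =
        1 + (S.filter (fun u => w < u)).card := by
      intro w hw
      have hwv := hv w (Finset.mem_sdiff.mp hw).1
      rw [Finset.filter_insert, if_pos hwv, Finset.card_insert_of_notMem, add_comm]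
      intro h
      exact hvW (hSW (Finset.mem_filter.mp h).1)
    rw [Finset.sum_congr rfl h1, Finset.sum_add_distrib, Finset.sum_const, smul_eq_mul, mul_one,
      Finset.card_sdiff_of_subset hSW, hc]
  · refine Finset.sum_congr rfl fun S hS => ?_
    obtain ⟨hSW, hc⟩ := Finset.mem_powersetCard.mp hS
    rw [sdiff2 hvW hSW, Finset.sum_insert (fun h => hvW (Finset.mem_sdiff.mp h).1)]
    have h1 : (S.filter (fun u => v < u)) = ∅ := by
      refine Finset.filter_false_of_mem fun u hu h => ?_
      have := hv u (hSW hu)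
      omega
    rw [h1, Finset.card_empty, zero_add]

theorem main {R : Type} [CommRing R] (q : R) (W : Finset ℕ) : ∀ r ≤ W.card,
    qf q r * qf q (W.card - r) * g q W r = qf q W.card ∧
      qf q r * qf q (W.card - r) * g' q W r = qf q W.card := by
  induction W using Finset.induction_on_max with
  | empty =>
    intro r hr
    have : r = 0 := by simpa using hr
    subst this
    rw [g_zero, g'_zero]
    simp [qf_zero]
  | insert v W hv ih =>
    have hvW : v ∉ W := fun h => lt_irrefl v (hv v h)
    intro r hr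
    rw [Finset.card_insert_of_notMem hvW] at hr ⊢
    obtain _ | r := r
    · rw [g_zero, g'_zero, qf_zero]
      simp
    · have hrn : r ≤ W.card := by omega
      obtain ⟨h1, h2⟩ := ih r hrn
      rw [g_succ q hv, g'_succ q hv, Nat.add_sub_add_right]
      rcases Nat.lt_or_ge r W.card with hlt | hge
      · obtain ⟨h3, h4⟩ := ih (r + 1) hlt
        obtain ⟨k, hk⟩ : ∃ k, W.card = r + 1 + k := ⟨W.card - (r + 1), by omega⟩
        have e1 : W.card - r = k + 1 := by omega
        have e2 : W.card - (r + 1) = k := by omega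
        rw [e1] at h1 h2 ⊢
        rw [e2] at h3 h4
        have e3 : qn q (W.card + 1) = qn q (r + 1) + q ^ (r + 1) * qn q (k + 1) := by
          rw [← qn_add]
          congr 1
          omega
        have e4 : qn q (W.card + 1) = qn q (k + 1) + q ^ (k + 1) * qn q (r + 1) := by
          rw [← qn_add]
          congr 1
          omega
        rw [qf_succ q W.card]
        rw [qf_succ q r] at h3 h4 ⊢
        rw [qf_succ q k] at h1 h2 ⊢
        constructor
        · rw [e3]
          linear_combination qn q (r + 1) * h1 + q ^ (r + 1) * qn q (k + 1) * h3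
        · rw [e4]
          linear_combination q ^ (k + 1) * qn q (r + 1) * h2 + qn q (k + 1) * h4
      · have e1 : r = W.card := le_antisymm hrn hge
        rw [g_big q W (by omega : W.card < r + 1), g'_big q W (by omega : W.card < r + 1), mul_zero,
          add_zero, add_zero, ← e1, qf_succ q r]
        rw [← e1] at h1 h2
        rw [Nat.sub_self] at h1 h2 ⊢
        rw [pow_zero, one_mul]
        constructor
        · linear_combination qn q (r + 1) * h1
        · linear_combination qn q (r + 1) * h2

end KBaux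

theorem t_KB : S_KB := by
  intro R _ q W r hr
  exact KBaux.main q W r hr

end Pool.Agent.SWC
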