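import Pool.Agent.Lib.MP_263316_co.Spec

/-!
MP_263316_co, task KF: cliques with a mark.
-/

set_option autoImplicit false

namespace Pool.Agent.SWC

open Finset

namespace KFAux

variable {R : Type} [CommRing R] {N : ℕ}

/-- the weights after the choice of the colour `j` of the largest vertex -/
def yj (q : R) (x : Fin N → R) (j k : Fin N) : R :=
  x k * (if j = k then 0 else if k < j then q else 1)

theorem es_yj (q : R) (x : Fin N → R) (j : Fin N) (c : ℕ) :
    x j * es (yj q x j) c = eh q x c j := by
  unfold es eh
  congr 1
  have hsub : powersetCard c (univ.erase j) ⊆ powersetCard c (univ : Finset (Fin N)) :=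
    powersetCard_mono (Finset.erase_subset _ _)
  rw [← Finset.sum_subset hsub]
  · refine Finset.sum_congr rfl fun C hC => Finset.prod_congr rfl fun k hk => ?_
    have hkj : k ≠ j := Finset.ne_of_mem_erase ((mem_powersetCard.1 hC).1 hk)
    unfold yj
    rw [if_neg (Ne.symm hkj)]
    split_ifs
    · ring
    · ring
  · intro C hC hC'
    have hk : j ∈ C := by
      by_contra hk
      apply hC'
      rw [mem_powersetCard] at hC ⊢
      refine ⟨fun i hi => ?_, hC.2⟩
      rw [Finset.mem_erase]
      refine ⟨?_, Finset.mem_univ i⟩
      rintro rfl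
      exact hk hi
    refine Finset.prod_eq_zero hk ?_
    unfold yj
    rw [if_pos rfl, mul_zero]

end KFAux

open KFAux

theorem t_KF (hZK : S_ZK) : S_KF := by
  intro R _ N m q x W hW
  refine ⟨hZK R N m q W hW x, ?_⟩
  intro t ht hmax j
  unfold FF
  rw [Z_erase ht, Finset.sum_eq_single j]
  · have hcl : Clq m (W.erase t) := fun u hu v hv huv =>
      hW u (Finset.mem_of_mem_erase hu) v (Finset.mem_of_mem_erase hv) huv
    have h1 : Z m q (W.erase t) (fun u k' => x k' * (if u = t then (if k' = j then 1 else 0)
        else 1) * pw m q t j u k') = Z m q (W.erase t) (fun _ k => yj q x j k) := by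
      refine Z_congr fun u hu k => ?_
      have hut : u ≠ t := Finset.ne_of_mem_erase hu
      have huW : u ∈ W := Finset.mem_of_mem_erase hu
      have hlt : u < t := lt_of_le_of_ne (hmax u huW) hut
      rw [if_neg hut, pw_gt hlt (hW u huW t ht hlt)]
      unfold yj
      ring
    rw [h1, hZK R N m q (W.erase t) hcl (yj q x j), Finset.card_erase_of_mem ht, ← es_yj]
    simp only [if_true]
    ring
  · intro k _ hk
    simp [hk]
  · intro h
    exact absurd (Finset.mem_univ j) h

end Pool.Agent.SWC
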