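import Pool.Agent.Lib.MP_263316_co.Spec

/-!
# MP_263316_co: KM, cliques: membership in the cone (helper50)
-/

set_option autoImplicit false

namespace Pool.Agent.SWC

open Finset

namespace KMaux

theorem qn_C (N k : ℕ) : qn (qq N) k = MvPolynomial.C (qn (Polynomial.X : Polynomial ℤ) k) := by
  unfold qn qq
  rw [map_sum]
  exact Finset.sum_congr rfl fun i _ => (map_pow _ _ _).symm

theorem qf_C (N k : ℕ) : qf (qq N) k = MvPolynomial.C (qf (Polynomial.X : Polynomial ℤ) k) := by
  unfold qf
  rw [map_prod]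
  exact Finset.prod_congr rfl fun i _ => qn_C N (i + 1)

theorem gen_mem {d i k : ℕ} (h : 2 * i + k = d + 1) :
    (Polynomial.X : Polynomial ℤ) ^ i * qn (Polynomial.X : Polynomial ℤ) k ∈ PU d :=
  AddSubmonoid.subset_closure ⟨i, k, h, rfl⟩

theorem one_mem : (1 : Polynomial ℤ) ∈ PU 0 := by
  have h := gen_mem (d := 0) (i := 0) (k := 1) rfl
  simpa [qn] using h

theorem qf_mem (hmul : S_PUmul) (k : ℕ) :
    qf (Polynomial.X : Polynomial ℤ) k ∈ PU (∑ i ∈ range k, i) := by
  induction k with
  | zero => simpa [qf] using one_mem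
  | succ k ih =>
    unfold qf at ih ⊢
    rw [Finset.prod_range_succ, Finset.sum_range_succ]
    refine hmul _ _ _ _ ih ?_
    have h := gen_mem (d := k) (i := 0) (k := k + 1) (by omega)
    rwa [pow_zero, one_mul] at h

theorem es_mem {N n d : ℕ} {p : Polynomial ℤ} (hp : p ∈ PU d) :
    (MvPolynomial.C p : AN N) * es (xx N) n ∈ Cone N n d := by
  refine AddSubmonoid.subset_closure ⟨{n}, p, by simp, hp, ?_⟩
  simp

theorem gen_MCone {N n d n' d' c : ℕ} {u : AN N} (hu : u ∈ Cone N n' d') (h1 : n' + c + 1 = n)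
    (h2 : d' + c = d) : (fun j => u * eh (qq N) (xx N) c j) ∈ MCone N n d :=
  AddSubmonoid.subset_closure ⟨n', d', c, u, hu, h1, h2, rfl⟩

/-- number of edges of a clique -/
theorem eE_clq (m : ℕ → ℕ) (U : Finset ℕ) : Clq m U → eE m U = ∑ i ∈ range U.card, i := by
  induction U using Finset.induction_on_max with
  | empty => intro _; simp [eE]
  | insert a U ha ih =>
    intro hc
    have haU : a ∉ U := fun h => lt_irrefl a (ha a h)
    have hcU : Clq m U := fun u hu v hv huv =>
      hc u (mem_insert_of_mem hu) v (mem_insert_of_mem hv) huv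
    have h1 : ∀ v ∈ U, aL m (insert a U) v = aL m U v := by
      intro v hv
      unfold aL
      congr 1
      ext u
      simp only [mem_filter, mem_insert]
      constructor
      · rintro ⟨rfl | hu, h⟩
        · have := ha v hv
          omega
        · exact ⟨hu, h⟩
      · rintro ⟨hu, h⟩
        exact ⟨Or.inr hu, h⟩
    have h2 : aL m (insert a U) a = U.card := by
      unfold aL
      congr 1
      ext u
      simp only [mem_filter, mem_insert]
      constructor
      · rintro ⟨rfl | hu, h⟩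
        · omega
        · exact hu
      · intro hu
        exact ⟨Or.inr hu, ha u hu, hc u (mem_insert_of_mem hu) a (mem_insert_self a U) (ha u hu)⟩
    unfold eE at ih ⊢
    rw [sum_insert haU, h2, card_insert_of_notMem haU, sum_range_succ,
      Finset.sum_congr rfl h1, ih hcU, add_comm]

theorem qq_ne_one (N : ℕ) : qq N ≠ 1 := by
  intro h
  unfold qq at h
  rw [← map_one (MvPolynomial.C : Polynomial ℤ →+* AN N)] at h
  have h1 := MvPolynomial.C_injective (Fin N) (Polynomial ℤ) h
  exact Polynomial.X_ne_C (1 : ℤ) (by rw [h1, map_one])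

end KMaux

open KMaux in
theorem KMaux.fn_eq (hKT : S_KT) (N : ℕ) (m : ℕ → ℕ) (hm : Monotone m) (U : Finset ℕ) (s t : ℕ)
    (hs : s ∈ U) (ht : t ∈ U) (hst : s < t) (hU : ∀ u ∈ U, s ≤ u ∧ u ≤ t) (hclq : Clq m U)
    (c k : ℕ) (hk : U.card = k + 2) : TT m (qq N) (xx N) U s t (eh (qq N) (xx N) c) =
      (∑ i ∈ range (min (k + 1) (c + 1)), fun j =>
        (MvPolynomial.C (qf (Polynomial.X : Polynomial ℤ) k *
          (Polynomial.X ^ i * qn (Polynomial.X : Polynomial ℤ) (k + 1 - i))) * es (xx N) i) *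
            eh (qq N) (xx N) (c + (k + 1) - i) j) +
      ∑ i ∈ range (min (k + 1) c), fun j =>
        (MvPolynomial.C (qf (Polynomial.X : Polynomial ℤ) k *
          (Polynomial.X ^ (k + 1) * qn (Polynomial.X : Polynomial ℤ) (c - i))) *
            es (xx N) (c + (k + 1) - i)) * eh (qq N) (xx N) i j := by
  funext j
  have h1 := hKT (AN N) N m hm (qq N) (qq_ne_one N) (xx N) U s t (k + 1) hs ht hst hU hclq hk c j
  rw [Nat.add_sub_cancel, qf_C] at h1
  refine h1.trans ?_
  rw [Pi.add_apply, Finset.sum_apply, Finset.sum_apply, mul_add, Finset.mul_sum, Finset.mul_sum]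
  refine congrArg₂ (· + ·) (Finset.sum_congr rfl fun i _ => ?_)
    (Finset.sum_congr rfl fun i _ => ?_)
  · rw [qn_C, map_mul, map_mul, map_pow]
    have h2 : (MvPolynomial.C Polynomial.X : AN N) = qq N := rfl
    rw [h2]
    ring
  · rw [qn_C, map_mul, map_mul, map_pow]
    have h2 : (MvPolynomial.C Polynomial.X : AN N) = qq N := rfl
    rw [h2]
    ring

open KMaux in
/-- TASK KM. -/
theorem t_KM (hKT : S_KT) (hmul : S_PUmul) : S_KM := by
  intro N m hm U s t hs ht hst hU hclq c
  obtain ⟨k, hk⟩ : ∃ k, U.card = k + 2 := by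
    have h1 : 1 < U.card := Finset.one_lt_card.2 ⟨s, hs, t, ht, hst.ne⟩
    exact ⟨U.card - 2, by omega⟩
  rw [fn_eq hKT N m hm U s t hs ht hst hU hclq c k hk, eE_clq m U hclq, hk, sum_range_succ,
    sum_range_succ]
  have hq := qf_mem hmul k
  generalize ∑ i ∈ range k, i = g at hq ⊢
  refine add_mem (sum_mem fun i hi => ?_) (sum_mem fun i hi => ?_)
  · have hi1 : i < k + 1 := lt_of_lt_of_le (mem_range.1 hi) (min_le_left _ _)
    have h1 : (Polynomial.X : Polynomial ℤ) ^ i * qn (Polynomial.X : Polynomial ℤ) (k + 1 - i) ∈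
        PU (k + i) := gen_mem (by omega)
    have h2 := es_mem (N := N) (n := i) (hmul g (k + i) _ _ hq h1)
    exact gen_MCone h2 (by omega) (by omega)
  · have hi1 : i < c := lt_of_lt_of_le (mem_range.1 hi) (min_le_right _ _)
    have h1 : (Polynomial.X : Polynomial ℤ) ^ (k + 1) * qn (Polynomial.X : Polynomial ℤ) (c - i) ∈
        PU (2 * (k + 1) + c - i - 1) := gen_mem (by omega)
    have h2 := es_mem (N := N) (n := c + (k + 1) - i)
      (hmul g (2 * (k + 1) + c - i - 1) _ _ hq h1)
    exact gen_MCone h2 (by omega) (by omega)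

end Pool.Agent.SWC
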