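import Pool.Agent.Lib.MP_263316_co.Spec

/-!
MP_263316_co: counting in ladders.
-/

set_option autoImplicit false

namespace Pool.Agent.SWC

open Finset

namespace LCNTaux

theorem count (m : ℕ → ℕ) {U S : Finset ℕ} (hS : S ⊆ U) : ∃ D : ℕ,
    ea m U S + D = ∑ u ∈ S, aR m U u ∧ eb m U S + D = ∑ u ∈ S, aL m U u := by
  refine ⟨∑ v ∈ S, ∑ u ∈ S, (if u < v ∧ v ≤ m u then 1 else 0), ?_, ?_⟩
  · unfold ea aL aR
    simp only [Finset.card_filter]
    rw [Finset.sum_sdiff hS, Finset.sum_comm]
  · unfold eb aL aR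
    simp only [Finset.card_filter]
    rw [Finset.sum_comm (s := S) (t := S), Finset.sum_sdiff hS, Finset.sum_comm]

variable {m : ℕ → ℕ} {U : Finset ℕ} {n : ℕ} {f : ℕ → ℕ}

theorem card_image_filter (hf : StrictMono f) (hU : U = (range n).image f) (P : ℕ → Prop)
    [DecidablePred P] : (U.filter P).card = ((range n).filter (fun j => P (f j))).card := by
  rw [hU, Finset.filter_image, Finset.card_image_of_injective _ hf.injective]

theorem aR_eq (h : Lad m U n f) {i : ℕ} (hi : i < n) : aR m U (f i) = min (i + 3) n - (i + 1) := by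
  obtain ⟨hf, hU, hn, hadj⟩ := h
  unfold aR
  rw [card_image_filter hf hU]
  have : (range n).filter (fun j => f i < f j ∧ f j ≤ m (f i)) = Ico (i + 1) (min (i + 3) n) := by
    ext j
    rw [Finset.mem_filter, Finset.mem_range, Finset.mem_Ico, hf.lt_iff_lt]
    constructor
    · rintro ⟨hj, hij, h⟩
      have := (hadj i j hij hj).mp h
      exact ⟨hij, lt_min (by omega) hj⟩
    · rintro ⟨hij, hj⟩
      have h1 := lt_of_lt_of_le hj (min_le_left _ _)
      have h2 := lt_of_lt_of_le hj (min_le_right _ _)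
      exact ⟨h2, by omega, (hadj i j (by omega) h2).mpr (by omega)⟩
  rw [this, Nat.card_Ico]

theorem aL_eq (h : Lad m U n f) {i : ℕ} (hi : i < n) : aL m U (f i) = i - (i - 2) := by
  obtain ⟨hf, hU, hn, hadj⟩ := h
  unfold aL
  rw [card_image_filter hf hU]
  have : (range n).filter (fun j => f j < f i ∧ f i ≤ m (f j)) = Ico (i - 2) i := by
    ext j
    rw [Finset.mem_filter, Finset.mem_range, Finset.mem_Ico, hf.lt_iff_lt]
    constructor
    · rintro ⟨hj, hij, h⟩
      have := (hadj j i hij hi).mp h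
      exact ⟨by omega, hij⟩
    · rintro ⟨h1, h2⟩
      exact ⟨by omega, h2, (hadj j i h2 hi).mpr (by omega)⟩
  rw [this, Nat.card_Ico]

end LCNTaux

open LCNTaux in
theorem t_LCNT : S_LCNT := by
  intro m U n f h S hS h0
  obtain ⟨D, hD1, hD2⟩ := count m hS
  have hn := h.2.2.1
  have hf := h.1
  have hex : ∀ u ∈ S, ∃ i < n, u = f i := by
    intro u hu
    have := hS hu
    rw [h.2.1, Finset.mem_image] at this
    obtain ⟨i, hi, rfl⟩ := this
    exact ⟨i, Finset.mem_range.mp hi, rfl⟩
  have hsum : ∀ a : ℕ, ∑ u ∈ S, (if u = f a then 1 else 0) = if f a ∈ S then 1 else 0 := by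
    intro a
    rw [Finset.sum_ite_eq']
  constructor
  · intro _
    have h1 : ∑ u ∈ S, aR m U u ≤ ∑ u ∈ S, (aL m U u + 1 + (if u = f 0 then 1 else 0)) := by
      refine Finset.sum_le_sum fun u hu => ?_
      obtain ⟨i, hi, rfl⟩ := hex u hu
      rw [aR_eq h hi, aL_eq h hi]
      simp only [hf.injective.eq_iff]
      split_ifs <;> omega
    rw [Finset.sum_add_distrib, Finset.sum_add_distrib, hsum, if_pos h0, Finset.sum_const,
      smul_eq_mul, mul_one] at h1
    omega
  · intro hlast
    constructor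
    · have h1 : ∑ u ∈ S, (aR m U u + 2 * (if u = f (n - 1) then 1 else 0)) ≤
          ∑ u ∈ S, (aL m U u + 2 * (if u = f 0 then 1 else 0) + (if u = f 1 then 1 else 0)) := by
        refine Finset.sum_le_sum fun u hu => ?_
        obtain ⟨i, hi, rfl⟩ := hex u hu
        rw [aR_eq h hi, aL_eq h hi]
        simp only [hf.injective.eq_iff]
        split_ifs <;> omega
      rw [Finset.sum_add_distrib, Finset.sum_add_distrib, Finset.sum_add_distrib, ← Finset.mul_sum,
        ← Finset.mul_sum, hsum, hsum, hsum, if_pos h0, if_pos hlast] at h1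
      split_ifs at h1 <;> omega
    · have h1 : ∑ u ∈ S, (aL m U u + 2 * (if u = f 0 then 1 else 0)) ≤
          ∑ u ∈ S, (aR m U u + 2 * (if u = f (n - 1) then 1 else 0) +
            (if u = f (n - 2) then 1 else 0)) := by
        refine Finset.sum_le_sum fun u hu => ?_
        obtain ⟨i, hi, rfl⟩ := hex u hu
        rw [aR_eq h hi, aL_eq h hi]
        simp only [hf.injective.eq_iff]
        split_ifs <;> omega
      rw [Finset.sum_add_distrib, Finset.sum_add_distrib, Finset.sum_add_distrib, ← Finset.mul_sum,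
        ← Finset.mul_sum, hsum, hsum, hsum, if_pos h0, if_pos hlast] at h1
      split_ifs at h1 <;> omega

end Pool.Agent.SWC
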