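import Pool.Agent.Lib.MP_263316_co.Spec

/-!
# MP_263316_co, LF: the ladder formula
-/

set_option autoImplicit false

namespace Pool.Agent.SWC

open Finset

namespace LFx

variable {R : Type} [CommRing R] {N : ℕ}

theorem ww_zero (m : ℕ → ℕ) (q : R) (x : Fin N → R) (V : Finset ℕ) (v1 v2 t : ℕ) (j : Fin N) :
    WW m q x V v1 v2 t 0 j = FF m q x V t j := by
  unfold WW FF
  rw [powersetCard_zero, sum_singleton, prod_empty, one_mul]
  refine Z_congr fun v _ κ => ?_
  simp [mu]

theorem erase_image {f : ℕ → ℕ} (hf : StrictMono f) {i n : ℕ} (_ : i < n) :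
    ((Ico i n).image f).erase (f i) = (Ico (i + 1) n).image f := by
  ext u
  simp only [mem_erase, mem_image, mem_Ico]
  constructor
  · rintro ⟨hu, l, ⟨h1, h2⟩, rfl⟩
    refine ⟨l, ⟨?_, h2⟩, rfl⟩
    have : l ≠ i := fun h => hu (by rw [h])
    omega
  · rintro ⟨l, ⟨h1, h2⟩, rfl⟩
    refine ⟨fun h => ?_, l, ⟨by omega, h2⟩, rfl⟩
    have := hf.injective h
    omega

end LFx

open LFx

theorem t_LF : S_W1 → S_W0 → S_LF := by
  intro hW1 hW0 R _ N m q x U n f hL j
  obtain ⟨hf, hU, hn, hadj⟩ := hL
  have key : ∀ i, i ≤ n - 2 → FF m q x U (f (n - 1)) j = (∑ i' ∈ range i, q * qn q i' *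
      TT m q x ((Ico (i' + 1) n).image f) (f (i' + 1)) (f (n - 1)) (eh q x (i' + 1)) j) +
      WW m q x ((Ico i n).image f) (f i) (f (i + 1)) (f (n - 1)) i j := by
    intro i
    induction i with
    | zero =>
      intro _
      rw [range_zero, sum_empty, zero_add, ww_zero, hU, range_eq_Ico]
    | succ i ih =>
      intro hi
      have hmem : ∀ l, i ≤ l → l < n → f l ∈ (Ico i n).image f := fun l h1 h2 =>
        mem_image_of_mem f (mem_Ico.2 ⟨h1, h2⟩)
      have h1 := hW1 R N m q x ((Ico i n).image f) (f i) (f (i + 1)) (f (i + 2)) (f (n - 1)) i j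
        (hmem _ le_rfl (by omega)) (hmem _ (by omega) (by omega)) (hmem _ (by omega) (by omega))
        (hmem _ (by omega) (by omega)) (hf (by omega)) (hf (by omega))
        ((hadj i (i + 2) (by omega) (by omega)).2 le_rfl) (by
          intro u hu hu1 hu2 hu3
          obtain ⟨l, hl, rfl⟩ := mem_image.1 hu
          rw [mem_Ico] at hl
          have e1 : l ≠ i := fun h => hu1 (by rw [h])
          have e2 : l ≠ i + 1 := fun h => hu2 (by rw [h])
          have e3 : l ≠ i + 2 := fun h => hu3 (by rw [h])
          refine ⟨hf (by omega), ?_⟩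
          by_contra h
          have := (hadj i l (by omega) hl.2).1 (by omega)
          omega)
        (fun h => by have := hf.injective h; omega) (fun h => by have := hf.injective h; omega)
      rw [erase_image hf (by omega)] at h1
      rw [ih (by omega), h1, sum_range_succ]
      ring
  rw [key (n - 2) le_rfl]
  congr 1
  have e1 : n - 2 + 1 = n - 1 := by omega
  have e2 : (Ico (n - 2) n).image f = {f (n - 2), f (n - 1)} := by
    have : Ico (n - 2) n = {n - 2, n - 1} := by
      ext l
      simp only [mem_Ico, mem_insert, mem_singleton]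
      omega
    rw [this, image_insert, image_singleton]
  rw [e1, e2, hW0 R N m q x (f (n - 2)) (f (n - 1)) (n - 2) j (hf (by omega))
    ((hadj (n - 2) (n - 1) (by omega) (by omega)).2 (by omega)), e1]

end Pool.Agent.SWC
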