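import Pool.Agent.Lib.MP_263316_co.Spec

/-!
# MP_263316_co: LM0, ladders, `c = 0`: membership in the cone (helper50)
-/

set_option autoImplicit false

namespace Pool.Agent.SWC

open Finset

namespace LM0aux

theorem qn_C (N k : ℕ) : qn (qq N) k = MvPolynomial.C (qn (Polynomial.X : Polynomial ℤ) k) := by
  unfold qn qq
  rw [map_sum]
  exact Finset.sum_congr rfl fun i _ => (map_pow _ _ _).symm

theorem gen_mem {d i k : ℕ} (h : 2 * i + k = d + 1) :
    (Polynomial.X : Polynomial ℤ) ^ i * qn (Polynomial.X : Polynomial ℤ) k ∈ PU d :=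
  AddSubmonoid.subset_closure ⟨i, k, h, rfl⟩

theorem C_mem {N d : ℕ} {p : Polynomial ℤ} (hp : p ∈ PU d) :
    (MvPolynomial.C p : AN N) ∈ Cone N 0 d := by
  refine AddSubmonoid.subset_closure ⟨0, p, by simp, hp, ?_⟩
  simp

theorem gen_MCone {N n d n' d' c : ℕ} {u : AN N} (hu : u ∈ Cone N n' d') (h1 : n' + c + 1 = n)
    (h2 : d' + c = d) : (fun j => u * eh (qq N) (xx N) c j) ∈ MCone N n d :=
  AddSubmonoid.subset_closure ⟨n', d', c, u, hu, h1, h2, rfl⟩

/-- left degrees in a ladder -/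
theorem aL_lad {m : ℕ → ℕ} {U : Finset ℕ} {n : ℕ} {f : ℕ → ℕ} (h : Lad m U n f) {i l : ℕ}
    (hil : i ≤ l) (hl : l < n) : aL m ((Ico i n).image f) (f l) = min 2 (l - i) := by
  obtain ⟨hf, -, -, hadj⟩ := h
  have h1 : ((Ico i n).image f).filter (fun u => u < f l ∧ f l ≤ m u) =
      (Ico (max i (l - 2)) l).image f := by
    ext u
    simp only [mem_filter, mem_image, mem_Ico]
    constructor
    · rintro ⟨⟨k, hk, rfl⟩, h2, h3⟩
      have h4 : k < l := hf.lt_iff_lt.1 h2
      have h5 := (hadj k l h4 hl).1 h3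
      exact ⟨k, ⟨by omega, h4⟩, rfl⟩
    · rintro ⟨k, hk, rfl⟩
      have h4 : i ≤ k ∧ l - 2 ≤ k := by omega
      exact ⟨⟨k, ⟨h4.1, by omega⟩, rfl⟩, hf hk.2, (hadj k l hk.2 hl).2 (by omega)⟩
  unfold aL
  rw [h1, card_image_of_injective _ hf.injective, Nat.card_Ico]
  omega

theorem sum_min (r : ℕ) : ∑ i ∈ range (r + 2), min 2 i = 2 * r + 1 := by
  induction r with
  | zero => decide
  | succ r ih =>
    rw [sum_range_succ, ih]
    omega

/-- number of edges of a ladder -/
theorem eE_lad {m : ℕ → ℕ} {U : Finset ℕ} {n : ℕ} {f : ℕ → ℕ} (h : Lad m U n f) {i : ℕ}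
    (hi : i + 2 ≤ n) : eE m ((Ico i n).image f) = 2 * (n - i) - 3 := by
  obtain ⟨r, rfl⟩ : ∃ r, n = i + (r + 2) := ⟨n - i - 2, by omega⟩
  unfold eE
  rw [sum_image (fun a _ b _ hab => h.1.injective hab)]
  have h1 : ∀ l ∈ Ico i (i + (r + 2)), aL m ((Ico i (i + (r + 2))).image f) (f l) =
      min 2 (l - i) := fun l hl => aL_lad h (mem_Ico.1 hl).1 (mem_Ico.1 hl).2
  rw [Finset.sum_congr rfl h1, Finset.sum_Ico_eq_sum_range]
  have h2 : i + (r + 2) - i = r + 2 := by omega
  rw [h2]
  have h3 : ∀ k ∈ range (r + 2), min 2 (i + k - i) = min 2 k := fun k _ => by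
    rw [Nat.add_sub_cancel_left]
  rw [Finset.sum_congr rfl h3, sum_min]
  omega

theorem card_lad {m : ℕ → ℕ} {U : Finset ℕ} {n : ℕ} {f : ℕ → ℕ} (h : Lad m U n f) (i : ℕ) :
    ((Ico i n).image f).card = n - i := by
  rw [card_image_of_injective _ h.1.injective, Nat.card_Ico]

end LM0aux

open LM0aux in
/-- TASK LM0. -/
theorem t_LM0 (hLF : S_LF) (_hmul : S_PUmul) (hM : S_Msmul) : S_LM0 := by
  intro N m U n f hL hind
  have hn : 4 ≤ n := hL.2.2.1
  have hU : U = (Ico 0 n).image f := by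
    rw [hL.2.1, range_eq_Ico]
  have hcard : U.card = n := by
    rw [hU, card_lad hL]
    omega
  have hedge : eE m U = 2 * n - 3 := by
    rw [hU, eE_lad hL (by omega)]
    omega
  have hfun : FF m (qq N) (xx N) U (f (n - 1)) =
      (∑ i ∈ range (n - 2), fun j => (qq N * qn (qq N) i) *
        TT m (qq N) (xx N) ((Ico (i + 1) n).image f) (f (i + 1)) (f (n - 1))
          (eh (qq N) (xx N) (i + 1)) j) +
      fun j => qn (qq N) (n - 1) * eh (qq N) (xx N) (n - 1) j := by
    funext j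
    rw [Pi.add_apply, Finset.sum_apply]
    exact hLF (AN N) N m (qq N) (xx N) U n f hL j
  rw [hfun, hcard, hedge]
  refine add_mem (sum_mem fun i hi => ?_) ?_
  · have hi1 : i < n - 2 := mem_range.1 hi
    rcases Nat.eq_zero_or_pos i with rfl | hpos
    · have h0 : (fun j : Fin N => (qq N * qn (qq N) 0) *
          TT m (qq N) (xx N) ((Ico (0 + 1) n).image f) (f (0 + 1)) (f (n - 1))
            (eh (qq N) (xx N) (0 + 1)) j) = 0 := by
        funext j
        have h1 : qn (qq N) 0 = 0 := by simp [qn]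
        rw [h1, mul_zero, zero_mul]
        rfl
      rw [h0]
      exact zero_mem _
    · have h1 := hind (i + 1) (by omega) (by omega) (i + 1)
      rw [card_lad hL, eE_lad hL (by omega)] at h1
      have h2 : (qq N * qn (qq N) i) ∈ Cone N 0 (i + 1) := by
        rw [qn_C]
        have h3 : qq N * MvPolynomial.C (qn (Polynomial.X : Polynomial ℤ) i) =
            MvPolynomial.C ((Polynomial.X : Polynomial ℤ) ^ 1 *
              qn (Polynomial.X : Polynomial ℤ) i) := by
          rw [map_mul, pow_one]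
          rfl
        rw [h3]
        exact C_mem (gen_mem (by omega))
      have h4 := hM N _ _ 0 (i + 1) _ _ h2 h1
      have e1 : 0 + (i + 1 + (n - (i + 1))) = n := by omega
      have e2 : i + 1 + (i + 1 + (2 * (n - (i + 1)) - 3)) = 2 * n - 3 := by omega
      rw [e1, e2] at h4
      exact h4
  · have h5 : qn (qq N) (n - 1) ∈ Cone N 0 (n - 2) := by
      rw [qn_C]
      have h6 := gen_mem (d := n - 2) (i := 0) (k := n - 1) (by omega)
      rw [pow_zero, one_mul] at h6
      exact C_mem h6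
    exact gen_MCone h5 (by omega) (by omega)

end Pool.Agent.SWC
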