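import Pool.Agent.Lib.MP_263316_co.Spec

/-!
MP_263316_co, TASK LM1: ladders, `c ≥ 1`.
-/

set_option autoImplicit false

namespace Pool.Agent.SWC

open Finset

namespace LM1

variable {N : ℕ}

theorem qn_map (k : ℕ) : qn (qq N) k = MvPolynomial.C (qn (Polynomial.X : Polynomial ℤ) k) := by
  unfold qn qq
  rw [map_sum]
  exact Finset.sum_congr rfl fun i _ => by rw [map_pow]

theorem Pi_map (m : ℕ → ℕ) (s : ℕ) (S : Finset ℕ) :
    Pi m (qq N) s S = MvPolynomial.C (Pi m (Polynomial.X : Polynomial ℤ) s S) := by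
  unfold Pi
  rw [map_prod]
  exact Finset.prod_congr rfl fun v _ => qn_map _

theorem gen_PU {d i k : ℕ} (h : 2 * i + k = d + 1) :
    Polynomial.X ^ i * qn (Polynomial.X : Polynomial ℤ) k ∈ PU d :=
  AddSubmonoid.subset_closure ⟨i, k, h, rfl⟩

theorem X_PU (i : ℕ) : (Polynomial.X ^ i : Polynomial ℤ) ∈ PU (2 * i) := by
  have h := gen_PU (d := 2 * i) (i := i) (k := 1) (by omega)
  have h1 : qn (Polynomial.X : Polynomial ℤ) 1 = 1 := by simp [qn]
  rwa [h1, mul_one] at h

theorem two_PU : (1 + Polynomial.X : Polynomial ℤ) ∈ PU 1 := by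
  have h := gen_PU (d := 1) (i := 0) (k := 2) (by omega)
  have h1 : qn (Polynomial.X : Polynomial ℤ) 2 = 1 + Polynomial.X := by
    simp [qn, Finset.sum_range_succ]
  rwa [h1, pow_zero, one_mul] at h

theorem Ces_mem {p : Polynomial ℤ} {d : ℕ} (hp : p ∈ PU d) (k : ℕ) :
    MvPolynomial.C p * es (xx N) k ∈ Cone N k d :=
  AddSubmonoid.subset_closure ⟨{k}, p, by simp, hp, by simp⟩

theorem C_mem {p : Polynomial ℤ} {d : ℕ} (hp : p ∈ PU d) :
    (MvPolynomial.C p : AN N) ∈ Cone N 0 d :=
  AddSubmonoid.subset_closure ⟨0, p, by simp, hp, by simp⟩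

theorem geom (k : ℕ) : (1 - qq N) * qn (qq N) k = 1 - qq N ^ k := by
  unfold qn
  exact mul_neg_geom_sum _ _

theorem one_sub_ne : (1 - qq N) ≠ 0 := by
  intro h
  have h1 : qq N = 1 := (sub_eq_zero.1 h).symm
  unfold qq at h1
  have h3 : (MvPolynomial.C Polynomial.X : AN N) = MvPolynomial.C 1 := by
    rw [h1, map_one]
  have h2 := MvPolynomial.C_injective _ _ h3
  have h4 := congrArg (fun p => Polynomial.coeff p 1) h2
  simp [Polynomial.coeff_one] at h4

theorem pow_diff {a b : ℕ} (h : a ≤ b) :
    qq N ^ a - qq N ^ b = (1 - qq N) * (qq N ^ a * qn (qq N) (b - a)) := by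
  have h1 := geom (N := N) (b - a)
  have h2 : qq N ^ b = qq N ^ a * qq N ^ (b - a) := by
    rw [← pow_add]
    congr 1
    omega
  rw [h2]
  linear_combination (-(qq N ^ a)) * h1

theorem qq_pow (a : ℕ) : qq N ^ a = MvPolynomial.C ((Polynomial.X : Polynomial ℤ) ^ a) := by
  unfold qq
  rw [map_pow]

/-- the first kind of terms -/
theorem term0 (hEDG : S_EDG) (hPIM : S_PIM) (hPUmul : S_PUmul) (hMsmul : S_Msmul)
    {m : ℕ → ℕ} {U S : Finset ℕ} {s t c : ℕ} (hc : 1 ≤ c) (hSU : S ⊆ U) (hs : s ∈ S)
    (hsu : ∀ u ∈ S, s ≤ u)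
    (hF : FF m (qq N) (xx N) (U \ S) t ∈ MCone N (U \ S).card (eE m (U \ S))) :
    (fun j => (Pi m (qq N) s S *
      (qq N ^ ea m U S * qn (qq N) (c + S.card + eb m U S - ea m U S)) *
      es (xx N) (c + S.card)) * FF m (qq N) (xx N) (U \ S) t j) ∈
      MCone N (c + U.card) (c + eE m U) := by
  have hcard : (U \ S).card + S.card = U.card := by
    rw [Finset.card_sdiff_of_subset hSU]
    have := Finset.card_le_card hSU
    omega
  have hE := hEDG m U S hSU
  rcases hPIM m S s hs hsu with h0 | ⟨d, hd, hp⟩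
  · have h1 : Pi m (qq N) s S = 0 := by rw [Pi_map, h0, map_zero]
    have h2 : (fun j => (Pi m (qq N) s S *
        (qq N ^ ea m U S * qn (qq N) (c + S.card + eb m U S - ea m U S)) *
        es (xx N) (c + S.card)) * FF m (qq N) (xx N) (U \ S) t j) = 0 := by
      funext j
      rw [h1]
      simp
    rw [h2]
    exact AddSubmonoid.zero_mem _
  · by_cases hM : c + S.card + eb m U S - ea m U S = 0
    · have h2 : (fun j => (Pi m (qq N) s S *
          (qq N ^ ea m U S * qn (qq N) (c + S.card + eb m U S - ea m U S)) *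
          es (xx N) (c + S.card)) * FF m (qq N) (xx N) (U \ S) t j) = 0 := by
        funext j
        rw [hM]
        simp [qn]
      rw [h2]
      exact AddSubmonoid.zero_mem _
    · have h3 := gen_PU (d := 2 * ea m U S + (c + S.card + eb m U S - ea m U S) - 1)
        (i := ea m U S) (k := c + S.card + eb m U S - ea m U S) (by omega)
      have h4 := hPUmul _ _ _ _ hp h3
      have h5 := Ces_mem (N := N) h4 (c + S.card)
      have h6 := hMsmul N _ _ _ _ _ _ h5 hF
      have h7 : c + S.card + (U \ S).card = c + U.card := by omega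
      have h8 : d + (2 * ea m U S + (c + S.card + eb m U S - ea m U S) - 1) + eE m (U \ S) =
          c + eE m U := by omega
      rw [h7, h8] at h6
      have h9 : Pi m (qq N) s S *
          (qq N ^ ea m U S * qn (qq N) (c + S.card + eb m U S - ea m U S)) *
          es (xx N) (c + S.card) = MvPolynomial.C (Pi m Polynomial.X s S *
            (Polynomial.X ^ ea m U S * qn Polynomial.X (c + S.card + eb m U S - ea m U S))) *
            es (xx N) (c + S.card) := by
        rw [Pi_map, qn_map, qq_pow, map_mul, map_mul]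
      rw [h9]
      exact h6

/-- the second kind of terms: a polynomial times `XX` -/
theorem term1 (hCmul : S_Cmul) {m : ℕ → ℕ} {V : Finset ℕ} {p : Polynomial ℤ} {d k e : ℕ}
    (hp : p ∈ PU d) (hV : XX m (qq N) (xx N) V ∈ Cone N V.card (eE m V))
    (hk : V.card = k) (he : d + eE m V = e) :
    MvPolynomial.C p * XX m (qq N) (xx N) V ∈ Cone N k e := by
  have h := hCmul N _ _ _ _ _ _ (C_mem (N := N) hp) hV
  rwa [zero_add, hk, he] at h

theorem split3 {R : Type} [CommRing R] (P : Finset (Finset ℕ)) (a b : Finset ℕ → ℕ)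
    (hlc : ∀ S ∈ P, a S ≤ b S + 1 ∧ b S ≤ a S + 1) (h : Finset ℕ → R) :
    ∑ S ∈ P, h S = (∑ S ∈ P.filter (fun S => a S = b S), h S) +
      (∑ S ∈ P.filter (fun S => a S + 1 = b S), h S) +
      ∑ S ∈ P.filter (fun S => a S = b S + 1), h S := by
  rw [Finset.sum_filter, Finset.sum_filter, Finset.sum_filter,
    ← Finset.sum_add_distrib, ← Finset.sum_add_distrib]
  refine Finset.sum_congr rfl fun S hS => ?_
  obtain ⟨h1, h2⟩ := hlc S hS
  by_cases c1 : a S = b S
  · have c2 : ¬ (a S + 1 = b S) := by omega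
    have c3 : ¬ (a S = b S + 1) := by omega
    rw [if_pos c1, if_neg c2, if_neg c3, add_zero, add_zero]
  · by_cases c2 : a S + 1 = b S
    · have c3 : ¬ (a S = b S + 1) := by omega
      rw [if_neg c1, if_pos c2, if_neg c3, add_zero, zero_add]
    · have c3 : a S = b S + 1 := by omega
      rw [if_neg c1, if_neg c2, if_pos c3, zero_add, zero_add]

end LM1

open LM1 in
theorem t_LM1 (hSTAR : S_STAR) (hEDG : S_EDG) (hPIM : S_PIM) (hLCNT : S_LCNT)
    (hPUmul : S_PUmul) (hCmul : S_Cmul) (hMsmul : S_Msmul) : S_LM1 := by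
  intro N m hm U n f hL hX hF c hc
  have hL' := hL
  obtain ⟨hf, hU, hn, -⟩ := hL'
  have hs : f 0 ∈ U := by
    rw [hU]; exact mem_image_of_mem _ (mem_range.2 (by omega))
  have ht : f (n - 1) ∈ U := by
    rw [hU]; exact mem_image_of_mem _ (mem_range.2 (by omega))
  have hst : f 0 < f (n - 1) := hf (by omega)
  have hUb : ∀ u ∈ U, f 0 ≤ u ∧ u ≤ f (n - 1) := by
    intro u hu
    rw [hU] at hu
    obtain ⟨i, hi, rfl⟩ := mem_image.1 hu
    have hi' := mem_range.1 hi
    exact ⟨hf.monotone (Nat.zero_le _), hf.monotone (by omega)⟩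
  obtain ⟨hS1, hS2⟩ := hSTAR (AN N) N m hm (qq N) (xx N) U (f 0) (f (n - 1)) hs ht hst hUb
  -- membership facts
  have hP0 : ∀ S ∈ PW0 U (f 0) (f (n - 1)), S ⊆ U ∧ f 0 ∈ S ∧ f (n - 1) ∉ S := by
    intro S hS
    unfold PW0 at hS
    rw [mem_filter, mem_powerset] at hS
    exact hS
  have hP1 : ∀ S ∈ PW1 U (f 0) (f (n - 1)), S ⊆ U ∧ f 0 ∈ S ∧ f (n - 1) ∈ S := by
    intro S hS
    unfold PW1 at hS
    rw [mem_filter, mem_powerset] at hS
    exact hS
  have key : TT m (qq N) (xx N) U (f 0) (f (n - 1)) (eh (qq N) (xx N) c) =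
      (∑ S ∈ PW0 U (f 0) (f (n - 1)), fun j => (Pi m (qq N) (f 0) S *
        (qq N ^ ea m U S * qn (qq N) (c + S.card + eb m U S - ea m U S)) *
        es (xx N) (c + S.card)) * FF m (qq N) (xx N) (U \ S) (f (n - 1)) j) +
      ∑ r ∈ range (U.card + 1), fun j =>
        (∑ S ∈ (PW1 U (f 0) (f (n - 1))).filter (fun S => S.card = r),
          Pi m (qq N) (f 0) S * qq N ^ ea m U S * XX m (qq N) (xx N) (U \ S)) *
            eh (qq N) (xx N) (c + r - 1) j := by
    funext j
    rw [Pi.add_apply, Finset.sum_apply, Finset.sum_apply]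
    have e1 : (∑ S ∈ PW0 U (f 0) (f (n - 1)), Pi m (qq N) (f 0) S *
        (qq N ^ ea m U S - qq N ^ (c + S.card + eb m U S)) *
        es (xx N) (c + S.card) * FF m (qq N) (xx N) (U \ S) (f (n - 1)) j) =
        (1 - qq N) * ∑ S ∈ PW0 U (f 0) (f (n - 1)), (Pi m (qq N) (f 0) S *
        (qq N ^ ea m U S * qn (qq N) (c + S.card + eb m U S - ea m U S)) *
        es (xx N) (c + S.card)) * FF m (qq N) (xx N) (U \ S) (f (n - 1)) j := by
      rw [Finset.mul_sum]
      refine Finset.sum_congr rfl fun S hS => ?_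
      obtain ⟨h1, h2, h3⟩ := hP0 S hS
      have h4 := (hLCNT m U n f hL S h1 h2).1 h3
      rw [pow_diff (N := N) (a := ea m U S) (b := c + S.card + eb m U S) (by omega)]
      ring
    have e2 : (∑ S ∈ PW1 U (f 0) (f (n - 1)), Pi m (qq N) (f 0) S * qq N ^ ea m U S *
        eh (qq N) (xx N) (c + S.card - 1) j * XX m (qq N) (xx N) (U \ S)) =
        ∑ r ∈ range (U.card + 1),
        (∑ S ∈ (PW1 U (f 0) (f (n - 1))).filter (fun S => S.card = r),
          Pi m (qq N) (f 0) S * qq N ^ ea m U S * XX m (qq N) (xx N) (U \ S)) *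
            eh (qq N) (xx N) (c + r - 1) j := by
      have h5 : ∀ S ∈ PW1 U (f 0) (f (n - 1)), S.card ∈ range (U.card + 1) := by
        intro S hS
        have := Finset.card_le_card (hP1 S hS).1
        rw [mem_range]
        omega
      rw [← Finset.sum_fiberwise_of_maps_to h5]
      refine Finset.sum_congr rfl fun r _ => ?_
      rw [Finset.sum_mul]
      refine Finset.sum_congr rfl fun S hS => ?_
      rw [(mem_filter.1 hS).2]
      ring
    have e3 := hS1 c j
    rw [e1, e2, ← mul_add] at e3
    exact mul_left_cancel₀ (one_sub_ne (N := N)) e3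
  rw [key]
  refine AddSubmonoid.add_mem _ (AddSubmonoid.sum_mem _ fun S hS => ?_)
    (AddSubmonoid.sum_mem _ fun r _ => ?_)
  · obtain ⟨h1, h2, h3⟩ := hP0 S hS
    refine term0 hEDG hPIM hPUmul hMsmul hc h1 h2 (fun u hu => (hUb u (h1 hu)).1) ?_
    refine hF (U \ S) Finset.sdiff_subset ?_ ?_
    · intro h; exact (Finset.mem_sdiff.1 h).2 h2
    · exact Finset.mem_sdiff.2 ⟨ht, h3⟩
  · -- terms of the second kind
    set P := (PW1 U (f 0) (f (n - 1))).filter (fun S => S.card = r) with hPdef
    set g : Finset ℕ → AN N := fun S => Pi m (qq N) (f 0) S * XX m (qq N) (xx N) (U \ S) with hg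
    by_cases hz : ∀ S ∈ P, Pi m (Polynomial.X : Polynomial ℤ) (f 0) S = 0
    · have h0 : (fun j => (∑ S ∈ P, Pi m (qq N) (f 0) S * qq N ^ ea m U S *
          XX m (qq N) (xx N) (U \ S)) * eh (qq N) (xx N) (c + r - 1) j) = 0 := by
        funext j
        rw [Finset.sum_eq_zero, zero_mul]
        · rfl
        · intro S hS
          rw [Pi_map, hz S hS, map_zero, zero_mul, zero_mul]
      rw [h0]
      exact AddSubmonoid.zero_mem _
    · push Not at hz
      obtain ⟨S0, hS0, hne⟩ := hz
      have hPm : ∀ S ∈ P, S ⊆ U ∧ f 0 ∈ S ∧ f (n - 1) ∈ S ∧ S.card = r := by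
        intro S hS
        rw [hPdef, mem_filter] at hS
        obtain ⟨h1, h2, h3⟩ := hP1 S hS.1
        exact ⟨h1, h2, h3, hS.2⟩
      have hr : r ≤ eE m U + 1 ∧ 1 ≤ r ∧ r ≤ U.card := by
        obtain ⟨h1, h2, h3, h4⟩ := hPm S0 hS0
        rcases hPIM m S0 (f 0) h2 (fun u hu => (hUb u (h1 hu)).1) with h | ⟨d, hd, -⟩
        · exact absurd h hne
        · have h5 := hEDG m U S0 h1
          have h6 := Finset.card_pos.2 ⟨_, h2⟩
          have h7 := Finset.card_le_card h1
          omega
      have hlc : ∀ S ∈ P, ea m U S ≤ eb m U S + 1 ∧ eb m U S ≤ ea m U S + 1 := by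
        intro S hS
        obtain ⟨h1, h2, h3, h4⟩ := hPm S hS
        exact (hLCNT m U n f hL S h1 h2).2 h3
      -- the sum
      have hsum : (∑ S ∈ P, Pi m (qq N) (f 0) S * qq N ^ ea m U S *
          XX m (qq N) (xx N) (U \ S)) =
          (∑ S ∈ P.filter (fun S => ea m U S = eb m U S), g S * qq N ^ ea m U S) +
          ∑ S ∈ P.filter (fun S => ea m U S + 1 = eb m U S),
            g S * (qq N ^ ea m U S * (1 + qq N)) := by
        have hA : ∀ h : Finset ℕ → AN N, ∑ S ∈ P, h S =
            (∑ S ∈ P.filter (fun S => ea m U S = eb m U S), h S) +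
            (∑ S ∈ P.filter (fun S => ea m U S + 1 = eb m U S), h S) +
            ∑ S ∈ P.filter (fun S => ea m U S = eb m U S + 1), h S :=
          fun h => split3 P (ea m U) (eb m U) hlc h
        have hB := hS2 r
        rw [← hPdef, hA] at hB
        have hB0 : ∑ S ∈ P.filter (fun S => ea m U S = eb m U S),
            Pi m (qq N) (f 0) S * (qq N ^ ea m U S - qq N ^ eb m U S) *
              XX m (qq N) (xx N) (U \ S) = 0 := by
          refine Finset.sum_eq_zero fun S hS => ?_
          rw [(mem_filter.1 hS).2, sub_self, mul_zero, zero_mul]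
        have hB1 : ∑ S ∈ P.filter (fun S => ea m U S + 1 = eb m U S),
            Pi m (qq N) (f 0) S * (qq N ^ ea m U S - qq N ^ eb m U S) *
              XX m (qq N) (xx N) (U \ S) =
            (1 - qq N) * ∑ S ∈ P.filter (fun S => ea m U S + 1 = eb m U S),
              g S * qq N ^ ea m U S := by
          rw [Finset.mul_sum]
          refine Finset.sum_congr rfl fun S hS => ?_
          rw [← (mem_filter.1 hS).2, hg]
          simp only
          ring
        have hB2 : ∑ S ∈ P.filter (fun S => ea m U S = eb m U S + 1),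
            Pi m (qq N) (f 0) S * (qq N ^ ea m U S - qq N ^ eb m U S) *
              XX m (qq N) (xx N) (U \ S) =
            (1 - qq N) * (- ∑ S ∈ P.filter (fun S => ea m U S = eb m U S + 1),
              g S * qq N ^ eb m U S) := by
          rw [← Finset.sum_neg_distrib, Finset.mul_sum]
          refine Finset.sum_congr rfl fun S hS => ?_
          rw [(mem_filter.1 hS).2, hg]
          simp only
          ring
        rw [hB0, hB1, hB2, zero_add, ← mul_add] at hB
        have hC := (mul_eq_zero.1 hB).resolve_left (one_sub_ne (N := N))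
        rw [← sub_eq_add_neg, sub_eq_zero] at hC
        rw [hA]
        have hD1 : ∑ S ∈ P.filter (fun S => ea m U S = eb m U S + 1),
            Pi m (qq N) (f 0) S * qq N ^ ea m U S * XX m (qq N) (xx N) (U \ S) =
            qq N * ∑ S ∈ P.filter (fun S => ea m U S + 1 = eb m U S),
              g S * qq N ^ ea m U S := by
          rw [hC, Finset.mul_sum]
          refine Finset.sum_congr rfl fun S hS => ?_
          rw [(mem_filter.1 hS).2, hg]
          simp only
          ring
        have hD2 : ∑ S ∈ P.filter (fun S => ea m U S = eb m U S),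
            Pi m (qq N) (f 0) S * qq N ^ ea m U S * XX m (qq N) (xx N) (U \ S) =
            ∑ S ∈ P.filter (fun S => ea m U S = eb m U S), g S * qq N ^ ea m U S := by
          refine Finset.sum_congr rfl fun S _ => ?_
          rw [hg]
          simp only
          ring
        have hD3 : ∑ S ∈ P.filter (fun S => ea m U S + 1 = eb m U S),
            g S * (qq N ^ ea m U S * (1 + qq N)) =
            (∑ S ∈ P.filter (fun S => ea m U S + 1 = eb m U S),
            Pi m (qq N) (f 0) S * qq N ^ ea m U S * XX m (qq N) (xx N) (U \ S)) +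
            qq N * ∑ S ∈ P.filter (fun S => ea m U S + 1 = eb m U S),
              g S * qq N ^ ea m U S := by
          rw [Finset.mul_sum, ← Finset.sum_add_distrib]
          refine Finset.sum_congr rfl fun S _ => ?_
          rw [hg]
          simp only
          ring
        rw [hD1, hD2, hD3, add_assoc]
      refine AddSubmonoid.subset_closure ⟨U.card - r, eE m U + 1 - r, c + r - 1,
        ∑ S ∈ P, Pi m (qq N) (f 0) S * qq N ^ ea m U S * XX m (qq N) (xx N) (U \ S),
        ?_, by omega, by omega, rfl⟩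
      rw [hsum]
      refine AddSubmonoid.add_mem _ (AddSubmonoid.sum_mem _ fun S hS => ?_)
        (AddSubmonoid.sum_mem _ fun S hS => ?_)
      · rw [mem_filter] at hS
        obtain ⟨hSP, hab⟩ := hS
        obtain ⟨h1, h2, h3, h4⟩ := hPm S hSP
        have hE := hEDG m U S h1
        have hcard : (U \ S).card = U.card - r := by
          rw [Finset.card_sdiff_of_subset h1, h4]
        have hXS := hX (U \ S) Finset.sdiff_subset
          (fun h => (Finset.mem_sdiff.1 h).2 h2)
        rcases hPIM m S (f 0) h2 (fun u hu => (hUb u (h1 hu)).1) with h | ⟨d, hd, hp⟩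
        · rw [hg]
          simp only
          rw [Pi_map, h, map_zero, zero_mul, zero_mul]
          exact AddSubmonoid.zero_mem _
        · have h5 := hPUmul _ _ _ _ hp (X_PU (ea m U S))
          have h6 := term1 (N := N) (k := U.card - r) (e := eE m U + 1 - r) hCmul h5 hXS hcard
            (by omega)
          have h7 : g S * qq N ^ ea m U S =
              MvPolynomial.C (Pi m Polynomial.X (f 0) S * Polynomial.X ^ ea m U S) *
                XX m (qq N) (xx N) (U \ S) := by
            rw [hg]
            simp only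
            rw [Pi_map, qq_pow, map_mul]
            ring
          rw [h7]
          exact h6
      · rw [mem_filter] at hS
        obtain ⟨hSP, hab⟩ := hS
        obtain ⟨h1, h2, h3, h4⟩ := hPm S hSP
        have hE := hEDG m U S h1
        have hcard : (U \ S).card = U.card - r := by
          rw [Finset.card_sdiff_of_subset h1, h4]
        have hXS := hX (U \ S) Finset.sdiff_subset
          (fun h => (Finset.mem_sdiff.1 h).2 h2)
        rcases hPIM m S (f 0) h2 (fun u hu => (hUb u (h1 hu)).1) with h | ⟨d, hd, hp⟩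
        · rw [hg]
          simp only
          rw [Pi_map, h, map_zero, zero_mul, zero_mul]
          exact AddSubmonoid.zero_mem _
        · have h5 := hPUmul _ _ _ _ hp (hPUmul _ _ _ _ (X_PU (ea m U S)) two_PU)
          have h6 := term1 (N := N) (k := U.card - r) (e := eE m U + 1 - r) hCmul h5 hXS hcard
            (by omega)
          have h7 : g S * (qq N ^ ea m U S * (1 + qq N)) =
              MvPolynomial.C (Pi m Polynomial.X (f 0) S *
                (Polynomial.X ^ ea m U S * (1 + Polynomial.X))) *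
                XX m (qq N) (xx N) (U \ S) := by
            rw [hg]
            simp only
            rw [Pi_map, qq_pow, map_mul, map_mul, map_add, map_one]
            unfold qq
            ring
          rw [h7]
          exact h6

end Pool.Agent.SWC
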