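import Pool.Agent.Lib.MP_263316_co.Spec

/-!
MP_263316_co, task LOC: the local identity.
-/

set_option autoImplicit false

namespace Pool.Agent.SWC

open Finset

namespace LOCx

variable {R : Type} [CommRing R]

theorem qn_succ (q : R) (r : ℕ) : qn q (r + 1) = qn q r + q ^ r := by
  unfold qn; rw [sum_range_succ]

theorem qn_succ' (q : R) (r : ℕ) : qn q (r + 1) = 1 + q * qn q r := by
  unfold qn
  rw [sum_range_succ', pow_zero, mul_sum, add_comm]
  congr 1
  exact sum_congr rfl fun i _ => by rw [pow_succ]; ring

theorem qn_geom (q : R) (r : ℕ) : (1 - q) * qn q r = 1 - q ^ r := by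
  have h1 := qn_succ q r
  have h2 := qn_succ' q r
  linear_combination h2 - h1

theorem lo_single (m : ℕ → ℕ) (q y : R) (s : ℕ) (L : Finset ℕ) :
    loA m q y s {s} L = 1 ∧ loB m q y s {s} L = 1 := by
  have hf : ((({s} : Finset ℕ).erase s).powerset.filter (fun J => ind m J ∧ Disjoint J L)) =
      {∅} := by
    have h0 : ({s} : Finset ℕ).erase s = ∅ := by simp
    rw [h0, powerset_empty]
    ext J
    rw [mem_filter, mem_singleton]
    constructor
    · exact fun h => h.1
    · rintro rfl
      exact ⟨rfl, fun u hu => absurd hu (notMem_empty _), disjoint_empty_left _⟩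
  unfold loA loB
  rw [hf, sum_singleton, sum_singleton]
  have hP : Pi m q s ({s} \ ∅) = 1 := by
    unfold Pi
    rw [sdiff_empty]
    simp
  rw [hP]
  simp

theorem core (h : S_LREC) (m : ℕ → ℕ) (hm : Monotone m) (q y : R) (s : ℕ) :
    ∀ (n t : ℕ) (D : Finset ℕ), D.card = n → s ∈ D → t ∈ D → (∀ u ∈ D, s ≤ u ∧ u ≤ t) →
    ((1 + y) * loA m q y s D ∅ = (1 + q * y) * loB m q y s D ∅ +
      (1 - q) * y ^ D.card * (if ind m D then 1 else 0)) ∧
    ∀ l ∈ D, (l = t ∨ t ≤ m l) → ∀ k : ℕ, (D.filter (fun v => l ≤ v)).card = k + 1 →
      (1 + y) * (loB m q y s D (D.filter (fun v => l ≤ v)) -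
        q ^ k * loA m q y s D (D.filter (fun v => l ≤ v))) =
        (1 - q ^ k) * loB m q y s D ∅ := by
  intro n
  induction n with
  | zero =>
    intro t D hn hs
    rw [card_eq_zero] at hn
    rw [hn] at hs
    exact absurd hs (notMem_empty _)
  | succ n ih =>
    intro t D hn hs ht hD
    by_cases hst : s = t
    · -- the base case
      subst hst
      have hDs : D = {s} := by
        ext u
        rw [mem_singleton]
        refine ⟨fun hu => le_antisymm (hD u hu).2 (hD u hu).1, fun hu => hu ▸ hs⟩
      subst hDs
      refine ⟨?_, ?_⟩
      · rw [(lo_single m q y s ∅).1, (lo_single m q y s ∅).2, card_singleton, pow_one, if_pos]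
        · ring
        · intro u hu v hv huv
          rw [mem_singleton] at hu hv
          omega
      · intro l hl _ k hk
        rw [mem_singleton] at hl
        subst hl
        have hk0 : k = 0 := by
          have : (({l} : Finset ℕ).filter (fun v => l ≤ v)).card ≤ 1 := by
            refine (card_filter_le _ _).trans ?_
            rw [card_singleton]
          omega
        subst hk0
        rw [(lo_single m q y l _).1, (lo_single m q y l _).2]
        ring
    · -- the step
      set D' := D.erase t with hD'
      have hins : insert t D' = D := insert_erase ht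
      have htD' : t ∉ D' := notMem_erase _ _
      have hsD' : s ∈ D' := mem_erase.mpr ⟨hst, hs⟩
      have hD's : ∀ u ∈ D', s ≤ u := fun u hu => (hD u (mem_of_mem_erase hu)).1
      have hD't : ∀ u ∈ D', u < t := fun u hu =>
        lt_of_le_of_ne (hD u (mem_of_mem_erase hu)).2 (ne_of_mem_erase hu)
      have hcard' : D'.card = n := by
        rw [hD', card_erase_of_mem ht, hn]; rfl
      have hcard : D.card = D'.card + 1 := by rw [hcard', hn]
      have hne : D'.Nonempty := ⟨s, hsD'⟩
      have ht'D : D'.max' hne ∈ D' := max'_mem _ _
      have ht't : D'.max' hne < t := hD't _ ht'D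
      obtain ⟨hL0, hC⟩ := ih (D'.max' hne) D' hcard' hsD' ht'D
        (fun u hu => ⟨hD's u hu, le_max' _ _ hu⟩)
      obtain ⟨hr1, hr2, hr3, hr4⟩ := h R m hm q y s t D' hsD' hD's hD't
      rw [hins] at hr1 hr2 hr3 hr4
      set N := D'.filter (fun u => t ≤ m u) with hN
      have hft : D.filter (fun v => t ≤ v) = insert t ∅ := by
        ext u
        rw [mem_filter, insert_empty_eq, mem_singleton]
        refine ⟨fun hu => le_antisymm (hD u hu.1).2 hu.2, ?_⟩
        rintro rfl
        exact ⟨ht, le_rfl⟩
      have hA1 := hr1 ∅ (empty_subset _)
      have hB1 := hr2 ∅ (empty_subset _)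
      rw [empty_union] at hA1 hB1
      rw [← insert_empty_eq t] at hr3 hr4
      rcases Nat.eq_zero_or_pos N.card with hβ | hβ
      · -- no left neighbour of t
        have hNe : N = ∅ := card_eq_zero.mp hβ
        have hq0 : qn q 0 = 0 := by unfold qn; rw [range_zero, sum_empty]
        rw [hβ, Nat.zero_sub, hq0] at hA1 hB1
        rw [hβ, pow_zero, hNe] at hr3
        rw [hNe] at hr4
        have hA2 : loA m q y s D (insert t ∅) = 0 := by rw [hA1]; ring
        have hB2 : loB m q y s D (insert t ∅) = 0 := by rw [hB1]; ring
        have hind : ind m D ↔ ind m D' := by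
          constructor
          · intro hi u hu v hv
            exact hi u (mem_of_mem_erase hu) v (mem_of_mem_erase hv)
          · intro hi u hu v hv huv
            have huD : u ∈ D' := mem_erase.mpr ⟨by have := (hD v hv).2; omega, hu⟩
            by_cases hvt : v = t
            · subst hvt
              have : u ∈ N := mem_filter.mpr ⟨huD, huv.2⟩
              rw [hNe] at this
              exact absurd this (notMem_empty _)
            · exact hi u huD v (mem_erase.mpr ⟨hvt, hv⟩) huv
        refine ⟨?_, ?_⟩
        · rw [hr3, hr4, hA2, hB2, hcard, pow_succ]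
          have hite : (if ind m D then (1 : R) else 0) = if ind m D' then 1 else 0 := by
            by_cases hi : ind m D'
            · rw [if_pos hi, if_pos (hind.mpr hi)]
            · rw [if_neg hi, if_neg fun h => hi (hind.mp h)]
          rw [hite]
          linear_combination y * hL0
        · intro l hl hlt k hk
          have hlt' : l = t := by
            rcases hlt with h1 | h1
            · exact h1
            · by_contra h2
              have : l ∈ N := mem_filter.mpr ⟨mem_erase.mpr ⟨h2, hl⟩, h1⟩
              rw [hNe] at this
              exact absurd this (notMem_empty _)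
          subst hlt'
          have hk0 : k = 0 := by
            rw [hft, insert_empty_eq, card_singleton] at hk
            omega
          subst hk0
          rw [hft, hA2, hB2]
          ring
      · -- there is a left neighbour
        obtain ⟨r, hr⟩ : ∃ r, N.card = r + 1 := ⟨N.card - 1, by omega⟩
        have hNne : N.Nonempty := card_pos.mp hβ
        -- (C) for members of N
        have hCN : ∀ l ∈ N, ∀ k : ℕ, (D'.filter (fun v => l ≤ v)).card = k + 1 →
            (1 + y) * (loB m q y s D' (D'.filter (fun v => l ≤ v)) -
              q ^ k * loA m q y s D' (D'.filter (fun v => l ≤ v))) =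
              (1 - q ^ k) * loB m q y s D' ∅ := by
          intro l hl
          rw [hN, mem_filter] at hl
          exact hC l hl.1 (Or.inr (ht't.le.trans hl.2))
        have hNf : D'.filter (fun v => N.min' hNne ≤ v) = N := by
          ext v
          rw [mem_filter]
          constructor
          · rintro ⟨h1, h2⟩
            have h3 := mem_filter.mp (min'_mem N hNne)
            exact mem_filter.mpr ⟨h1, h3.2.trans (hm h2)⟩
          · intro h1
            exact ⟨(mem_filter.mp h1).1, min'_le _ _ h1⟩
        have hi := hCN (N.min' hNne) (min'_mem _ _) r (by rw [hNf, hr])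
        rw [hNf] at hi
        have hg := qn_geom q r
        have hiii : qn q r * ((1 + y) * loA m q y s D' ∅) =
            qn q r * ((1 + q * y) * loB m q y s D' ∅) := by
          rcases Nat.eq_zero_or_pos r with hr0 | hr0
          · subst hr0
            have hq0 : qn q 0 = 0 := by unfold qn; rw [range_zero, sum_empty]
            rw [hq0]; ring
          · have hni : ¬ ind m D' := by
              intro hid
              have h1 : 1 < N.card := by omega
              obtain ⟨a, ha, b, hb, hab⟩ := one_lt_card.mp h1
              rw [hN, mem_filter] at ha hb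
              rcases Nat.lt_or_gt_of_ne hab with h2 | h2
              · exact hid a ha.1 b hb.1 ⟨h2, (hD't b hb.1).le.trans ha.2⟩
              · exact hid b hb.1 a ha.1 ⟨h2, (hD't a ha.1).le.trans hb.2⟩
            rw [if_neg hni] at hL0
            rw [hL0]; ring
        have hqA : qn q (r + 1) = qn q r + q ^ r := qn_succ q r
        have hqB : qn q (r + 1) = 1 + q * qn q r := qn_succ' q r
        have hnD : ¬ ind m D := by
          intro hid
          obtain ⟨a, ha⟩ := hNne
          rw [hN, mem_filter] at ha
          exact hid a (mem_of_mem_erase ha.1) t ht ⟨hD't a ha.1, ha.2⟩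
        rw [hr, Nat.add_sub_cancel] at hA1 hB1 hr1 hr2
        rw [hr] at hr3
        -- the claim for l = t
        have hCt : (1 + y) * (loB m q y s D (insert t ∅) - loA m q y s D (insert t ∅)) = 0 := by
          rw [hA1, hB1]
          nth_rewrite 1 [hqB]
          rw [hqA]
          linear_combination hi - hiii - loB m q y s D' ∅ * hg
        refine ⟨?_, ?_⟩
        · rw [if_neg hnD, hr3, hr4]
          have hB1' : loB m q y s D (insert t ∅) = loB m q y s D' N +
              q * qn q r * loB m q y s D' ∅ := by
            rw [hB1, hqB]; ring
          linear_combination (-1 : R) * hCt - y * q * hi + y * (1 - q) * hB1' +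
            y * q * loB m q y s D' ∅ * hg
        · intro l hl hlt k hk
          by_cases hl' : l = t
          · subst hl'
            have hk0 : k = 0 := by
              rw [hft, insert_empty_eq, card_singleton] at hk
              omega
            subst hk0
            rw [hft]
            linear_combination hCt
          · have hlm : t ≤ m l := by
              rcases hlt with h1 | h1
              · exact absurd h1 hl'
              · exact h1
            have hlD' : l ∈ D' := mem_erase.mpr ⟨hl', hl⟩
            have hlN : l ∈ N := mem_filter.mpr ⟨hlD', hlm⟩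
            set L := D'.filter (fun v => l ≤ v) with hL
            have hLD : D.filter (fun v => l ≤ v) = insert t L := by
              rw [← hins, filter_insert, if_pos (hD't l hlD').le]
            have htL : t ∉ L := fun h1 => htD' (mem_filter.mp h1).1
            rw [hLD, card_insert_of_notMem htL] at hk
            have hlL : l ∈ L := mem_filter.mpr ⟨hlD', le_rfl⟩
            have hLpos : 0 < L.card := card_pos.mpr ⟨l, hlL⟩
            obtain ⟨k', rfl⟩ : ∃ k', k = k' + 1 := ⟨k - 1, by omega⟩
            have hk' : L.card = k' + 1 := by omega
            have hii := hCN l hlN k' hk'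
            rw [← hL] at hii
            have hLN : L ∪ N = N := by
              rw [union_eq_right]
              intro v hv
              rw [hL, mem_filter] at hv
              exact mem_filter.mpr ⟨hv.1, hlm.trans (hm hv.2)⟩
            have hA3 := hr1 L (filter_subset _ _)
            have hB3 := hr2 L (filter_subset _ _)
            rw [hLN] at hA3 hB3
            rw [hLD, hA3, hB3, hr4, hB1]
            have e1 : qn q (r + 1) * loA m q y s D' N + qn q r * (loA m q y s D' L -
                loA m q y s D' N) = q ^ r * loA m q y s D' N + qn q r * loA m q y s D' L := by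
              rw [hqA]; ring
            have e2 : ∀ z : R, qn q (r + 1) * loB m q y s D' N + q * qn q r * (z -
                loB m q y s D' N) = loB m q y s D' N + q * qn q r * z := by
              intro z; rw [hqB]; ring
            rw [e1, e2, e2]
            linear_combination q ^ (k' + 1) * hi + q * qn q r * hii -
              loB m q y s D' ∅ * q ^ (k' + 1) * hg

end LOCx

open LOCx in
theorem t_LOC (h : S_LREC) : S_LOC := by
  intro R _ m hm q y s t D hs ht hD
  obtain ⟨h1, h2⟩ := core h m hm q y s D.card t D rfl hs ht hD
  refine ⟨h1, ?_⟩
  have hf : D.filter (fun v => t ≤ v) = {t} := by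
    ext u
    rw [mem_filter, mem_singleton]
    refine ⟨fun hu => le_antisymm (hD u hu.1).2 hu.2, ?_⟩
    rintro rfl
    exact ⟨ht, le_rfl⟩
  have h3 := h2 t ht (Or.inl rfl) 0 (by rw [hf, card_singleton])
  rw [hf] at h3
  linear_combination (-1 : R) * h3

end Pool.Agent.SWC
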