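import Pool.Agent.Lib.MP_263316_co.Spec

/-!
MP_263316_co, task LREC: recursion of the local sums.
-/

set_option autoImplicit false

namespace Pool.Agent.SWC

open Finset

namespace LRECx

variable {R : Type} [CommRing R]

/-- the common form of the two local sums -/
def lo (E : Finset ℕ → ℕ → ℕ) (m : ℕ → ℕ) (q y : R) (s : ℕ) (D L : Finset ℕ) : R :=
  ∑ J ∈ (D.erase s).powerset.filter (fun J => ind m J ∧ Disjoint J L),
    y ^ J.card * q ^ (∑ v ∈ J, E (D \ J) v) * Pi m q s (D \ J)

theorem aL_insert {m : ℕ → ℕ} {X : Finset ℕ} {t v : ℕ} (h : v ≤ t) :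
    aL m (insert t X) v = aL m X v := by
  unfold aL
  rw [filter_insert, if_neg (by omega)]

theorem aR_insert {m : ℕ → ℕ} {X : Finset ℕ} {t v : ℕ} (h : v < t) (ht : t ∉ X) :
    aR m (insert t X) v = aR m X v + if t ≤ m v then 1 else 0 := by
  unfold aR
  rw [filter_insert]
  by_cases h1 : t ≤ m v
  · rw [if_pos ⟨h, h1⟩, if_pos h1, card_insert_of_notMem]
    exact fun h2 => ht (mem_filter.mp h2).1
  · rw [if_neg (fun h2 => h1 h2.2), if_neg h1, add_zero]

theorem aL_top {m : ℕ → ℕ} {X : Finset ℕ} {t : ℕ} (h : ∀ u ∈ X, u < t) :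
    aL m X t = (X.filter fun u => t ≤ m u).card := by
  unfold aL
  congr 1
  exact filter_congr fun u hu => ⟨fun h1 => h1.2, fun h1 => ⟨h u hu, h1⟩⟩

theorem aR_top {m : ℕ → ℕ} {X : Finset ℕ} {t : ℕ} (h : ∀ u ∈ X, u < t) : aR m X t = 0 := by
  unfold aR
  rw [card_eq_zero, filter_eq_empty_iff]
  intro u hu h1
  have := h u hu
  omega

theorem Pi_insert {m : ℕ → ℕ} {q : R} {s t : ℕ} {X : Finset ℕ} (h : ∀ u ∈ X, u < t)
    (hst : s ≠ t) :
    Pi m q s (insert t X) = qn q (X.filter fun u => t ≤ m u).card * Pi m q s X := by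
  have ht : t ∉ X := fun h1 => lt_irrefl _ (h t h1)
  unfold Pi
  rw [erase_insert_of_ne hst.symm, prod_insert (fun h1 => ht (mem_of_mem_erase h1)),
    aL_insert le_rfl, aL_top h]
  congr 1
  exact prod_congr rfl fun v hv => by rw [aL_insert (h v (mem_of_mem_erase hv)).le]

theorem filt {m : ℕ → ℕ} {s t : ℕ} {D' L : Finset ℕ} (ht : t ∉ D') (hst : s ≠ t) :
    ((insert t D').erase s).powerset.filter (fun J => ind m J ∧ Disjoint J (insert t L)) =
      (D'.erase s).powerset.filter (fun J => ind m J ∧ Disjoint J L) := by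
  ext J
  rw [erase_insert_of_ne hst.symm, mem_filter, mem_filter, mem_powerset, mem_powerset,
    disjoint_insert_right]
  constructor
  · rintro ⟨h1, h2, h3, h4⟩
    exact ⟨(subset_insert_iff_of_notMem h3).mp h1, h2, h4⟩
  · rintro ⟨h1, h2, h4⟩
    exact ⟨h1.trans (subset_insert _ _), h2, fun h3 => ht (mem_of_mem_erase (h1 h3)), h4⟩

/-- first recursion -/
theorem rec1 (E : Finset ℕ → ℕ → ℕ) (δ : ℕ) (m : ℕ → ℕ) (q y : R) (s t : ℕ)
    (D' : Finset ℕ) (hst : s ≠ t) (hlt : ∀ u ∈ D', u < t)
    (hE : ∀ X : Finset ℕ, t ∉ X → ∀ v, v < t → E (insert t X) v = E X v +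
      δ * if t ≤ m v then 1 else 0) (L : Finset ℕ) :
    lo E m q y s (insert t D') (insert t L) =
    qn q (D'.filter (fun u => t ≤ m u)).card * lo E m q y s D' (L ∪ D'.filter (fun u => t ≤ m u)) +
    q ^ δ * qn q ((D'.filter (fun u => t ≤ m u)).card - 1) *
      (lo E m q y s D' L - lo E m q y s D' (L ∪ D'.filter (fun u => t ≤ m u))) := by
  classical
  have ht : t ∉ D' := fun h1 => lt_irrefl _ (hlt t h1)
  set N := D'.filter (fun u => t ≤ m u) with hN
  set β := N.card with hβ
  have hA : lo E m q y s D' (L ∪ N) = ∑ J ∈ (D'.erase s).powerset.filter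
      (fun J => ind m J ∧ Disjoint J L), if Disjoint J N then
        y ^ J.card * q ^ (∑ v ∈ J, E (D' \ J) v) * Pi m q s (D' \ J) else 0 := by
    unfold lo
    rw [← sum_filter]
    refine sum_congr ?_ fun _ _ => rfl
    ext J
    simp only [mem_filter, disjoint_union_right]
    tauto
  rw [hA]
  have hB : ∀ a b c d : R, a * b + c * (d - b) = c * d + (a - c) * b := fun a b c d => by ring
  rw [hB]
  unfold lo
  rw [filt ht hst, mul_sum, mul_sum, ← sum_add_distrib]
  refine sum_congr rfl fun J hJ => ?_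
  obtain ⟨hJD, hJi, hJL⟩ := mem_filter.mp hJ
  rw [mem_powerset] at hJD
  have hJD' : J ⊆ D' := hJD.trans (erase_subset _ _)
  have htJ : t ∉ J := fun h => ht (hJD' h)
  have hX : insert t D' \ J = insert t (D' \ J) := insert_sdiff_of_notMem _ htJ
  have hXlt : ∀ u ∈ D' \ J, u < t := fun u hu => hlt u (mem_sdiff.mp hu).1
  have htX : t ∉ D' \ J := fun h => ht (mem_sdiff.mp h).1
  have hJN : J.filter (fun v => t ≤ m v) = J ∩ N := by
    ext v
    rw [mem_filter, mem_inter, hN, mem_filter]
    exact ⟨fun h => ⟨h.1, hJD' h.1, h.2⟩, fun h => ⟨h.1, h.2.2⟩⟩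
  have hcard : ((D' \ J).filter fun u => t ≤ m u).card = β - (J ∩ N).card := by
    have h1 : (D' \ J).filter (fun u => t ≤ m u) = N \ J := by
      ext v
      simp only [mem_filter, mem_sdiff, hN]
      tauto
    rw [h1, card_sdiff]
  have hsum : ∑ v ∈ J, E (insert t (D' \ J)) v =
      ∑ v ∈ J, E (D' \ J) v + δ * (J ∩ N).card := by
    rw [sum_congr rfl fun v hv => hE (D' \ J) htX v (hlt v (hJD' hv)), sum_add_distrib,
      ← mul_sum, ← hJN, card_filter]
  have hle : (J ∩ N).card ≤ 1 := by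
    rw [card_le_one]
    intro a ha b hb
    rw [mem_inter, hN, mem_filter] at ha hb
    by_contra hab
    rcases Nat.lt_or_gt_of_ne hab with h1 | h1
    · exact hJi a ha.1 b hb.1 ⟨h1, (hlt b hb.2.1).le.trans ha.2.2⟩
    · exact hJi b hb.1 a ha.1 ⟨h1, (hlt a ha.2.1).le.trans hb.2.2⟩
  rw [hX, Pi_insert hXlt hst, hcard, hsum]
  by_cases hd : Disjoint J N
  · rw [disjoint_iff_inter_eq_empty] at hd
    rw [if_pos (disjoint_iff_inter_eq_empty.mpr hd), hd, card_empty, mul_zero, add_zero,
      Nat.sub_zero]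
    ring
  · rw [if_neg hd]
    have h1 : (J ∩ N).card = 1 := by
      have h2 : (J ∩ N).card ≠ 0 := fun h3 =>
        hd (disjoint_iff_inter_eq_empty.mpr (card_eq_zero.mp h3))
      omega
    rw [h1, mul_one, pow_add]
    ring

/-- second recursion -/
theorem rec2 (E : Finset ℕ → ℕ → ℕ) (ε : ℕ) (m : ℕ → ℕ) (q y : R) (s t : ℕ)
    (D' : Finset ℕ) (hst : s ≠ t) (hlt : ∀ u ∈ D', u < t)
    (hE : ∀ J ⊆ D', Disjoint J (D'.filter (fun u => t ≤ m u)) → E (D' \ J) t = ε) :
    lo E m q y s (insert t D') ∅ = lo E m q y s (insert t D') {t} +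
      y * q ^ ε * lo E m q y s D' (D'.filter (fun u => t ≤ m u)) := by
  classical
  have ht : t ∉ D' := fun h1 => lt_irrefl _ (hlt t h1)
  set N := D'.filter (fun u => t ≤ m u) with hN
  unfold lo
  rw [← sum_filter_add_sum_filter_not (((insert t D').erase s).powerset.filter
    (fun J => ind m J ∧ Disjoint J ∅)) (fun J => t ∉ J)]
  congr 1
  · refine sum_congr ?_ fun _ _ => rfl
    ext J
    simp only [mem_filter, disjoint_singleton_right, disjoint_empty_right]
    tauto
  · rw [mul_sum]
    symm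
    refine sum_nbij' (fun J => insert t J) (fun J => J.erase t) ?_ ?_ ?_ ?_ ?_
    · intro J hJ
      obtain ⟨hJD, hJi, hJN⟩ := mem_filter.mp hJ
      rw [mem_powerset] at hJD
      have hJD' : J ⊆ D' := hJD.trans (erase_subset _ _)
      rw [mem_filter, mem_filter, mem_powerset, erase_insert_of_ne hst.symm]
      refine ⟨⟨insert_subset_insert _ hJD, ?_, disjoint_empty_right _⟩,
        fun h => h (mem_insert_self _ _)⟩
      intro u hu v hv huv
      rw [mem_insert] at hu hv
      rcases hu with rfl | hu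
      · rcases hv with rfl | hv
        · exact lt_irrefl _ huv.1
        · exact absurd (hlt v (hJD' hv)) (by omega)
      · rcases hv with rfl | hv
        · exact disjoint_left.mp hJN hu (mem_filter.mpr ⟨hJD' hu, huv.2⟩)
        · exact hJi u hu v hv huv
    · intro J hJ
      rw [mem_filter, mem_filter, mem_powerset, erase_insert_of_ne hst.symm, not_not] at hJ
      obtain ⟨⟨hJD, hJi, -⟩, htJ⟩ := hJ
      rw [mem_filter, mem_powerset]
      refine ⟨fun u hu => ?_, fun u hu v hv => hJi u (mem_of_mem_erase hu) v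
        (mem_of_mem_erase hv), ?_⟩
      · rcases mem_insert.mp (hJD (mem_of_mem_erase hu)) with h1 | h1
        · exact absurd h1 (ne_of_mem_erase hu)
        · exact h1
      · rw [disjoint_left]
        intro u hu huN
        rw [hN, mem_filter] at huN
        exact hJi u (mem_of_mem_erase hu) t htJ ⟨hlt u huN.1, huN.2⟩
    · intro J hJ
      obtain ⟨hJD, -, -⟩ := mem_filter.mp hJ
      exact erase_insert fun h => ht (mem_of_mem_erase (mem_powerset.mp hJD h))
    · intro J hJ
      rw [mem_filter, not_not] at hJ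
      exact insert_erase hJ.2
    · intro J hJ
      obtain ⟨hJD, hJi, hJN⟩ := mem_filter.mp hJ
      rw [mem_powerset] at hJD
      have hJD' : J ⊆ D' := hJD.trans (erase_subset _ _)
      have htJ : t ∉ J := fun h => ht (hJD' h)
      have hX : insert t D' \ insert t J = D' \ J := by
        ext u
        simp only [mem_sdiff, mem_insert]
        constructor
        · rintro ⟨h1 | h1, h2⟩
          · exact absurd (Or.inl h1) h2
          · exact ⟨h1, fun h3 => h2 (Or.inr h3)⟩
        · rintro ⟨h1, h2⟩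
          refine ⟨Or.inr h1, ?_⟩
          rintro (rfl | h3)
          · exact ht h1
          · exact h2 h3
      change _ = y ^ (insert t J).card * q ^ (∑ v ∈ insert t J, E (insert t D' \ insert t J) v) *
        Pi m q s (insert t D' \ insert t J)
      rw [hX, sum_insert htJ, card_insert_of_notMem htJ, hE J hJD' hJN, pow_add, pow_succ]
      ring

end LRECx

open LRECx in
theorem t_LREC : S_LREC := by
  intro R _ m _ q y s t D' hs _ hlt
  have hst : s ≠ t := (hlt s hs).ne
  refine ⟨fun L _ => ?_, fun L _ => ?_, ?_, ?_⟩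
  · have h := rec1 (aL m) 0 m q y s t D' hst hlt (fun X _ v hv => by
      rw [aL_insert hv.le, zero_mul, add_zero]) L
    rw [pow_zero, one_mul] at h
    exact h
  · have h := rec1 (aR m) 1 m q y s t D' hst hlt (fun X hX v hv => by
      rw [aR_insert hv hX, one_mul]) L
    rw [pow_one] at h
    exact h
  · refine rec2 (aL m) _ m q y s t D' hst hlt fun J hJ hd => ?_
    rw [aL_top fun u hu => hlt u (mem_sdiff.mp hu).1]
    congr 1
    ext u
    rw [mem_filter, mem_filter, mem_sdiff]
    exact ⟨fun h => ⟨h.1.1, h.2⟩, fun h => ⟨⟨h.1, fun h1 => disjoint_left.mp hd h1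
      (mem_filter.mpr h)⟩, h.2⟩⟩
  · have h := rec2 (aR m) 0 m q y s t D' hst hlt fun J hJ hd =>
      aR_top fun u hu => hlt u (mem_sdiff.mp hu).1
    rw [pow_zero, mul_one] at h
    exact h

end Pool.Agent.SWC
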