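import Pool.Agent.Lib.MP_263316_co.Spec

/-!
MP_263316_co: linear operators on the marked cone (helper86).
-/

set_option autoImplicit false

namespace Pool.Agent.SWC

open Finset

/-- TASK Mlin -/
theorem t_Mlin : S_Msmul → S_Mlin := by
  intro hsm N n d a b L hadd hsmul hgen F hF
  have h0 : L 0 = 0 := by
    have h1 := hadd 0 0
    rw [add_zero] at h1
    exact left_eq_add.1 h1
  refine AddSubmonoid.closure_induction (motive := fun F _ => L F ∈ MCone N (n + a) (d + b))
    ?_ ?_ ?_ hF
  · rintro F ⟨n', d', c, u, hu, hn, hd, rfl⟩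
    rw [hsmul]
    have h2 := hsm N (c + a) (c + b) n' d' u _ hu (hgen c)
    have e1 : n' + (c + a) = n + a := by omega
    have e2 : d' + (c + b) = d + b := by omega
    rw [e1, e2] at h2
    exact h2
  · rw [h0]
    exact AddSubmonoid.zero_mem _
  · intro F G _ _ h1 h2
    rw [hadd]
    exact AddSubmonoid.add_mem _ h1 h2

end Pool.Agent.SWC
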