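import Pool.Agent.Lib.MP_263316_co.Spec

/-!
MP_263316_co, part P: multiples of elements of the marked cone (Msmul).
-/

set_option autoImplicit false

namespace Pool.Agent.SWC

open Finset

theorem t_Msmul (h1 : S_Cmul) : S_Msmul := by
  intro N n d n' d' u F hu hF
  induction hF using AddSubmonoid.closure_induction with
  | zero =>
    have : (fun j => u * (0 : Fin N → AN N) j) = 0 := by funext j; simp
    rw [this]; exact AddSubmonoid.zero_mem _
  | add a b _ _ iha ihb =>
    have : (fun j => u * (a + b) j) = (fun j => u * a j) + (fun j => u * b j) := by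
      funext j; simp [mul_add]
    rw [this]; exact AddSubmonoid.add_mem _ iha ihb
  | mem a ha =>
    obtain ⟨n1, d1, c, v, hv, hn, hd, rfl⟩ := ha
    refine AddSubmonoid.subset_closure ⟨n' + n1, d' + d1, c, u * v, h1 N n' d' n1 d1 u v hu hv,
      by omega, by omega, ?_⟩
    funext j
    ring

end Pool.Agent.SWC
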