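import Pool.Agent.Lib.MP_263316_co.Spec

/-!
MP_263316_co, part P: the sum of a marked element lies in the cone (Msum).
-/

set_option autoImplicit false

namespace Pool.Agent.SWC

open Finset

private theorem msum_key (N c : ℕ) :
    qn (qq N) (c + 1) * es (xx N) (c + 1) ∈ Cone N (c + 1) c := by
  refine AddSubmonoid.subset_closure ⟨{c + 1}, qn (Polynomial.X : Polynomial ℤ) (c + 1),
    Multiset.sum_singleton _, AddSubmonoid.subset_closure ⟨0, c + 1, by omega, ?_⟩, ?_⟩
  · rw [pow_zero, one_mul]
  · rw [Multiset.map_singleton, Multiset.prod_singleton]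
    congr 1
    unfold qn qq
    rw [map_sum]
    exact Finset.sum_congr rfl fun i _ => (map_pow _ _ _).symm

theorem t_Msum (h1 : S_EHsum) (h2 : S_Cmul) : S_Msum := by
  intro N n d F hF
  induction hF using AddSubmonoid.closure_induction with
  | zero =>
    have : ∑ j, (0 : Fin N → AN N) j = 0 := Finset.sum_eq_zero fun _ _ => rfl
    rw [this]
    exact AddSubmonoid.zero_mem _
  | add a b _ _ iha ihb =>
    have : ∑ j, (a + b) j = ∑ j, a j + ∑ j, b j := Finset.sum_add_distrib
    rw [this]
    exact AddSubmonoid.add_mem _ iha ihb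
  | mem F hF =>
    obtain ⟨n', d', c, u, hu, hn, hd, rfl⟩ := hF
    rw [← Finset.mul_sum, h1]
    have h := h2 N n' d' (c + 1) c u _ hu (msum_key N c)
    have hn' : n' + (c + 1) = n := by omega
    rw [hn', hd] at h
    exact h

end Pool.Agent.SWC
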