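import Pool.Agent.Lib.MP_263316_co.Spec

/-!
MP_263316_co: exchange of sums (helper86).
-/

set_option autoImplicit false

namespace Pool.Agent.SWC

open Finset

/-- TASK PC -/
theorem t_PC : S_PC := by
  intro R _ N r f
  rw [Finset.sum_sigma', Finset.sum_sigma']
  refine Finset.sum_bij'
    (fun p _ => (⟨insert p.1 p.2, p.1⟩ : (_ : Finset (Fin N)) × Fin N))
    (fun p _ => (⟨p.2, p.1.erase p.2⟩ : (_ : Fin N) × Finset (Fin N))) ?_ ?_ ?_ ?_ ?_
  · rintro ⟨k, C⟩ h
    simp only [Finset.mem_sigma, Finset.mem_univ, true_and, Finset.mem_powersetCard] at h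
    have hk : k ∉ C := fun h' => Finset.notMem_erase k _ (h.1 h')
    simp only [Finset.mem_sigma, Finset.mem_powersetCard, Finset.subset_univ, true_and,
      Finset.mem_insert_self, and_true]
    rw [Finset.card_insert_of_notMem hk, h.2]
  · rintro ⟨C, k⟩ h
    simp only [Finset.mem_sigma, Finset.mem_powersetCard] at h
    simp only [Finset.mem_sigma, Finset.mem_univ, true_and, Finset.mem_powersetCard]
    refine ⟨Finset.erase_subset_erase _ (Finset.subset_univ _), ?_⟩
    rw [Finset.card_erase_of_mem h.2, h.1.2]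
    rfl
  · rintro ⟨k, C⟩ h
    simp only [Finset.mem_sigma, Finset.mem_univ, true_and, Finset.mem_powersetCard] at h
    have hk : k ∉ C := fun h' => Finset.notMem_erase k _ (h.1 h')
    simp only [Finset.erase_insert hk]
  · rintro ⟨C, k⟩ h
    simp only [Finset.mem_sigma, Finset.mem_powersetCard] at h
    simp only [Finset.insert_erase h.2]
  · rintro ⟨k, C⟩ h
    simp only [Finset.mem_sigma, Finset.mem_univ, true_and, Finset.mem_powersetCard] at h
    have hk : k ∉ C := fun h' => Finset.notMem_erase k _ (h.1 h')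
    simp only [Finset.erase_insert hk]

end Pool.Agent.SWC
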