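import Pool.Agent.Lib.MP_263316_co.Spec

/-!
MP_263316_co: the product Pi (PIM).
-/

set_option autoImplicit false

namespace Pool.Agent.SWC

open Finset

namespace PIMx

theorem qn_mem {k : ℕ} (hk : 1 ≤ k) : qn (Polynomial.X : Polynomial ℤ) k ∈ PU (k - 1) :=
  AddSubmonoid.subset_closure ⟨0, k, by omega, by rw [pow_zero, one_mul]⟩

theorem prod_mem (h : S_PUmul) (a : ℕ → ℕ) (T : Finset ℕ) : (∀ v ∈ T, 1 ≤ a v) →
    ∏ v ∈ T, qn (Polynomial.X : Polynomial ℤ) (a v) ∈ PU (∑ v ∈ T, (a v - 1)) := by
  induction T using Finset.induction_on with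
  | empty =>
    intro _
    have h1 := qn_mem (k := 1) le_rfl
    have h2 : qn (Polynomial.X : Polynomial ℤ) 1 = 1 := by
      simp [qn]
    rw [h2] at h1
    exact h1
  | insert v T hv ih =>
    intro ha
    rw [Finset.prod_insert hv, Finset.sum_insert hv]
    exact h _ _ _ _ (qn_mem (ha v (Finset.mem_insert_self v T)))
      (ih fun u hu => ha u (Finset.mem_insert_of_mem hu))

end PIMx

theorem t_PIM (h : S_PUmul) : S_PIM := by
  intro m S s hs hmin
  by_cases hz : ∃ v ∈ S.erase s, aL m S v = 0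
  · left
    obtain ⟨v, hv, hv0⟩ := hz
    unfold Pi
    refine Finset.prod_eq_zero hv ?_
    rw [hv0]
    simp [qn]
  · right
    have ha : ∀ v ∈ S.erase s, 1 ≤ aL m S v := by
      intro v hv
      by_contra hc
      exact hz ⟨v, hv, by omega⟩
    refine ⟨∑ v ∈ S.erase s, (aL m S v - 1), ?_, PIMx.prod_mem h (aL m S) (S.erase s) ha⟩
    have h1 : ∑ v ∈ S.erase s, (aL m S v - 1) + (S.erase s).card = ∑ v ∈ S.erase s, aL m S v := by
      rw [Finset.card_eq_sum_ones, ← Finset.sum_add_distrib]
      exact Finset.sum_congr rfl fun v hv => Nat.sub_add_cancel (ha v hv)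
    have h2 : (S.erase s).card + 1 = S.card := Finset.card_erase_add_one hs
    have h3 : aL m S s = 0 := by
      unfold aL
      rw [Finset.card_eq_zero, Finset.filter_eq_empty_iff]
      intro u hu hc
      have := hmin u hu
      omega
    have h4 : eE m S = ∑ v ∈ S.erase s, aL m S v := by
      unfold eE
      rw [← Finset.add_sum_erase S (aL m S) hs, h3, zero_add]
    omega

end Pool.Agent.SWC
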