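import Pool.Agent.Lib.MP_263316_co.Spec

/-!
MP_263316_co: coefficients of the elements of `PU` (helper86).
-/

set_option autoImplicit false

namespace Pool.Agent.SWC

open Finset

namespace PUcoeffAux

theorem coeff_gen (i k r : ℕ) :
    (Polynomial.X ^ i * qn (Polynomial.X : Polynomial ℤ) k).coeff r =
      if i ≤ r ∧ r < i + k then 1 else 0 := by
  rw [Polynomial.coeff_X_pow_mul']
  unfold qn
  rw [Polynomial.finsetSum_coeff]
  simp only [Polynomial.coeff_X_pow]
  by_cases h1 : i ≤ r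
  · rw [if_pos h1, Finset.sum_ite_eq]
    by_cases h2 : r < i + k
    · rw [if_pos (Finset.mem_range.2 (by omega)), if_pos ⟨h1, h2⟩]
    · rw [if_neg (fun h => h2 (by have := Finset.mem_range.1 h; omega)),
        if_neg (fun h => h2 h.2)]
  · rw [if_neg h1, if_neg (fun h => h1 h.1)]

end PUcoeffAux

/-- TASK PUcoeff -/
theorem t_PUcoeff : S_PUcoeff := by
  intro d p hp
  refine AddSubmonoid.closure_induction (motive := fun p _ => (∀ i : ℕ, 0 ≤ p.coeff i) ∧
    (∀ i : ℕ, d < i → p.coeff i = 0) ∧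
    (∀ i : ℕ, i ≤ d → p.coeff i = p.coeff (d - i)) ∧
    (∀ i j : ℕ, i ≤ j → 2 * j ≤ d → p.coeff i ≤ p.coeff j)) ?_ ?_ ?_ hp
  · rintro p ⟨i, k, h, rfl⟩
    refine ⟨fun r => ?_, fun r hr => ?_, fun r hr => ?_, fun r s hrs hs => ?_⟩
    · rw [PUcoeffAux.coeff_gen]
      split_ifs <;> norm_num
    · rw [PUcoeffAux.coeff_gen, if_neg (by omega)]
    · rw [PUcoeffAux.coeff_gen, PUcoeffAux.coeff_gen]
      by_cases h1 : i ≤ r ∧ r < i + k
      · rw [if_pos h1, if_pos (by omega)]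
      · rw [if_neg h1, if_neg (by omega)]
    · rw [PUcoeffAux.coeff_gen, PUcoeffAux.coeff_gen]
      by_cases h1 : i ≤ r ∧ r < i + k
      · rw [if_pos h1, if_pos (by omega)]
      · rw [if_neg h1]
        split_ifs <;> norm_num
  · refine ⟨fun r => ?_, fun r _ => ?_, fun r _ => ?_, fun r s _ _ => ?_⟩ <;> simp
  · rintro a b _ _ ⟨a1, a2, a3, a4⟩ ⟨b1, b2, b3, b4⟩
    refine ⟨fun r => ?_, fun r hr => ?_, fun r hr => ?_, fun r s hrs hs => ?_⟩
    · rw [Polynomial.coeff_add]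
      exact add_nonneg (a1 r) (b1 r)
    · rw [Polynomial.coeff_add, a2 r hr, b2 r hr, add_zero]
    · rw [Polynomial.coeff_add, Polynomial.coeff_add, a3 r hr, b3 r hr]
    · rw [Polynomial.coeff_add, Polynomial.coeff_add]
      exact add_le_add (a4 r s hrs hs) (b4 r s hrs hs)

end Pool.Agent.SWC
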