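import Pool.Agent.Lib.MP_263316_co.Spec

/-!
MP_263316_co: regrouping of the sums.
-/

set_option autoImplicit false

namespace Pool.Agent.SWC

open Finset

namespace REGaux

variable {R : Type} [CommRing R] {N : ℕ}

theorem regroup (m : ℕ → ℕ) (U : Finset ℕ) (s : ℕ) (p : Finset ℕ → Prop) [DecidablePred p]
    (F : Finset ℕ → Finset ℕ → R) :
    ∑ S ∈ U.powerset.filter (fun S => s ∈ S ∧ p S),
      ∑ J ∈ (U \ S).powerset.filter (fun J => ind m J), F S J =
    ∑ D ∈ U.powerset.filter (fun D => s ∈ D),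
      ∑ J ∈ (D.erase s).powerset.filter (fun J => ind m J ∧ p (D \ J)), F (D \ J) J := by
  rw [Finset.sum_sigma', Finset.sum_sigma']
  have key : ∀ a : (_ : Finset ℕ) × Finset ℕ, a.2 ⊆ U \ a.1 → (a.1 ∪ a.2) \ a.2 = a.1 := by
    intro a ha
    ext v
    simp only [Finset.mem_sdiff, Finset.mem_union]
    constructor
    · rintro ⟨h1 | h1, h2⟩
      · exact h1
      · exact absurd h1 h2
    · intro h
      exact ⟨Or.inl h, fun h2 => (Finset.mem_sdiff.1 (ha h2)).2 h⟩
  refine Finset.sum_bij' (fun a _ => ⟨a.1 ∪ a.2, a.2⟩) (fun a _ => ⟨a.1 \ a.2, a.2⟩) ?_ ?_ ?_ ?_ ?_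
  · rintro ⟨S, J⟩ ha
    simp only [Finset.mem_sigma, Finset.mem_filter, Finset.mem_powerset] at ha ⊢
    obtain ⟨⟨hS, hs, hp⟩, hJ, hi⟩ := ha
    refine ⟨⟨Finset.union_subset hS (hJ.trans Finset.sdiff_subset), Finset.mem_union_left _ hs⟩,
      ?_, hi, ?_⟩
    · intro v hv
      rw [Finset.mem_erase]
      refine ⟨?_, Finset.mem_union_right _ hv⟩
      rintro rfl
      exact (Finset.mem_sdiff.1 (hJ hv)).2 hs
    · rw [key ⟨S, J⟩ hJ]
      exact hp
  · rintro ⟨D, J⟩ ha
    simp only [Finset.mem_sigma, Finset.mem_filter, Finset.mem_powerset] at ha ⊢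
    obtain ⟨⟨hD, hs⟩, hJ, hi, hp⟩ := ha
    refine ⟨⟨Finset.sdiff_subset.trans hD, Finset.mem_sdiff.2 ⟨hs, ?_⟩, hp⟩, ?_, hi⟩
    · intro h
      exact (Finset.mem_erase.1 (hJ h)).1 rfl
    · intro v hv
      rw [Finset.mem_sdiff]
      exact ⟨hD (Finset.mem_of_mem_erase (hJ hv)), fun h => (Finset.mem_sdiff.1 h).2 hv⟩
  · rintro ⟨S, J⟩ ha
    simp only [Finset.mem_sigma, Finset.mem_filter, Finset.mem_powerset] at ha
    obtain ⟨_, hJ, _⟩ := ha
    have h := key ⟨S, J⟩ hJ
    simp only at h ⊢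
    rw [h]
  · rintro ⟨D, J⟩ ha
    simp only [Finset.mem_sigma, Finset.mem_filter, Finset.mem_powerset] at ha
    obtain ⟨_, hJ, _⟩ := ha
    have h : D \ J ∪ J = D := Finset.sdiff_union_of_subset (hJ.trans (Finset.erase_subset _ _))
    simp only
    rw [h]
  · rintro ⟨S, J⟩ ha
    simp only [Finset.mem_sigma, Finset.mem_filter, Finset.mem_powerset] at ha
    obtain ⟨_, hJ, _⟩ := ha
    have h := key ⟨S, J⟩ hJ
    simp only at h ⊢
    rw [h]

/-- the local sum with a general exponent -/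
def lo (m : ℕ → ℕ) (A : Finset ℕ → ℕ → ℕ) (q y : R) (s : ℕ) (D L : Finset ℕ) : R :=
  ∑ J ∈ (D.erase s).powerset.filter (fun J => ind m J ∧ Disjoint J L),
    y ^ J.card * q ^ (∑ v ∈ J, A (D \ J) v) * Pi m q s (D \ J)

theorem reg (m : ℕ → ℕ) (A : Finset ℕ → ℕ → ℕ) (q z : R) (x : Fin N → R) (μ : ℕ → Fin N → R)
    (U : Finset ℕ) (s : ℕ) (i : Fin N) (p : Finset ℕ → Prop) [DecidablePred p] :
    ∑ S ∈ U.powerset.filter (fun S => s ∈ S ∧ p S), Pi m q s S * z ^ (U.card - S.card) *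
      (∑ J ∈ (U \ S).powerset.filter (fun J => ind m J),
        (∏ v ∈ J, (x i * μ v i * q ^ A S v)) * ZD m q x μ U (S ∪ J) i) =
    ∑ D ∈ U.powerset.filter (fun D => s ∈ D), z ^ (U.card - D.card) *
      (∑ J ∈ (D.erase s).powerset.filter (fun J => ind m J ∧ p (D \ J)),
        (z * x i) ^ J.card * q ^ (∑ v ∈ J, A (D \ J) v) * Pi m q s (D \ J) * ∏ v ∈ J, μ v i) *
      ZD m q x μ U D i := by
  have h := regroup (R := R) m U s p (fun S J => Pi m q s S * z ^ (U.card - S.card) *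
    ((∏ v ∈ J, (x i * μ v i * q ^ A S v)) * ZD m q x μ U (S ∪ J) i))
  simp only [Finset.mul_sum]
  rw [h]
  refine Finset.sum_congr rfl fun D hD => ?_
  rw [Finset.mem_filter, Finset.mem_powerset] at hD
  rw [Finset.sum_mul]
  refine Finset.sum_congr rfl fun J hJ => ?_
  rw [Finset.mem_filter, Finset.mem_powerset] at hJ
  have hJD : J ⊆ D := hJ.1.trans (Finset.erase_subset _ _)
  have h1 : D \ J ∪ J = D := Finset.sdiff_union_of_subset hJD
  have h2 : U.card - (D \ J).card = (U.card - D.card) + J.card := by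
    have e1 := Finset.card_sdiff_add_card_eq_card hJD
    have e2 := Finset.card_le_card hD.1
    omega
  rw [h1, h2, Finset.prod_mul_distrib, Finset.prod_mul_distrib, Finset.prod_const,
    Finset.prod_pow_eq_pow_sum, pow_add, mul_pow]
  ring

theorem prod_mu (t : ℕ) (i j : Fin N) (J : Finset ℕ) :
    ∏ v ∈ J, (mu t j v i : R) = if t ∈ J then (if i = j then 1 else 0) else 1 := by
  unfold mu
  rw [Finset.prod_ite_eq']

/-- first kind: `t ∉ S` -/
theorem inner0 (m : ℕ → ℕ) (A : Finset ℕ → ℕ → ℕ) (q y : R) (s t : ℕ) (hst : s < t) (i j : Fin N)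
    (D : Finset ℕ) :
    (∑ J ∈ (D.erase s).powerset.filter (fun J => ind m J ∧ t ∉ D \ J),
        y ^ J.card * q ^ (∑ v ∈ J, A (D \ J) v) * Pi m q s (D \ J) * ∏ v ∈ J, (mu t j v i : R)) =
      if t ∈ D then (if i = j then lo m A q y s D ∅ - lo m A q y s D {t} else 0)
        else lo m A q y s D ∅ := by
  by_cases ht : t ∈ D
  · rw [if_pos ht]
    have e1 : (∑ J ∈ (D.erase s).powerset.filter (fun J => ind m J ∧ t ∉ D \ J),
        y ^ J.card * q ^ (∑ v ∈ J, A (D \ J) v) * Pi m q s (D \ J) * ∏ v ∈ J, (mu t j v i : R))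
        = ∑ J ∈ (D.erase s).powerset.filter (fun J => ind m J ∧ t ∉ D \ J),
        y ^ J.card * q ^ (∑ v ∈ J, A (D \ J) v) * Pi m q s (D \ J) *
          (if i = j then (1 : R) else 0) := by
      refine Finset.sum_congr rfl fun J hJ => ?_
      rw [Finset.mem_filter] at hJ
      have h1 : t ∈ J := by
        by_contra h
        exact hJ.2.2 (Finset.mem_sdiff.2 ⟨ht, h⟩)
      rw [prod_mu, if_pos h1]
    rw [e1]
    by_cases hij : i = j
    · simp only [if_pos hij, mul_one]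
      rw [eq_sub_iff_add_eq]
      unfold lo
      rw [← Finset.sum_union]
      · apply Finset.sum_congr _ fun _ _ => rfl
        ext J
        simp only [Finset.mem_union, Finset.mem_filter, Finset.mem_powerset, Finset.mem_sdiff,
          Finset.disjoint_empty_right, Finset.disjoint_singleton_right]
        constructor
        · rintro (h | h)
          · exact ⟨h.1, h.2.1, trivial⟩
          · exact ⟨h.1, h.2.1, trivial⟩
        · rintro ⟨h1, h2, _⟩
          by_cases h3 : t ∈ J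
          · exact Or.inl ⟨h1, h2, fun h => h.2 h3⟩
          · exact Or.inr ⟨h1, h2, h3⟩
      · rw [Finset.disjoint_left]
        intro J h1 h2
        simp only [Finset.mem_filter, Finset.mem_powerset, Finset.mem_sdiff,
          Finset.disjoint_singleton_right] at h1 h2
        exact h1.2.2 ⟨ht, h2.2.2⟩
    · simp only [if_neg hij, mul_zero, Finset.sum_const_zero]
  · rw [if_neg ht]
    unfold lo
    refine Finset.sum_congr ?_ fun J hJ => ?_
    · ext J
      simp only [Finset.mem_filter, Finset.mem_powerset, Finset.mem_sdiff,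
        Finset.disjoint_empty_right]
      constructor
      · rintro ⟨h1, h2, _⟩
        exact ⟨h1, h2, trivial⟩
      · rintro ⟨h1, h2, _⟩
        exact ⟨h1, h2, fun h => ht h.1⟩
    · rw [Finset.mem_filter, Finset.mem_powerset] at hJ
      have h1 : t ∉ J := fun h => ht (Finset.mem_of_mem_erase (hJ.1 h))
      rw [prod_mu, if_neg h1, mul_one]

/-- second kind: `t ∈ S` -/
theorem inner1 (m : ℕ → ℕ) (A : Finset ℕ → ℕ → ℕ) (q y : R) (s t : ℕ) (D : Finset ℕ)
    (ht : t ∈ D) :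
    (∑ J ∈ (D.erase s).powerset.filter (fun J => ind m J ∧ t ∈ D \ J),
        y ^ J.card * q ^ (∑ v ∈ J, A (D \ J) v) * Pi m q s (D \ J) * ∏ _v ∈ J, (1 : R)) =
      lo m A q y s D {t} := by
  unfold lo
  refine Finset.sum_congr ?_ fun J hJ => ?_
  · ext J
    simp only [Finset.mem_filter, Finset.mem_powerset, Finset.mem_sdiff,
      Finset.disjoint_singleton_right]
    constructor
    · rintro ⟨h1, h2, _, h3⟩
      exact ⟨h1, h2, h3⟩
    · rintro ⟨h1, h2, h3⟩
      exact ⟨h1, h2, ht, h3⟩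
  · rw [Finset.prod_const_one, mul_one]

theorem ZD_mu (m : ℕ → ℕ) (q : R) (x : Fin N → R) (U D : Finset ℕ) (t : ℕ) (ht : t ∈ D)
    (i j : Fin N) : ZD m q x (fun _ _ => 1) U D i = ZD m q x (mu t j) U D i := by
  unfold ZD
  refine Z_congr fun v hv k => ?_
  have hvt : v ≠ t := by
    rintro rfl
    exact (Finset.mem_sdiff.1 hv).2 ht
  unfold mu
  rw [if_neg hvt]

theorem part0 (m : ℕ → ℕ) (A : Finset ℕ → ℕ → ℕ) (q z : R) (x : Fin N → R)
    (U : Finset ℕ) (s t : ℕ) (hst : s < t) (i j : Fin N) (ZZ : Finset ℕ → R)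
    (hZ : ∀ S, ZZ S = ∑ J ∈ (U \ S).powerset.filter (fun J => ind m J),
      (∏ v ∈ J, (x i * mu t j v i * q ^ A S v)) * ZD m q x (mu t j) U (S ∪ J) i) :
    ∑ S ∈ PW0 U s t, Pi m q s S * z ^ (U.card - S.card) * ZZ S =
    ∑ D ∈ U.powerset.filter (fun D => s ∈ D), z ^ (U.card - D.card) *
      (if t ∈ D then (if i = j then lo m A q (z * x i) s D ∅ - lo m A q (z * x i) s D {t} else 0)
        else lo m A q (z * x i) s D ∅) * ZD m q x (mu t j) U D i := by
  unfold PW0
  simp only [hZ]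
  rw [reg m A q z x (mu t j) U s i (fun S => t ∉ S)]
  refine Finset.sum_congr rfl fun D _ => ?_
  rw [inner0 m A q (z * x i) s t hst i j D]

theorem part1 (m : ℕ → ℕ) (A : Finset ℕ → ℕ → ℕ) (q z : R) (x : Fin N → R)
    (U : Finset ℕ) (s t : ℕ) (i j : Fin N) (ZZ : Finset ℕ → R)
    (hZ : ∀ S, ZZ S = ∑ J ∈ (U \ S).powerset.filter (fun J => ind m J),
      (∏ v ∈ J, (x i * (fun (_ : ℕ) (_ : Fin N) => (1 : R)) v i * q ^ A S v)) *
        ZD m q x (fun _ _ => 1) U (S ∪ J) i) :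
    ∑ S ∈ PW1 U s t, Pi m q s S * z ^ (U.card - S.card) * ZZ S =
    ∑ D ∈ U.powerset.filter (fun D => s ∈ D ∧ t ∈ D), z ^ (U.card - D.card) *
      lo m A q (z * x i) s D {t} * ZD m q x (mu t j) U D i := by
  unfold PW1
  simp only [hZ]
  rw [reg m A q z x (fun _ _ => 1) U s i (fun S => t ∈ S)]
  have h1 : U.powerset.filter (fun D => s ∈ D ∧ t ∈ D)
      = (U.powerset.filter (fun D => s ∈ D)).filter (fun D => t ∈ D) := by
    rw [Finset.filter_filter]
  rw [h1, Finset.sum_filter (fun D => t ∈ D)]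
  refine Finset.sum_congr rfl fun D _ => ?_
  by_cases ht : t ∈ D
  · rw [if_pos ht, inner1 m A q (z * x i) s t D ht, ZD_mu m q x U D t ht i j]
  · rw [if_neg ht]
    have h2 : (D.erase s).powerset.filter (fun J => ind m J ∧ t ∈ D \ J) = ∅ := by
      rw [Finset.filter_eq_empty_iff]
      rintro J _ ⟨_, h⟩
      exact ht (Finset.mem_sdiff.1 h).1
    rw [h2, Finset.sum_empty, mul_zero, zero_mul]

end REGaux

open REGaux in
theorem t_REG (hCS1 : S_CS1) (hCS2 : S_CS2) : S_REG := by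
  intro R _ N m q z x U s t _ _ hst i j
  refine ⟨?_, ?_, ?_, ?_⟩
  · exact part0 m (aL m) q z x U s t hst i j (fun S => ZS m q x (mu t j) U S i)
      (fun S => hCS1 R N m q x (mu t j) U S i)
  · exact part0 m (aR m) q z x U s t hst i j (fun S => ZS m q x (mu t j) U S ((i : ℕ) + 1))
      (fun S => hCS2 R N m q x (mu t j) U S i)
  · exact part1 m (aL m) q z x U s t i j (fun S => ZS m q x (fun _ _ => 1) U S i)
      (fun S => hCS1 R N m q x (fun _ _ => 1) U S i)
  · exact part1 m (aR m) q z x U s t i j (fun S => ZS m q x (fun _ _ => 1) U S ((i : ℕ) + 1))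
      (fun S => hCS2 R N m q x (fun _ _ => 1) U S i)

end Pool.Agent.SWC
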