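import Pool.Agent.Lib.MP_263316_co.Spec

/-!
MP_263316_co: sum of `q ^ rank` over a finite set.
-/

set_option autoImplicit false

namespace Pool.Agent.SWC

open Finset

/-- TASK RK -/
theorem t_RK : S_RK := by
  intro R _ N q C
  induction C using Finset.induction_on_max with
  | empty => simp [qn]
  | insert a s ha ih =>
    have hna : a ∉ s := fun h => lt_irrefl a (ha a h)
    rw [Finset.sum_insert hna, Finset.card_insert_of_notMem hna]
    have h1 : (insert a s).filter (fun i => i < a) = s := by
      ext i
      simp only [Finset.mem_filter, Finset.mem_insert]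
      constructor
      · rintro ⟨h | h, h'⟩
        · exact absurd h' (by rw [h]; exact lt_irrefl a)
        · exact h
      · intro h
        exact ⟨Or.inr h, ha i h⟩
    have h2 : ∀ k ∈ s, (insert a s).filter (fun i => i < k) = s.filter (fun i => i < k) := by
      intro k hk
      ext i
      simp only [Finset.mem_filter, Finset.mem_insert]
      constructor
      · rintro ⟨h | h, h'⟩
        · exact absurd (ha k hk) (by rw [h] at h'; exact not_lt_of_gt h')
        · exact ⟨h, h'⟩
      · rintro ⟨h, h'⟩
        exact ⟨Or.inr h, h'⟩
    rw [h1, Finset.sum_congr rfl (fun k hk => by rw [h2 k hk]), ih]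
    unfold qn
    rw [Finset.sum_range_succ, add_comm]

end Pool.Agent.SWC
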