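import Pool.Agent.Lib.MP_263316_co.Spec

/-!
MP_263316_co: coefficient extraction (STAR).
-/

set_option autoImplicit false

namespace Pool.Agent.SWC

open Finset

namespace StarAux

variable {R : Type} [CommRing R] {N : ℕ}

theorem qn_C (q : R) (n : ℕ) : qn (Polynomial.C q) n = Polynomial.C (qn q n) := by
  unfold qn
  rw [map_sum]
  exact Finset.sum_congr rfl fun i _ => by rw [map_pow]

theorem Pi_C (m : ℕ → ℕ) (q : R) (s : ℕ) (S : Finset ℕ) :
    Pi m (Polynomial.C q) s S = Polynomial.C (Pi m q s S) := by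
  unfold Pi
  rw [map_prod]
  exact Finset.prod_congr rfl fun i _ => by rw [qn_C]

theorem FF_C (m : ℕ → ℕ) (q : R) (x : Fin N → R) (U : Finset ℕ) (t : ℕ) (j : Fin N) :
    FF m (Polynomial.C q) (fun k => Polynomial.C (x k)) U t j =
      Polynomial.C (FF m q x U t j) := by
  unfold FF
  rw [Z_map]
  refine Z_congr fun v _ k => ?_
  rw [map_mul]
  congr 1
  by_cases hv : v = t
  · by_cases hk : k = j
    · simp [hv, hk]
    · simp [hv, hk]
  · simp [hv]

theorem XX_C (m : ℕ → ℕ) (q : R) (x : Fin N → R) (U : Finset ℕ) :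
    XX m (Polynomial.C q) (fun k => Polynomial.C (x k)) U =
      Polynomial.C (XX m q x U) := by
  unfold XX
  rw [Z_map]

theorem KK_C (m : ℕ → ℕ) (q : R) (x : Fin N → R) (U : Finset ℕ) (s t : ℕ) (i j : Fin N) :
    KK m (Polynomial.C q) (fun k => Polynomial.C (x k)) U s t i j =
      Polynomial.C (KK m q x U s t i j) := by
  unfold KK
  rw [Z_map]
  refine Z_congr fun v _ k => ?_
  rw [map_mul, map_mul]
  have h1 : (if v = s then (if k = i then 1 else 0) else 1 : Polynomial R) =
      Polynomial.C (if v = s then (if k = i then 1 else 0) else 1) := by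
    by_cases hv : v = s
    · by_cases hk : k = i
      · simp [hv, hk]
      · simp [hv, hk]
    · simp [hv]
  have h2 : (mu t j v k : Polynomial R) = Polynomial.C (mu t j v k) := by
    unfold mu
    by_cases hv : v = t
    · by_cases hk : k = j
      · simp [hv, hk]
      · simp [hv, hk]
    · simp [hv]
  rw [h1, h2]

/-- coefficient of a product with a sum of monomials -/
theorem coeff_sum (F : Finset (Finset ℕ)) (n c : ℕ) (hF : ∀ S ∈ F, S.card ≤ n)
    (E : Polynomial R) (a : Finset ℕ → R) :
    (E * ∑ S ∈ F, Polynomial.C (a S) * Polynomial.X ^ (n - S.card)).coeff (n + c) =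
      ∑ S ∈ F, a S * E.coeff (c + S.card) := by
  rw [Finset.mul_sum, Polynomial.finsetSum_coeff]
  refine Finset.sum_congr rfl fun S hS => ?_
  have h := hF S hS
  have h1 : n + c = (c + S.card) + (n - S.card) := by omega
  have h2 : E * (Polynomial.C (a S) * Polynomial.X ^ (n - S.card)) =
      Polynomial.C (a S) * E * Polynomial.X ^ (n - S.card) := by ring
  rw [h1, h2, Polynomial.coeff_mul_X_pow, Polynomial.coeff_C_mul]

/-- coefficient of a sum of monomials -/
theorem coeff_sum' (F : Finset (Finset ℕ)) (n r : ℕ) (hF : ∀ S ∈ F, S.card ≤ n) (hr : r ≤ n)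
    (a : Finset ℕ → R) :
    (∑ S ∈ F, Polynomial.C (a S) * Polynomial.X ^ (n - S.card)).coeff (n - r) =
      ∑ S ∈ F.filter (fun S => S.card = r), a S := by
  rw [Polynomial.finsetSum_coeff, Finset.sum_filter]
  refine Finset.sum_congr rfl fun S hS => ?_
  have h := hF S hS
  rw [Polynomial.coeff_C_mul, Polynomial.coeff_X_pow]
  by_cases h1 : S.card = r
  · rw [if_pos h1, h1, if_pos rfl, mul_one]
  · have h2 : ¬ (n - r = n - S.card) := by omega
    rw [if_neg h1, if_neg h2, mul_zero]

/-- the kernel without the factor `x i` -/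
theorem TT_eq (m : ℕ → ℕ) (q : R) (x : Fin N → R) (U : Finset ℕ) (s t : ℕ) (hs : s ∈ U)
    (hst : s ≠ t) (f : Fin N → R) (j : Fin N) :
    TT m q x U s t f j = ∑ i, f i * Z m q U (fun u k => if u = s then (if k = i then 1 else 0)
      else x k * mu t j u k) := by
  unfold TT
  rw [Z_vertex hs]
  refine Finset.sum_congr rfl fun i _ => ?_
  rw [if_pos rfl, if_neg hst, mul_one]
  congr 1
  refine Z_congr fun u _ k => ?_
  by_cases hu : u = s
  · rw [if_pos hu, if_pos hu]
  · rw [if_neg hu, if_neg hu, if_neg hu]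
    rfl

theorem KK_eq (m : ℕ → ℕ) (q : R) (x : Fin N → R) (U : Finset ℕ) (s t : ℕ) (hs : s ∈ U)
    (hst : s ≠ t) (i j : Fin N) :
    KK m q x U s t i j = x i * Z m q U (fun u k => if u = s then (if k = i then 1 else 0)
      else x k * mu t j u k) := by
  unfold KK
  rw [Z_vertex hs, Finset.sum_eq_single i]
  · unfold mu
    rw [if_pos rfl, if_pos rfl, if_neg hst, mul_one, mul_one]
    congr 1
    refine Z_congr fun u _ k => ?_
    by_cases hu : u = s
    · rw [if_pos hu, if_pos hu]
    · rw [if_neg hu, if_neg hu, if_neg hu, mul_one]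
  · intro b _ hb
    rw [if_pos rfl, if_neg hb, mul_zero, zero_mul, zero_mul]
  · intro h
    exact absurd (mem_univ i) h

theorem mem_PW0 {U S : Finset ℕ} {s t : ℕ} (h : S ∈ PW0 U s t) : S ⊆ U ∧ s ∈ S := by
  unfold PW0 at h
  rw [mem_filter, mem_powerset] at h
  exact ⟨h.1, h.2.1⟩

theorem mem_PW1 {U S : Finset ℕ} {s t : ℕ} (h : S ∈ PW1 U s t) : S ⊆ U ∧ s ∈ S := by
  unfold PW1 at h
  rw [mem_filter, mem_powerset] at h
  exact ⟨h.1, h.2.1⟩

theorem ne_zero' [Nontrivial R] (a : R) : (1 + Polynomial.X * Polynomial.C a : Polynomial R) ≠ 0 := by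
  intro h
  have h1 := congrArg (fun p => Polynomial.coeff p 0) h
  simp at h1

end StarAux

open StarAux in
theorem t_STAR (hGF : S_GF) (hCO : S_COEF) : S_STAR := by
  intro R _ _ N m hm q x U s t hs ht hst hU
  have hGF' := hGF (Polynomial R) N m hm (Polynomial.C q) Polynomial.X
    (fun k => Polynomial.C (x k)) (fun i => ne_zero' (x i)) U s t hs ht hst hU
  have hcard0 : ∀ S ∈ PW0 U s t, S.card ≤ U.card := fun S hS => card_le_card (mem_PW0 hS).1
  have hcard1 : ∀ S ∈ PW1 U s t, S.card ≤ U.card := fun S hS => card_le_card (mem_PW1 hS).1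
  -- the sums in the ring of polynomials
  have e0 : ∀ (e : Finset ℕ → ℕ) (j : Fin N), (∑ S ∈ PW0 U s t, Pi m (Polynomial.C q) s S *
      Polynomial.X ^ (U.card - S.card) * ((Polynomial.C q) ^ e S *
        FF m (Polynomial.C q) (fun k => Polynomial.C (x k)) (U \ S) t j)) =
      ∑ S ∈ PW0 U s t, Polynomial.C (Pi m q s S * q ^ e S * FF m q x (U \ S) t j) *
        Polynomial.X ^ (U.card - S.card) := by
    intro e j
    refine Finset.sum_congr rfl fun S _ => ?_
    rw [Pi_C, FF_C, map_mul, map_mul, map_pow]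
    ring
  have e1 : ∀ (e : Finset ℕ → ℕ), (∑ S ∈ PW1 U s t, Pi m (Polynomial.C q) s S *
      Polynomial.X ^ (U.card - S.card) * ((Polynomial.C q) ^ e S *
        XX m (Polynomial.C q) (fun k => Polynomial.C (x k)) (U \ S))) =
      ∑ S ∈ PW1 U s t, Polynomial.C (Pi m q s S * q ^ e S * XX m q x (U \ S)) *
        Polynomial.X ^ (U.card - S.card) := by
    intro e
    refine Finset.sum_congr rfl fun S _ => ?_
    rw [Pi_C, XX_C, map_mul, map_mul, map_pow]
    ring
  refine ⟨?_, ?_⟩
  · intro c j
    have hA := (hGF' j).1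
    rw [e0 (fun S => ea m U S) j, e0 (fun S => eb m U S) j, e1 (fun S => ea m U S)] at hA
    have hc := congrArg (fun p => Polynomial.coeff p (U.card + c)) hA
    simp only [Polynomial.coeff_sub] at hc
    rw [coeff_sum _ _ _ hcard0, coeff_sum _ _ _ hcard0] at hc
    have hK : (∑ i, GG (Polynomial.C q) Polynomial.X (fun k => Polynomial.C (x k)) i *
        KK m (Polynomial.C q) (fun k => Polynomial.C (x k)) U s t i j).coeff c =
        TT m q x U s t (eh q x c) j := by
      rw [Polynomial.finsetSum_coeff, TT_eq m q x U s t hs hst.ne]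
      refine Finset.sum_congr rfl fun i _ => ?_
      rw [KK_C, Polynomial.coeff_mul_C, KK_eq m q x U s t hs hst.ne, ← mul_assoc,
        ← (hCO R N q x c).2.2 i, Polynomial.coeff_C_mul, mul_comm (x i)]
    have hR : ((1 - Polynomial.C q) * (Polynomial.X ^ U.card *
        (∑ i, GG (Polynomial.C q) Polynomial.X (fun k => Polynomial.C (x k)) i *
        KK m (Polynomial.C q) (fun k => Polynomial.C (x k)) U s t i j) -
        Polynomial.X * Polynomial.C (x j) *
          GG (Polynomial.C q) Polynomial.X (fun k => Polynomial.C (x k)) j *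
        ∑ S ∈ PW1 U s t, Polynomial.C (Pi m q s S * q ^ ea m U S * XX m q x (U \ S)) *
          Polynomial.X ^ (U.card - S.card))).coeff (U.card + c) =
        (1 - q) * (TT m q x U s t (eh q x c) j - ∑ S ∈ PW1 U s t,
          Pi m q s S * q ^ ea m U S * XX m q x (U \ S) * eh q x (c + S.card - 1) j) := by
      have h1 : (1 - Polynomial.C q : Polynomial R) = Polynomial.C (1 - q) := by
        rw [map_sub, map_one]
      rw [h1, Polynomial.coeff_C_mul, Polynomial.coeff_sub, coeff_sum _ _ _ hcard1]
      congr 2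
      · rw [Nat.add_comm, Polynomial.coeff_X_pow_mul, hK]
      · refine Finset.sum_congr rfl fun S hS => ?_
        have h2 : 0 < S.card := card_pos.mpr ⟨s, (mem_PW1 hS).2⟩
        obtain ⟨d, hd⟩ : ∃ d, c + S.card = d + 1 := ⟨c + S.card - 1, by omega⟩
        rw [hd, mul_assoc Polynomial.X, Polynomial.coeff_X_mul, (hCO R N q x d).2.2 j,
          Nat.add_sub_cancel]
    rw [hR] at hc
    have h3 : ∀ S ∈ PW0 U s t, Pi m q s S * q ^ ea m U S * FF m q x (U \ S) t j *
        (EE (Polynomial.C q) Polynomial.X (fun k => Polynomial.C (x k)) 0).coeff (c + S.card) -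
        Pi m q s S * q ^ eb m U S * FF m q x (U \ S) t j *
        (EE (Polynomial.C q) Polynomial.X (fun k => Polynomial.C (x k)) N).coeff (c + S.card) =
        Pi m q s S * (q ^ ea m U S - q ^ (c + S.card + eb m U S)) * es x (c + S.card) *
          FF m q x (U \ S) t j := by
      intro S _
      rw [(hCO R N q x (c + S.card)).1, (hCO R N q x (c + S.card)).2.1, pow_add q (c + S.card)]
      ring
    rw [← Finset.sum_sub_distrib, Finset.sum_congr rfl h3] at hc
    have h4 : ∑ S ∈ PW1 U s t, Pi m q s S * q ^ ea m U S * eh q x (c + S.card - 1) j *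
        XX m q x (U \ S) = ∑ S ∈ PW1 U s t,
          Pi m q s S * q ^ ea m U S * XX m q x (U \ S) * eh q x (c + S.card - 1) j :=
      Finset.sum_congr rfl fun S _ => by ring
    rw [h4, hc]
    ring
  · intro r
    have hgoal : ∀ S, Pi m q s S * (q ^ ea m U S - q ^ eb m U S) * XX m q x (U \ S) =
        Pi m q s S * q ^ ea m U S * XX m q x (U \ S) -
          Pi m q s S * q ^ eb m U S * XX m q x (U \ S) := fun S => by ring
    rcases Nat.eq_zero_or_pos N with hN | hN
    · subst hN
      refine Finset.sum_eq_zero fun S hS => ?_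
      rcases (U \ S).eq_empty_or_nonempty with h1 | ⟨v, hv⟩
      · have h2 : ea m U S = eb m U S := by
          unfold ea eb
          rw [h1, Finset.sum_empty, Finset.sum_empty]
        rw [h2, sub_self, mul_zero, zero_mul]
      · have h2 : XX m q x (U \ S) = 0 := by
          unfold XX
          rw [Z_erase hv]
          exact Finset.sum_of_isEmpty _
        rw [h2, mul_zero]
    · by_cases hr : r ≤ U.card
      · have hB := (hGF' ⟨0, hN⟩).2
        rw [e1 (fun S => ea m U S), e1 (fun S => eb m U S)] at hB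
        have hc := congrArg (fun p => Polynomial.coeff p (U.card - r)) hB
        beta_reduce at hc
        rw [coeff_sum' _ _ _ hcard1 hr, coeff_sum' _ _ _ hcard1 hr] at hc
        rw [Finset.sum_congr rfl fun S _ => hgoal S, Finset.sum_sub_distrib, hc, sub_self]
      · refine Finset.sum_eq_zero fun S hS => ?_
        have h1 := mem_filter.mp hS
        have h2 := hcard1 S h1.1
        exact absurd (h1.2 ▸ h2) hr

end Pool.Agent.SWC
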