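import Pool.Agent.Lib.MP_263316_co.Spec

/-!
# MP_263316_co, STEP: one step of the telescoping sum
-/

set_option autoImplicit false

namespace Pool.Agent.SWC

open Finset

namespace STEPx

variable {R : Type} [CommRing R] {N : ℕ}

theorem prod_mu (x : Fin N → R) (t : ℕ) (i j : Fin N) (D : Finset ℕ) :
    ∏ v ∈ D, (x i * mu t j v i) =
      x i ^ D.card * (if t ∈ D then (if i = j then 1 else 0) else 1) := by
  rw [prod_mul_distrib, prod_const]
  congr 1
  unfold mu
  rw [prod_ite_eq']

end STEPx

open STEPx

theorem t_STEP : S_REG → S_CS3 → S_LOC → S_STEP := by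
  intro hREG hCS3 hLOC R _ N m hm q z x U s t hs ht hst hU i j
  obtain ⟨r1, r2, r3, r4⟩ := hREG R N m q z x U s t hs ht hst i j
  have hloc2 : ∀ D ∈ U.powerset.filter (fun D => s ∈ D ∧ t ∈ D),
      (1 + z * x i) * loA m q (z * x i) s D {t} =
        (1 + z * x i) * loB m q (z * x i) s D {t} := by
    intro D hD
    rw [mem_filter, mem_powerset] at hD
    exact (hLOC R m hm q (z * x i) s t D hD.2.1 hD.2.2 (fun u hu => hU u (hD.1 hu))).2
  constructor
  · set F : Finset (Finset ℕ) := U.powerset.filter (fun D => s ∈ D) with hF
    have hloc1 : ∀ D ∈ F, (1 + z * x i) * loA m q (z * x i) s D ∅ =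
        (1 + q * (z * x i)) * loB m q (z * x i) s D ∅ +
          (1 - q) * (z * x i) ^ D.card * (if ind m D then 1 else 0) := by
      intro D hD
      rw [hF, mem_filter, mem_powerset] at hD
      have hne : D.Nonempty := ⟨s, hD.2⟩
      exact (hLOC R m hm q (z * x i) s (D.max' hne) D hD.2 (D.max'_mem hne)
        (fun u hu => ⟨(hU u (hD.1 hu)).1, D.le_max' u hu⟩)).1
    have hcard : ∀ D ∈ F, z ^ U.card = z ^ (U.card - D.card) * z ^ D.card := by
      intro D hD
      rw [hF, mem_filter, mem_powerset] at hD
      rw [← pow_add, Nat.sub_add_cancel (card_le_card hD.1)]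
    have e1 : U.powerset.filter (fun D => s ∈ D ∧ ind m D) = F.filter (fun D => ind m D) :=
      (filter_filter _ _ _).symm
    have e2 : U.powerset.filter (fun D => s ∈ D ∧ t ∈ D) = F.filter (fun D => t ∈ D) :=
      (filter_filter _ _ _).symm
    have hloc2' : ∀ D ∈ F, t ∈ D → (1 + z * x i) * loA m q (z * x i) s D {t} =
        (1 + z * x i) * loB m q (z * x i) s D {t} := by
      intro D hD hD'
      apply hloc2
      rw [e2, mem_filter]
      exact ⟨hD, hD'⟩
    rw [r1, r2, r4, hCS3 R N m q x U s t i j hs, e1, e2, sum_filter (s := F),
      sum_filter (s := F)]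
    by_cases hij : i = j
    · subst hij
      simp only [if_true]
      rw [mul_sum, mul_sum, mul_sum, mul_sum, ← sum_sub_distrib, ← sum_sub_distrib, mul_sum]
      refine sum_congr rfl fun D hD => ?_
      have h1 := hloc1 D hD
      have h2 := hcard D hD
      rw [prod_mu, h2]
      by_cases hD' : t ∈ D
      · have h3 := hloc2' D hD hD'
        simp only [hD', if_true]
        by_cases hind : ind m D
        · simp only [hind, if_true] at h1 ⊢
          linear_combination (z ^ (U.card - D.card) * ZD m q x (mu t i) U D i) * (h1 - h3)
        · simp only [hind, if_false] at h1 ⊢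
          linear_combination (z ^ (U.card - D.card) * ZD m q x (mu t i) U D i) * (h1 - h3)
      · simp only [hD', if_false]
        by_cases hind : ind m D
        · simp only [hind, if_true] at h1 ⊢
          linear_combination (z ^ (U.card - D.card) * ZD m q x (mu t i) U D i) * h1
        · simp only [hind, if_false] at h1 ⊢
          linear_combination (z ^ (U.card - D.card) * ZD m q x (mu t i) U D i) * h1
    · simp only [hij, if_false]
      rw [mul_sum, mul_sum, mul_sum, ← sum_sub_distrib, sub_zero, mul_sum]
      refine sum_congr rfl fun D hD => ?_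
      have h1 := hloc1 D hD
      have h2 := hcard D hD
      rw [prod_mu, h2]
      by_cases hD' : t ∈ D
      · simp only [hD', hij, if_true, if_false]
        by_cases hind : ind m D
        · simp only [hind, if_true]
          ring
        · simp only [hind, if_false]
          ring
      · simp only [hD', if_false]
        by_cases hind : ind m D
        · simp only [hind, if_true] at h1 ⊢
          linear_combination (z ^ (U.card - D.card) * ZD m q x (mu t j) U D i) * h1
        · simp only [hind, if_false] at h1 ⊢
          linear_combination (z ^ (U.card - D.card) * ZD m q x (mu t j) U D i) * h1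
  · rw [r3, r4, mul_sum, mul_sum]
    refine sum_congr rfl fun D hD => ?_
    linear_combination (z ^ (U.card - D.card) * ZD m q x (mu t j) U D i) * hloc2 D hD

end Pool.Agent.SWC
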