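import Pool.Agent.Lib.MP_263316_co.Spec

/-!
# TRI: structure of the good graphs
-/

set_option autoImplicit false

namespace Pool.Agent.SWC

open Finset

namespace TRIx

/-- the increasing enumeration of a finite set -/
theorem enum (U : Finset ℕ) (t : ℕ) (ht : ∀ u ∈ U, u ≤ t) :
    ∃ f : ℕ → ℕ, StrictMono f ∧ U = (range U.card).image f := by
  have hmem : ∀ (i : ℕ) (h : i < U.card), U.orderEmbOfFin rfl ⟨i, h⟩ ∈ U := fun i h =>
    Finset.orderEmbOfFin_mem U rfl ⟨i, h⟩
  refine ⟨fun i => if h : i < U.card then U.orderEmbOfFin rfl ⟨i, h⟩ else t + 1 + i, ?_, ?_⟩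
  · intro i j hij
    show (if h : i < U.card then U.orderEmbOfFin rfl ⟨i, h⟩ else t + 1 + i) <
      (if h : j < U.card then U.orderEmbOfFin rfl ⟨j, h⟩ else t + 1 + j)
    by_cases hi : i < U.card
    · by_cases hj : j < U.card
      · rw [dif_pos hi, dif_pos hj]
        exact (U.orderEmbOfFin rfl).strictMono (Fin.mk_lt_mk.2 hij)
      · rw [dif_pos hi, dif_neg hj]
        have := ht _ (hmem i hi)
        omega
    · have hj : ¬ j < U.card := by omega
      rw [dif_neg hi, dif_neg hj]
      omega
  · ext x
    rw [mem_image]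
    constructor
    · intro hx
      have h1 : x ∈ Set.range (U.orderEmbOfFin rfl) := by
        rw [Finset.range_orderEmbOfFin]
        exact hx
      obtain ⟨⟨i, hi⟩, h2⟩ := h1
      refine ⟨i, mem_range.2 hi, ?_⟩
      rw [dif_pos hi]
      exact h2
    · rintro ⟨i, hi, rfl⟩
      rw [dif_pos (mem_range.1 hi)]
      exact hmem i _

end TRIx

theorem t_TRI : S_TRI := by
  intro m hm U s t hs ht hst hU hG
  obtain ⟨f, hf, hUf⟩ := TRIx.enum U t fun u hu => (hU u hu).2
  have hmem : ∀ i, i < U.card → f i ∈ U := by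
    intro i hi
    rw [hUf]
    exact mem_image_of_mem f (mem_range.2 hi)
  have hex : ∀ u ∈ U, ∃ i, i < U.card ∧ f i = u := by
    intro u hu
    rw [hUf] at hu
    obtain ⟨i, hi, h⟩ := mem_image.1 hu
    exact ⟨i, mem_range.1 hi, h⟩
  have hn : 2 ≤ U.card := by
    have h1 : ({s, t} : Finset ℕ) ⊆ U := by
      intro u hu
      rw [mem_insert, mem_singleton] at hu
      rcases hu with rfl | rfl
      · exact hs
      · exact ht
    have h2 := card_le_card h1
    rwa [card_pair hst.ne] at h2
  -- first alternative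
  by_cases h1 : ∃ i, i + 1 < U.card ∧ m (f i) < f (i + 1)
  · obtain ⟨i, hi, hi'⟩ := h1
    left
    refine ⟨U.filter (fun u => u ≤ f i), U.filter (fun u => ¬ u ≤ f i),
      filter_union_filter_not_eq _ _, ?_, ?_, ?_⟩
    · exact ⟨f i, mem_filter.2 ⟨hmem i (by omega), le_rfl⟩⟩
    · exact ⟨f (i + 1), mem_filter.2 ⟨hmem _ hi, not_le.2 (hf (Nat.lt_succ_self i))⟩⟩
    · intro u hu v hv
      obtain ⟨-, hu2⟩ := mem_filter.1 hu
      obtain ⟨hv1, hv2⟩ := mem_filter.1 hv
      obtain ⟨j, -, rfl⟩ := hex v hv1
      have h3 : i < j := hf.lt_iff_lt.1 (not_le.1 hv2)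
      have h4 : f (i + 1) ≤ f j := hf.monotone h3
      have h5 : m u ≤ m (f i) := hm hu2
      have h6 : f i < f j := not_le.1 hv2
      omega
  push Not at h1
  -- second alternative
  by_cases h2 : ∃ i, i + 2 < U.card ∧ m (f i) < f (i + 2)
  · obtain ⟨i, hi, hi'⟩ := h2
    right
    left
    refine ⟨f (i + 1), hmem _ (by omega), ?_, ?_, ?_⟩
    · have h3 := (hU (f 0) (hmem 0 (by omega))).1
      have h4 : f 0 < f (i + 1) := hf (Nat.succ_pos i)
      omega
    · have h3 := (hU (f (i + 2)) (hmem _ hi)).2
      have h4 : f (i + 1) < f (i + 2) := hf (Nat.lt_succ_self _)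
      omega
    · intro a ha b hb hav hvb
      obtain ⟨j, -, rfl⟩ := hex a ha
      obtain ⟨k, -, rfl⟩ := hex b hb
      have h3 : j < i + 1 := hf.lt_iff_lt.1 hav
      have h4 : i + 1 < k := hf.lt_iff_lt.1 hvb
      have h5 : m (f j) ≤ m (f i) := hm (hf.monotone (by omega))
      have h6 : f (i + 2) ≤ f k := hf.monotone h4
      omega
  push Not at h2
  right
  right
  by_cases h3 : ∃ i, i + 3 < U.card ∧ f (i + 3) ≤ m (f i)
  · -- a clique
    left
    obtain ⟨i, hi, hi'⟩ := h3
    have hA : ∀ j, i + 3 ≤ j → j < U.card → f j ≤ m (f i) := by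
      intro j hj
      induction j, hj using Nat.le_induction with
      | base => exact fun _ => hi'
      | succ j hj ih =>
        intro hjn
        have e1 := ih (by omega)
        have e2 := (hG (f i) (hmem i (by omega)) (f (j - 2)) (hmem _ (by omega)) (f (j - 1))
          (hmem _ (by omega)) (f j) (hmem _ (by omega)) (f (j + 1)) (hmem _ hjn)
          (hf (by omega)) (hf (by omega)) (hf (by omega)) (hf (by omega))).1 e1
        apply e2
        have e3 := h2 (j - 1) (by omega)
        rwa [show j - 1 + 2 = j + 1 by omega] at e3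
    have hB : ∀ d, d ≤ i → f (U.card - 1) ≤ m (f (i - d)) := by
      intro d
      induction d with
      | zero =>
        intro _
        exact hA _ (by omega) (by omega)
      | succ d ih =>
        intro hd
        have e1 := ih (by omega)
        have e2 := (hG (f (i - (d + 1))) (hmem _ (by omega)) (f (i - d)) (hmem _ (by omega))
          (f (i - d + 1)) (hmem _ (by omega)) (f (i - d + 2)) (hmem _ (by omega))
          (f (U.card - 1)) (hmem _ (by omega))
          (hf (by omega)) (hf (by omega)) (hf (by omega)) (hf (by omega))).2 e1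
        apply e2
        have e3 := h2 (i - (d + 1)) (by omega)
        rwa [show i - (d + 1) + 2 = i - d + 1 by omega] at e3
    have hC : f (U.card - 1) ≤ m (f 0) := by
      have := hB i le_rfl
      rwa [Nat.sub_self] at this
    intro u hu v hv _
    obtain ⟨j, -, rfl⟩ := hex u hu
    obtain ⟨k, hk, rfl⟩ := hex v hv
    have h4 : f k ≤ f (U.card - 1) := hf.monotone (by omega)
    have h5 : m (f 0) ≤ m (f j) := hm (hf.monotone (Nat.zero_le j))
    omega
  · push Not at h3
    have hiff : ∀ i j, i < j → j < U.card → (f j ≤ m (f i) ↔ j ≤ i + 2) := by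
      intro i j hij hj
      constructor
      · intro h
        by_contra hc
        have e1 := h3 i (by omega)
        have e2 : f (i + 3) ≤ f j := hf.monotone (by omega)
        omega
      · intro h
        rcases (by omega : j = i + 1 ∨ j = i + 2) with rfl | rfl
        · exact h1 i hj
        · exact h2 i hj
    by_cases h4 : 4 ≤ U.card
    · right
      exact ⟨U.card, f, hf, hUf, h4, hiff⟩
    · left
      intro u hu v hv huv
      obtain ⟨j, hj, rfl⟩ := hex u hu
      obtain ⟨k, hk, rfl⟩ := hex v hv
      have h5 : j < k := hf.lt_iff_lt.1 huv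
      exact (hiff j k h5 hk).2 (by omega)

end Pool.Agent.SWC
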