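import Pool.Agent.Lib.MP_263316_co.Spec

/-!
MP_263316_co: the end of the ladder recursion (W0).
-/

set_option autoImplicit false

namespace Pool.Agent.SWC

open Finset

namespace W0Aux

variable {R : Type} [CommRing R] {N : ℕ}

/-- the weight of a further twin clique -/
def AA (q : R) (C : Finset (Fin N)) (κ : Fin N) : R :=
  if κ ∈ C then 0 else q ^ (C.filter (fun i => i < κ)).card

/-- the weight of an edge to the right -/
def pp (q : R) (c κ : Fin N) : R := if c = κ then 0 else if c < κ then q else 1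

theorem swap (hPC : S_PC) (r : ℕ) (g : Fin N → Finset (Fin N) → R) :
    ∑ C ∈ powersetCard r (univ : Finset (Fin N)), ∑ c, (if c ∈ C then 0 else g c C) =
      ∑ C' ∈ powersetCard (r + 1) (univ : Finset (Fin N)), ∑ c ∈ C', g c (C'.erase c) := by
  rw [← hPC R N r g, Finset.sum_comm]
  refine Finset.sum_congr rfl fun c _ => ?_
  have h : powersetCard r (univ.erase c) =
      (powersetCard r (univ : Finset (Fin N))).filter (fun C => c ∉ C) := by
    ext C
    simp only [mem_powersetCard, mem_filter, subset_erase]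
    exact ⟨fun h => ⟨⟨h.1.1, h.2⟩, h.1.2⟩, fun h => ⟨⟨h.1.1, h.2⟩, h.1.2⟩⟩
  rw [h, Finset.sum_filter]
  refine Finset.sum_congr rfl fun C _ => ?_
  by_cases hc : c ∈ C
  · simp [hc]
  · simp [hc]

theorem rank_erase (C : Finset (Fin N)) (c : Fin N) :
    ((C.erase c).filter (fun i => i < c)).card = (C.filter (fun i => i < c)).card := by
  congr 1
  ext i
  simp only [mem_filter, mem_erase]
  constructor
  · rintro ⟨⟨_, h1⟩, h2⟩
    exact ⟨h1, h2⟩
  · rintro ⟨h1, h2⟩
    exact ⟨⟨ne_of_lt h2, h1⟩, h2⟩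

/-- the weight after splitting off one twin -/
theorem AA_pp (q : R) (C : Finset (Fin N)) (c κ : Fin N) (hc : c ∈ C) :
    AA q (C.erase c) κ * pp q c κ = AA q C κ := by
  unfold AA pp
  by_cases h1 : κ ∈ C
  · rw [if_pos h1]
    by_cases h2 : c = κ
    · rw [if_pos h2, mul_zero]
    · have h3 : κ ∈ C.erase c := mem_erase.mpr ⟨fun h => h2 h.symm, h1⟩
      rw [if_pos h3, zero_mul]
  · have h2 : c ≠ κ := fun h => h1 (h ▸ hc)
    have h3 : κ ∉ C.erase c := fun h => h1 (mem_of_mem_erase h)
    rw [if_neg h1, if_neg h3, if_neg h2]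
    have h4 : (C.erase c).filter (fun i => i < κ) = (C.filter (fun i => i < κ)).erase c := by
      ext i
      simp only [mem_filter, mem_erase]
      exact ⟨fun h => ⟨h.1.1, h.1.2, h.2⟩, fun h => ⟨⟨h.1, h.2.1⟩, h.2.2⟩⟩
    rw [h4]
    by_cases h5 : c < κ
    · have h6 : c ∈ C.filter (fun i => i < κ) := mem_filter.mpr ⟨hc, h5⟩
      rw [if_pos h5, card_erase_of_mem h6, ← pow_succ]
      congr 1
      have := Finset.card_pos.mpr ⟨c, h6⟩
      omega
    · have h6 : c ∉ C.filter (fun i => i < κ) := fun h => h5 (mem_filter.mp h).2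
      rw [if_neg h5, erase_eq_of_notMem h6, mul_one]

/-- the marked elementary symmetric function as a sum over all colour sets -/
theorem eh_eq (q : R) (x : Fin N → R) (c : ℕ) (j : Fin N) :
    eh q x c j = ∑ C ∈ powersetCard c (univ : Finset (Fin N)), (∏ i ∈ C, x i) * (x j * AA q C j) := by
  unfold eh
  have h : powersetCard c (univ.erase j) =
      (powersetCard c (univ : Finset (Fin N))).filter (fun C => j ∉ C) := by
    ext C
    simp only [mem_powersetCard, mem_filter, subset_erase]
    exact ⟨fun h => ⟨⟨h.1.1, h.2⟩, h.1.2⟩, fun h => ⟨⟨h.1.1, h.2⟩, h.1.2⟩⟩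
  rw [h, Finset.sum_filter, Finset.mul_sum]
  refine Finset.sum_congr rfl fun C _ => ?_
  unfold AA
  by_cases hj : j ∈ C
  · simp [hj]
  · rw [if_pos hj, if_neg hj]
    have h1 : ∀ k ∈ C, (if k < j then q * x k else x k) = (if k < j then q else 1) * x k := by
      intro k _
      by_cases hk : k < j
      · simp [hk]
      · simp [hk]
    rw [Finset.prod_congr rfl h1, Finset.prod_mul_distrib, Finset.prod_ite, Finset.prod_const,
      Finset.prod_const_one, mul_one]
    ring

end W0Aux

open W0Aux in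
theorem t_W0 (hPC : S_PC) (hRK : S_RK) : S_W0 := by
  intro R _ N m q x v1 v2 k j h12 hm
  have hne : v1 ≠ v2 := ne_of_lt h12
  have hZ : ∀ C : Finset (Fin N), (∏ i ∈ C, x i) *
      Z m q {v1, v2} (fun v κ => x κ * (if v = v1 ∨ v = v2 then
        (if κ ∈ C then 0 else q ^ (C.filter (fun i => i < κ)).card) else 1) * mu v2 j v κ) =
      ∑ c, (if c ∈ C then 0 else (∏ i ∈ C, x i) * (x c * q ^ (C.filter (fun i => i < c)).card) *
        (x j * (AA q C j * pp q c j))) := by
    intro C
    rw [Z_insert (by simp [hne]), Finset.mul_sum]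
    refine Finset.sum_congr rfl fun c _ => ?_
    rw [Z_singleton]
    have h1 : ∑ k', x k' * (if v2 = v1 ∨ v2 = v2 then
        (if k' ∈ C then 0 else q ^ (C.filter (fun i => i < k')).card) else 1) * mu v2 j v2 k' *
        pw m q v1 c v2 k' = x j * (AA q C j * pp q c j) := by
      rw [Finset.sum_eq_single j]
      · rw [pw_lt h12 hm]
        simp only [mu, AA, pp, or_true, if_true, mul_one]
        ring
      · intro b _ hb
        simp [mu, hb]
      · intro h
        exact absurd (mem_univ j) h
    rw [h1]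
    by_cases hc : c ∈ C
    · simp [hc]
    · simp [hc, mu, hne]
      ring
  unfold WW
  rw [Finset.sum_congr rfl fun C _ => hZ C, swap hPC, eh_eq, Finset.mul_sum]
  refine Finset.sum_congr rfl fun C hC => ?_
  have hcard : C.card = k + 1 := (mem_powersetCard.mp hC).2
  have h2 : ∀ c ∈ C, (∏ i ∈ C.erase c, x i) *
      (x c * q ^ ((C.erase c).filter (fun i => i < c)).card) *
        (x j * (AA q (C.erase c) j * pp q c j)) =
      q ^ (C.filter (fun i => i < c)).card * ((∏ i ∈ C, x i) * (x j * AA q C j)) := by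
    intro c hc
    rw [AA_pp q C c j hc, rank_erase, ← Finset.mul_prod_erase C x hc]
    ring
  rw [Finset.sum_congr rfl h2, ← Finset.sum_mul, hRK, hcard]

end Pool.Agent.SWC
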