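import Pool.Agent.Lib.MP_263316_co.W0

/-!
MP_263316_co: one step of the ladder recursion (W1).
-/

set_option autoImplicit false

namespace Pool.Agent.SWC

open Finset

namespace W1Aux

open W0Aux

variable {R : Type} [CommRing R] {N : ℕ}

theorem qn_succ' (q : R) (n : ℕ) : qn q (n + 1) = q * qn q n + 1 := by
  unfold qn
  rw [Finset.sum_range_succ', Finset.mul_sum, pow_zero]
  congr 1
  exact Finset.sum_congr rfl fun i _ => by rw [pow_succ']

theorem qn_mul (q : R) (n : ℕ) : qn q n * (q - 1) = q ^ n - 1 := geom_sum_mul q n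

/-- the identity for the sum over the colour that is split off -/
theorem key (hRK : S_RK) (q : R) (C : Finset (Fin N)) (k : ℕ) (hC : C.card = k + 1) (γ : Fin N) :
    ∑ c ∈ C, q ^ (C.filter (fun i => i < c)).card * pp q c γ = q * qn q k + AA q C γ := by
  have h1 : ∀ c ∈ C, q ^ (C.filter (fun i => i < c)).card * pp q c γ =
      q ^ (C.filter (fun i => i < c)).card +
      (if c < γ then q ^ (C.filter (fun i => i < c)).card * (q - 1) else 0) -
      (if c = γ then q ^ (C.filter (fun i => i < c)).card else 0) := by
    intro c _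
    unfold pp
    by_cases h2 : c = γ
    · have h3 : ¬ c < γ := by
        rw [h2]
        exact lt_irrefl γ
      rw [if_pos h2, if_neg h3, if_pos h2]
      ring
    · by_cases h3 : c < γ
      · rw [if_neg h2, if_pos h3, if_pos h3, if_neg h2]
        ring
      · rw [if_neg h2, if_neg h3, if_neg h3, if_neg h2]
        ring
  rw [Finset.sum_congr rfl h1, Finset.sum_sub_distrib, Finset.sum_add_distrib, hRK, hC, qn_succ',
    ← Finset.sum_filter, ← Finset.sum_mul]
  have h4 : ∑ c ∈ C.filter (fun c => c < γ), q ^ (C.filter (fun i => i < c)).card =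
      qn q (C.filter (fun c => c < γ)).card := by
    rw [← hRK R N q (C.filter (fun c => c < γ))]
    refine Finset.sum_congr rfl fun c hc => ?_
    congr 2
    ext i
    simp only [mem_filter]
    constructor
    · rintro ⟨hi, hic⟩
      exact ⟨⟨hi, hic.trans (mem_filter.mp hc).2⟩, hic⟩
    · rintro ⟨⟨hi, _⟩, hic⟩
      exact ⟨hi, hic⟩
  rw [h4, qn_mul]
  unfold AA
  by_cases hγ : γ ∈ C
  · rw [if_pos hγ, Finset.sum_ite_eq' C γ, if_pos hγ]
    ring
  · rw [if_neg hγ, Finset.sum_ite_eq' C γ, if_neg hγ]
    ring

/-- linearity in the weight at one vertex, two terms -/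
theorem Z_update_two {m : ℕ → ℕ} {q : R} {U : Finset ℕ} {v : ℕ} (hv : v ∈ U) (a : R)
    (f g : Fin N → R) (w : ℕ → Fin N → R) :
    Z m q U (fun u k => if u = v then a * f k + g k else w u k) =
      a * Z m q U (fun u k => if u = v then f k else w u k) +
        Z m q U (fun u k => if u = v then g k else w u k) := by
  have h := Z_update_sum (m := m) (q := q) hv (univ : Finset (Fin 2)) (fun i => if i = 0 then a else 1)
    (fun i k => if i = 0 then f k else g k) w
  simp only [Fin.sum_univ_two, if_true, one_ne_zero, if_false, one_mul] at h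
  exact h

end W1Aux

open W0Aux W1Aux in
theorem t_W1 (hPC : S_PC) (hRK : S_RK) : S_W1 := by
  intro R _ N m q x V v1 v2 v3 t k j hv1 hv2 hv3 ht h12 h23 hm31 hrest ht1 ht2
  have hm21 : v2 ≤ m v1 := h23.le.trans hm31
  have h13 : v1 < v3 := h12.trans h23
  have hv2' : v2 ∈ V.erase v1 := mem_erase.mpr ⟨h12.ne', hv2⟩
  have hv3' : v3 ∈ V.erase v1 := mem_erase.mpr ⟨h13.ne', hv3⟩
  -- the weights on `V.erase v1`
  let w' : Finset (Fin N) → ℕ → Fin N → R := fun C u κ =>
    x κ * (if u = v2 then AA q C κ else 1) * mu t j u κ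
  have hZ : ∀ C : Finset (Fin N), (∏ i ∈ C, x i) *
      Z m q V (fun v κ => x κ * (if v = v1 ∨ v = v2 then
        (if κ ∈ C then 0 else q ^ (C.filter (fun i => i < κ)).card) else 1) * mu t j v κ) =
      ∑ c, (if c ∈ C then 0 else (∏ i ∈ C, x i) * (x c * q ^ (C.filter (fun i => i < c)).card) *
        Z m q (V.erase v1) (fun u κ => if u = v3 then pp q c κ * (x κ * mu t j v3 κ) else
          x κ * (if u = v2 then AA q C κ * pp q c κ else 1) * mu t j u κ)) := by
    intro C
    rw [Z_erase hv1, Finset.mul_sum]
    refine Finset.sum_congr rfl fun c _ => ?_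
    have h1 : Z m q (V.erase v1) (fun u k' => x k' * (if u = v1 ∨ u = v2 then
        (if k' ∈ C then 0 else q ^ (C.filter (fun i => i < k')).card) else 1) * mu t j u k' *
        pw m q v1 c u k') =
        Z m q (V.erase v1) (fun u κ => if u = v3 then pp q c κ * (x κ * mu t j v3 κ) else
          x κ * (if u = v2 then AA q C κ * pp q c κ else 1) * mu t j u κ) := by
      refine Z_congr fun u hu κ => ?_
      have hu1 : u ≠ v1 := (mem_erase.mp hu).1
      by_cases hu2 : u = v2
      · have hu3 : u ≠ v3 := by
          rw [hu2]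
          exact h23.ne
        have h5 : pw m q v1 c u κ = pp q c κ := by
          rw [hu2, pw_lt h12 hm21]
          rfl
        rw [if_neg hu3, if_pos hu2, if_pos (Or.inr hu2), h5]
        unfold AA
        ring
      · by_cases hu3 : u = v3
        · have h5 : pw m q v1 c u κ = pp q c κ := by
            rw [hu3, pw_lt h13 hm31]
            rfl
          have h6 : ¬ (u = v1 ∨ u = v2) := by
            rintro (h | h)
            · exact hu1 h
            · exact hu2 h
          rw [if_pos hu3, if_neg h6, h5, hu3]
          ring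
        · have h7 := hrest u (mem_erase.mp hu).2 hu1 hu2 hu3
          have h8 : pw m q v1 c u κ = 1 := pw_of_not (by omega) (by omega) _ _
          have h6 : ¬ (u = v1 ∨ u = v2) := by
            rintro (h | h)
            · exact hu1 h
            · exact hu2 h
          rw [if_neg hu3, if_neg hu2, if_neg h6, h8]
          ring
    rw [h1]
    by_cases hc : c ∈ C
    · simp [hc]
    · simp only [hc, if_false, true_or, if_true, mu, if_neg (Ne.symm ht1)]
      ring
  unfold WW
  rw [Finset.sum_congr rfl fun C _ => hZ C, swap hPC]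
  have hTT : TT m q x (V.erase v1) v2 t (eh q x (k + 1)) j =
      ∑ C ∈ powersetCard (k + 1) (univ : Finset (Fin N)), (∏ i ∈ C, x i) *
        Z m q (V.erase v1) (w' C) := by
    have h1 : TT m q x (V.erase v1) v2 t (eh q x (k + 1)) j =
        Z m q (V.erase v1) (fun u κ => if u = v2 then
          ∑ C ∈ powersetCard (k + 1) (univ : Finset (Fin N)), (∏ i ∈ C, x i) * (x κ * AA q C κ)
          else x κ * mu t j u κ) := by
      unfold TT
      refine Z_congr fun u hu κ => ?_
      by_cases hu2 : u = v2
      · have hut : u ≠ t := by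
          rw [hu2]
          exact Ne.symm ht2
        rw [if_pos hu2, if_pos hu2, if_neg hut, mul_one, eh_eq]
      · rw [if_neg hu2, if_neg hu2]
        rfl
    rw [h1, Z_update_sum hv2']
    refine Finset.sum_congr rfl fun C _ => ?_
    congr 1
    refine Z_congr fun u hu κ => ?_
    show _ = x κ * (if u = v2 then AA q C κ else 1) * mu t j u κ
    by_cases hu2 : u = v2
    · have hut : u ≠ t := by
        rw [hu2]
        exact Ne.symm ht2
      rw [if_pos hu2, if_pos hu2]
      unfold mu
      rw [if_neg hut, mul_one]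
    · rw [if_neg hu2, if_neg hu2, mul_one]
  rw [hTT, Finset.mul_sum, ← Finset.sum_add_distrib]
  refine Finset.sum_congr rfl fun C hC => ?_
  have hcard : C.card = k + 1 := (mem_powersetCard.mp hC).2
  have h2 : ∀ c ∈ C, (∏ i ∈ C.erase c, x i) *
      (x c * q ^ ((C.erase c).filter (fun i => i < c)).card) *
      Z m q (V.erase v1) (fun u κ => if u = v3 then pp q c κ * (x κ * mu t j v3 κ) else
          x κ * (if u = v2 then AA q (C.erase c) κ * pp q c κ else 1) * mu t j u κ) =
      (∏ i ∈ C, x i) * (q ^ (C.filter (fun i => i < c)).card *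
      Z m q (V.erase v1) (fun u κ => if u = v3 then pp q c κ * (x κ * mu t j v3 κ) else
          w' C u κ)) := by
    intro c hc
    have h3 : Z m q (V.erase v1) (fun u κ => if u = v3 then pp q c κ * (x κ * mu t j v3 κ) else
          x κ * (if u = v2 then AA q (C.erase c) κ * pp q c κ else 1) * mu t j u κ) =
        Z m q (V.erase v1) (fun u κ => if u = v3 then pp q c κ * (x κ * mu t j v3 κ) else
          w' C u κ) := by
      refine Z_congr fun u _ κ => ?_
      show _ = if u = v3 then pp q c κ * (x κ * mu t j v3 κ) else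
        x κ * (if u = v2 then AA q C κ else 1) * mu t j u κ
      rw [AA_pp q C c κ hc]
    rw [h3, rank_erase, ← Finset.mul_prod_erase C x hc]
    ring
  rw [Finset.sum_congr rfl h2, ← Finset.mul_sum, ← Z_update_sum hv3']
  have h4 : Z m q (V.erase v1) (fun u κ => if u = v3 then
      ∑ c ∈ C, q ^ (C.filter (fun i => i < c)).card * (pp q c κ * (x κ * mu t j v3 κ)) else
        w' C u κ) =
      Z m q (V.erase v1) (fun u κ => if u = v3 then
        (q * qn q k) * (x κ * mu t j v3 κ) + AA q C κ * (x κ * mu t j v3 κ) else w' C u κ) := by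
    refine Z_congr fun u _ κ => ?_
    by_cases hu3 : u = v3
    · rw [if_pos hu3, if_pos hu3]
      have h5 : ∀ c ∈ C, q ^ (C.filter (fun i => i < c)).card * (pp q c κ * (x κ * mu t j v3 κ)) =
          (q ^ (C.filter (fun i => i < c)).card * pp q c κ) * (x κ * mu t j v3 κ) := by
        intro c _
        ring
      rw [Finset.sum_congr rfl h5, ← Finset.sum_mul, key hRK q C k hcard κ]
      ring
    · rw [if_neg hu3, if_neg hu3]
  rw [h4, Z_update_two hv3']
  have h6 : Z m q (V.erase v1) (fun u κ => if u = v3 then x κ * mu t j v3 κ else w' C u κ) =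
      Z m q (V.erase v1) (w' C) := by
    refine Z_congr fun u _ κ => ?_
    by_cases hu3 : u = v3
    · have hu2 : u ≠ v2 := by
        rw [hu3]
        exact h23.ne'
      rw [if_pos hu3]
      show _ = x κ * (if u = v2 then AA q C κ else 1) * mu t j u κ
      rw [if_neg hu2, hu3]
      ring
    · rw [if_neg hu3]
  have h7 : Z m q (V.erase v1) (fun u κ => if u = v3 then AA q C κ * (x κ * mu t j v3 κ) else
      w' C u κ) =
      Z m q (V.erase v1) (fun v κ => x κ * (if v = v2 ∨ v = v3 then
        (if κ ∈ C then 0 else q ^ (C.filter (fun i => i < κ)).card) else 1) * mu t j v κ) := by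
    refine Z_congr fun u _ κ => ?_
    by_cases hu3 : u = v3
    · rw [if_pos hu3, if_pos (Or.inr hu3), hu3]
      unfold AA
      ring
    · rw [if_neg hu3]
      show x κ * (if u = v2 then AA q C κ else 1) * mu t j u κ = _
      by_cases hu2 : u = v2
      · rw [if_pos hu2, if_pos (Or.inl hu2)]
        rfl
      · have h8 : ¬ (u = v2 ∨ u = v3) := by
          rintro (h | h)
          · exact hu2 h
          · exact hu3 h
        rw [if_neg hu2, if_neg h8]
  rw [h6, h7]
  ring

end Pool.Agent.SWC
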