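import Pool.Agent.Lib.MP_263316_co.Spec

/-!
MP_263316_co, task ZK (helper18): the partition function of a clique.
-/

set_option autoImplicit false

namespace Pool.Agent.SWC

open Finset

namespace ZKAux

variable {R : Type} [CommRing R] {N : ℕ}

/-- the weights after the choice of the colour `k` of a larger vertex -/
def yk (q : R) (y : Fin N → R) (k k' : Fin N) : R :=
  y k' * (if k = k' then 0 else if k' < k then q else 1)

theorem prod_yk {q : R} {y : Fin N → R} {k : Fin N} {C : Finset (Fin N)} (hk : k ∉ C) :
    ∏ i ∈ C, yk q y k i = (∏ i ∈ C, y i) * q ^ (C.filter (fun i => i < k)).card := by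
  unfold yk
  rw [Finset.prod_mul_distrib]
  congr 1
  have h1 : ∀ i ∈ C, (if k = i then (0 : R) else if i < k then q else 1) =
      if i < k then q else 1 := by
    intro i hi
    rw [if_neg]
    rintro rfl
    exact hk hi
  rw [Finset.prod_congr rfl h1, Finset.prod_ite, Finset.prod_const, Finset.prod_const_one, mul_one]

theorem es_yk (q : R) (y : Fin N → R) (k : Fin N) (r : ℕ) :
    es (yk q y k) r = ∑ C ∈ powersetCard r (univ.erase k),
      (∏ i ∈ C, y i) * q ^ (C.filter (fun i => i < k)).card := by
  unfold es
  have hsub : powersetCard r (univ.erase k) ⊆ powersetCard r (univ : Finset (Fin N)) :=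
    powersetCard_mono (Finset.erase_subset _ _)
  rw [← Finset.sum_subset hsub]
  · refine Finset.sum_congr rfl fun C hC => prod_yk fun hk => ?_
    exact Finset.notMem_erase k univ ((mem_powersetCard.1 hC).1 hk)
  · intro C hC hC'
    have hk : k ∈ C := by
      by_contra hk
      apply hC'
      rw [mem_powersetCard] at hC ⊢
      refine ⟨fun i hi => ?_, hC.2⟩
      rw [Finset.mem_erase]
      refine ⟨?_, Finset.mem_univ i⟩
      rintro rfl
      exact hk hi
    refine Finset.prod_eq_zero hk ?_
    unfold yk
    rw [if_pos rfl, mul_zero]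

end ZKAux

open ZKAux

/-- **ZK.** The partition function of a clique with equal weights. -/
theorem t_ZK (h1 : S_PC) (h2 : S_RK) : S_ZK := by
  intro R _ N m q W
  induction W using Finset.induction_on_max with
  | empty =>
    intro _ y
    rw [Z_empty]
    simp [qf, es]
  | insert v W hv ih =>
    intro hW y
    have hvW : v ∉ W := fun h => lt_irrefl v (hv v h)
    have hW' : Clq m W := fun a ha b hb => hW a (Finset.mem_insert_of_mem ha) b
      (Finset.mem_insert_of_mem hb)
    rw [Z_insert hvW, Finset.card_insert_of_notMem hvW]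
    have e1 : ∀ k : Fin N, Z m q W (fun u k' => y k' * pw m q v k u k') =
        qf q W.card * es (yk q y k) W.card := by
      intro k
      rw [← ih hW' (yk q y k)]
      refine Z_congr fun u hu k' => ?_
      rw [pw_gt (hv u hu) (hW u (Finset.mem_insert_of_mem hu) v (Finset.mem_insert_self v W)
        (hv u hu))]
      rfl
    have e2 : ∀ k : Fin N, y k * Z m q W (fun u k' => y k' * pw m q v k u k') =
        qf q W.card * ∑ C ∈ powersetCard W.card (univ.erase k),
          y k * ((∏ i ∈ C, y i) * q ^ (C.filter (fun i => i < k)).card) := by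
      intro k
      rw [e1, es_yk, ← Finset.mul_sum]
      ring
    rw [Finset.sum_congr rfl fun k _ => e2 k, ← Finset.mul_sum,
      h1 R N W.card fun k C => y k * ((∏ i ∈ C, y i) * q ^ (C.filter (fun i => i < k)).card)]
    have e3 : ∀ C' ∈ powersetCard (W.card + 1) (univ : Finset (Fin N)),
        ∑ k ∈ C', y k * ((∏ i ∈ C'.erase k, y i) *
          q ^ ((C'.erase k).filter (fun i => i < k)).card) =
        (∏ i ∈ C', y i) * qn q (W.card + 1) := by
      intro C' hC'
      have hc : C'.card = W.card + 1 := (mem_powersetCard.1 hC').2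
      rw [← hc, ← h2 R N q C', Finset.mul_sum]
      refine Finset.sum_congr rfl fun k hk => ?_
      rw [← mul_assoc, Finset.mul_prod_erase C' y hk]
      congr 3
      ext i
      simp only [Finset.mem_filter, Finset.mem_erase]
      constructor
      · rintro ⟨⟨-, h3⟩, h4⟩
        exact ⟨h3, h4⟩
      · rintro ⟨h3, h4⟩
        exact ⟨⟨h4.ne, h3⟩, h4⟩
    rw [Finset.sum_congr rfl e3, ← Finset.sum_mul]
    unfold qf es
    rw [Finset.prod_range_succ]
    ring

end Pool.Agent.SWC
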