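import Pool.Agent.Lib.MP_263316_co.PUmul
import Pool.Agent.Lib.MP_263316_co.PUcoeff
import Pool.Agent.Lib.MP_263316_co.Cmul
import Pool.Agent.Lib.MP_263316_co.Cpart
import Pool.Agent.Lib.MP_263316_co.PC
import Pool.Agent.Lib.MP_263316_co.RK
import Pool.Agent.Lib.MP_263316_co.EHsum
import Pool.Agent.Lib.MP_263316_co.Msum
import Pool.Agent.Lib.MP_263316_co.Msmul
import Pool.Agent.Lib.MP_263316_co.Mlin
import Pool.Agent.Lib.MP_263316_co.CS
import Pool.Agent.Lib.MP_263316_co.CS1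
import Pool.Agent.Lib.MP_263316_co.CS2
import Pool.Agent.Lib.MP_263316_co.CS3
import Pool.Agent.Lib.MP_263316_co.LREC
import Pool.Agent.Lib.MP_263316_co.LOC
import Pool.Agent.Lib.MP_263316_co.REG
import Pool.Agent.Lib.MP_263316_co.STEP
import Pool.Agent.Lib.MP_263316_co.GF
import Pool.Agent.Lib.MP_263316_co.COEF
import Pool.Agent.Lib.MP_263316_co.STAR
import Pool.Agent.Lib.MP_263316_co.ZK
import Pool.Agent.Lib.MP_263316_co.KF
import Pool.Agent.Lib.MP_263316_co.KB
import Pool.Agent.Lib.MP_263316_co.KT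
import Pool.Agent.Lib.MP_263316_co.KM
import Pool.Agent.Lib.MP_263316_co.EDG
import Pool.Agent.Lib.MP_263316_co.PIM
import Pool.Agent.Lib.MP_263316_co.LCNT
import Pool.Agent.Lib.MP_263316_co.LM1
import Pool.Agent.Lib.MP_263316_co.W1
import Pool.Agent.Lib.MP_263316_co.W0
import Pool.Agent.Lib.MP_263316_co.LF
import Pool.Agent.Lib.MP_263316_co.LM0
import Pool.Agent.Lib.MP_263316_co.CUT
import Pool.Agent.Lib.MP_263316_co.DIS
import Pool.Agent.Lib.MP_263316_co.TRI
import Pool.Agent.Lib.MP_263316_co.MAIN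
import Pool.Agent.Lib.MP_263316_co.FUN
import Pool.Agent.Lib.MP_263316_co.FIN

/-!
MP_263316_co: assembly of all modules.
-/

set_option autoImplicit false

namespace Pool.Agent.SWC

namespace All

theorem pumul : S_PUmul := t_PUmul
theorem cmul : S_Cmul := t_Cmul pumul
theorem pc : S_PC := t_PC
theorem rk : S_RK := t_RK
theorem ehsum : S_EHsum := t_EHsum pc rk
theorem msum : S_Msum := t_Msum ehsum cmul
theorem msmul : S_Msmul := t_Msmul cmul
theorem mlin : S_Mlin := t_Mlin msmul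
theorem cs : S_CS := t_CS
theorem cs1 : S_CS1 := t_CS1 cs
theorem cs2 : S_CS2 := t_CS2 cs
theorem cs3 : S_CS3 := t_CS3 cs
theorem lrec : S_LREC := t_LREC
theorem loc : S_LOC := t_LOC lrec
theorem reg : S_REG := t_REG cs1 cs2
theorem step : S_STEP := t_STEP reg cs3 loc
theorem gf : S_GF := t_GF step
theorem star : S_STAR := t_STAR gf t_COEF
theorem zk : S_ZK := t_ZK pc rk
theorem kf : S_KF := t_KF zk
theorem kt : S_KT := t_KT star kf t_KB
theorem km : S_KM := t_KM kt pumul
theorem edg : S_EDG := t_EDG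
theorem pim : S_PIM := t_PIM pumul
theorem lcnt : S_LCNT := t_LCNT
theorem lm1 : S_LM1 := t_LM1 star edg pim lcnt pumul cmul msmul
theorem w1 : S_W1 := t_W1 pc rk
theorem w0 : S_W0 := t_W0 pc rk
theorem lf : S_LF := t_LF w1 w0
theorem lm0 : S_LM0 := t_LM0 lf pumul msmul
theorem main : S_MAIN := t_MAIN t_TRI t_DIS t_CUT km lm1 lm0 mlin msmul msum
theorem final : S_FINAL := t_FIN main msum t_Cpart t_PUcoeff t_FUN

end All

end Pool.Agent.SWC
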