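import Mathlib

/-!
Chromatic quasisymmetric functions of natural unit interval graphs: definitions and basic lemmas.

The graph: `m : ℕ → ℕ` monotone; `u < v` are adjacent iff `v ≤ m u`. All vertex sets are finite
sets of natural numbers. `Z m q U w` is the sum over all proper colourings of `U` with colours in
`Fin N` of `q ^ asc` times the product of the vertex weights `w v (colour v)`.
-/

set_option autoImplicit false

namespace Pool.Agent.SWC

open Finset

/-- q-integer -/
def qn {R : Type} [CommRing R] (q : R) (n : ℕ) : R := ∑ i ∈ range n, q ^ i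

/-- q-factorial -/
def qf {R : Type} [CommRing R] (q : R) (n : ℕ) : R := ∏ i ∈ range n, qn q (i + 1)

/-- weight of the pair of vertices `u`, `v` with colours `k`, `k'` -/
def pw {R : Type} [CommRing R] {N : ℕ} (m : ℕ → ℕ) (q : R)
    (u : ℕ) (k : Fin N) (v : ℕ) (k' : Fin N) : R :=
  if u < v ∧ v ≤ m u then (if k = k' then 0 else if k < k' then q else 1)
  else if v < u ∧ u ≤ m v then (if k = k' then 0 else if k' < k then q else 1)
  else 1

/-- partition function of a list of vertices -/
def Zl {R : Type} [CommRing R] {N : ℕ} (m : ℕ → ℕ) (q : R) :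
    List ℕ → (ℕ → Fin N → R) → R
  | [], _ => 1
  | v :: l, w => ∑ k, w v k * Zl m q l (fun u k' => w u k' * pw m q v k u k')

/-- partition function of a finite set of vertices -/
noncomputable def Z {R : Type} [CommRing R] {N : ℕ} (m : ℕ → ℕ) (q : R)
    (U : Finset ℕ) (w : ℕ → Fin N → R) : R := Zl m q U.toList w

/-- number of left neighbours of `v` in `S` -/
def aL (m : ℕ → ℕ) (S : Finset ℕ) (v : ℕ) : ℕ := (S.filter (fun u => u < v ∧ v ≤ m u)).card

/-- number of right neighbours of `v` in `S` -/
def aR (m : ℕ → ℕ) (S : Finset ℕ) (v : ℕ) : ℕ := (S.filter (fun u => v < u ∧ u ≤ m v)).card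

/-- the product of the q-integers of the left degrees inside `S`, over `v ≠ s` -/
def Pi {R : Type} [CommRing R] (m : ℕ → ℕ) (q : R) (s : ℕ) (S : Finset ℕ) : R :=
  ∏ v ∈ S.erase s, qn q (aL m S v)

/-- number of edges from `S` to the right into `U \ S` -/
def ea (m : ℕ → ℕ) (U S : Finset ℕ) : ℕ := ∑ v ∈ U \ S, aL m S v

/-- number of edges from `S` to the left into `U \ S` -/
def eb (m : ℕ → ℕ) (U S : Finset ℕ) : ℕ := ∑ v ∈ U \ S, aR m S v

/-- number of edges inside `U` -/
def eE (m : ℕ → ℕ) (U : Finset ℕ) : ℕ := ∑ v ∈ U, aL m U v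

/-- elementary symmetric function of `x` -/
def es {R : Type} [CommRing R] {N : ℕ} (x : Fin N → R) (d : ℕ) : R :=
  ∑ C ∈ powersetCard d univ, ∏ k ∈ C, x k

/-- marked elementary symmetric function (clique with `c + 1` vertices, last vertex coloured `j`,
divided by `[c]!`) -/
def eh {R : Type} [CommRing R] {N : ℕ} (q : R) (x : Fin N → R) (c : ℕ) (j : Fin N) : R :=
  x j * ∑ C ∈ powersetCard c (univ.erase j), ∏ k ∈ C, (if k < j then q * x k else x k)

/-- chromatic quasisymmetric function of `U` -/
noncomputable def XX {R : Type} [CommRing R] {N : ℕ} (m : ℕ → ℕ) (q : R) (x : Fin N → R)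
    (U : Finset ℕ) : R := Z m q U (fun _ k => x k)

/-- transfer operator: vertex `s` gets the weight `f`, vertex `t` must have colour `j` -/
noncomputable def TT {R : Type} [CommRing R] {N : ℕ} (m : ℕ → ℕ) (q : R) (x : Fin N → R)
    (U : Finset ℕ) (s t : ℕ) (f : Fin N → R) (j : Fin N) : R :=
  Z m q U (fun v k => (if v = s then f k else x k) *
    (if v = t then (if k = j then 1 else 0) else 1))

/-- marked chromatic quasisymmetric function: vertex `t` has colour `j` -/
noncomputable def FF {R : Type} [CommRing R] {N : ℕ} (m : ℕ → ℕ) (q : R) (x : Fin N → R)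
    (U : Finset ℕ) (t : ℕ) (j : Fin N) : R :=
  Z m q U (fun v k => x k * (if v = t then (if k = j then 1 else 0) else 1))

section api

variable {R : Type} [CommRing R] {N : ℕ}

theorem pw_comm (m : ℕ → ℕ) (q : R) (u : ℕ) (k : Fin N) (v : ℕ) (k' : Fin N) :
    pw m q u k v k' = pw m q v k' u k := by
  unfold pw
  by_cases h1 : u < v ∧ v ≤ m u
  · have h2 : ¬ (v < u ∧ u ≤ m v) := by omega
    rw [if_pos h1, if_neg h2, if_pos h1]
    by_cases h3 : k = k'
    · subst h3; simp
    · have h4 : ¬ (k' = k) := fun h => h3 h.symm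
      rw [if_neg h3, if_neg h4]
  · rw [if_neg h1]
    by_cases h2 : v < u ∧ u ≤ m v
    · rw [if_pos h2, if_pos h2]
      by_cases h3 : k = k'
      · subst h3; simp
      · have h4 : ¬ (k' = k) := fun h => h3 h.symm
        rw [if_neg h3, if_neg h4]
    · rw [if_neg h2, if_neg h2, if_neg h1]

theorem pw_of_not {m : ℕ → ℕ} {q : R} {u v : ℕ} (h1 : ¬ (u < v ∧ v ≤ m u))
    (h2 : ¬ (v < u ∧ u ≤ m v)) (k k' : Fin N) : pw m q u k v k' = 1 := by
  unfold pw; rw [if_neg h1, if_neg h2]

theorem pw_lt {m : ℕ → ℕ} {q : R} {u v : ℕ} (h1 : u < v) (h2 : v ≤ m u) (k k' : Fin N) :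
    pw m q u k v k' = if k = k' then 0 else if k < k' then q else 1 := by
  unfold pw; rw [if_pos ⟨h1, h2⟩]

theorem pw_gt {m : ℕ → ℕ} {q : R} {u v : ℕ} (h1 : v < u) (h2 : u ≤ m v) (k k' : Fin N) :
    pw m q u k v k' = if k = k' then 0 else if k' < k then q else 1 := by
  unfold pw
  have h3 : ¬ (u < v ∧ v ≤ m u) := by omega
  rw [if_neg h3, if_pos ⟨h1, h2⟩]

theorem Zl_congr {m : ℕ → ℕ} {q : R} (l : List ℕ) :
    ∀ {w w' : ℕ → Fin N → R}, (∀ v ∈ l, ∀ k, w v k = w' v k) → Zl m q l w = Zl m q l w' := by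
  induction l with
  | nil => intro w w' _; rfl
  | cons v l ih =>
    intro w w' h
    unfold Zl
    refine Finset.sum_congr rfl fun k _ => ?_
    rw [h v (by simp) k]
    rw [ih (w := fun u k' => w u k' * pw m q v k u k')
      (w' := fun u k' => w' u k' * pw m q v k u k')]
    intro u hu k'
    rw [h u (by simp [hu]) k']

theorem Zl_perm {m : ℕ → ℕ} {q : R} {l l' : List ℕ} (h : l.Perm l') :
    ∀ w : ℕ → Fin N → R, Zl m q l w = Zl m q l' w := by
  induction h with
  | nil => intro w; rfl
  | cons v _ ih =>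
    intro w
    unfold Zl
    exact Finset.sum_congr rfl fun k _ => by rw [ih]
  | swap u v l =>
    intro w
    simp only [Zl, Finset.mul_sum]
    rw [Finset.sum_comm]
    refine Finset.sum_congr rfl fun k _ => Finset.sum_congr rfl fun k' _ => ?_
    rw [pw_comm m q v k' u k]
    have : (fun u_1 k'_1 => w u_1 k'_1 * pw m q v k' u_1 k'_1 * pw m q u k u_1 k'_1) =
        (fun u_1 k'_1 => w u_1 k'_1 * pw m q u k u_1 k'_1 * pw m q v k' u_1 k'_1) := by
      funext a b; ring
    rw [this]
    ring
  | trans _ _ ih1 ih2 => intro w; rw [ih1, ih2]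

@[simp] theorem Z_empty (m : ℕ → ℕ) (q : R) (w : ℕ → Fin N → R) : Z m q ∅ w = 1 := by
  simp [Z, Zl]

theorem Z_insert {m : ℕ → ℕ} {q : R} {U : Finset ℕ} {v : ℕ} (hv : v ∉ U)
    (w : ℕ → Fin N → R) :
    Z m q (insert v U) w = ∑ k, w v k * Z m q U (fun u k' => w u k' * pw m q v k u k') := by
  unfold Z
  rw [Zl_perm (Finset.toList_insert hv) w]
  rfl

theorem Z_erase {m : ℕ → ℕ} {q : R} {U : Finset ℕ} {v : ℕ} (hv : v ∈ U)
    (w : ℕ → Fin N → R) :
    Z m q U w = ∑ k, w v k * Z m q (U.erase v) (fun u k' => w u k' * pw m q v k u k') := by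
  conv_lhs => rw [← Finset.insert_erase hv]
  rw [Z_insert (Finset.notMem_erase v U)]

theorem Z_congr {m : ℕ → ℕ} {q : R} {U : Finset ℕ} {w w' : ℕ → Fin N → R}
    (h : ∀ v ∈ U, ∀ k, w v k = w' v k) : Z m q U w = Z m q U w' := by
  unfold Z
  exact Zl_congr _ (fun v hv k => h v (by simpa using hv) k)

theorem Z_singleton (m : ℕ → ℕ) (q : R) (v : ℕ) (w : ℕ → Fin N → R) :
    Z m q {v} w = ∑ k, w v k := by
  rw [← insert_empty_eq, Z_insert (by simp)]
  simp

/-- scaling all weights at each vertex by a factor -/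
theorem Z_scale (m : ℕ → ℕ) (q : R) (U : Finset ℕ) (r : ℕ → R) :
    ∀ w : ℕ → Fin N → R,
    Z m q U (fun v k => w v k * r v) = Z m q U w * ∏ v ∈ U, r v := by
  induction U using Finset.induction_on with
  | empty => intro w; simp
  | insert v U hv ih =>
    intro w
    rw [Z_insert hv, Z_insert hv, Finset.prod_insert hv, Finset.sum_mul]
    refine Finset.sum_congr rfl fun k _ => ?_
    have : (fun u k' => w u k' * r u * pw m q v k u k') =
        (fun u k' => (w u k' * pw m q v k u k') * r u) := by
      funext a b; ring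
    rw [this, ih]
    ring

/-- the partition function is linear in the weights at one vertex -/
theorem Z_update_sum {m : ℕ → ℕ} {q : R} {U : Finset ℕ} {v : ℕ} (hv : v ∈ U) {ι : Type}
    (s : Finset ι) (r : ι → R) (f : ι → Fin N → R) (w : ℕ → Fin N → R) :
    Z m q U (fun u k => if u = v then ∑ i ∈ s, r i * f i k else w u k) =
      ∑ i ∈ s, r i * Z m q U (fun u k => if u = v then f i k else w u k) := by
  rw [Z_erase hv]
  have h1 : ∀ i, Z m q U (fun u k => if u = v then f i k else w u k) =
      ∑ k, f i k * Z m q (U.erase v) (fun u k' => w u k' * pw m q v k u k') := by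
    intro i
    rw [Z_erase hv]
    refine Finset.sum_congr rfl fun k _ => ?_
    simp only [if_true]
    congr 1
    refine Z_congr fun u hu k' => ?_
    rw [if_neg (Finset.ne_of_mem_erase hu)]
  simp only [h1, Finset.mul_sum, if_true]
  rw [Finset.sum_comm]
  refine Finset.sum_congr rfl fun k _ => ?_
  rw [Finset.sum_mul]
  refine Finset.sum_congr rfl fun i _ => ?_
  rw [mul_assoc]
  congr 2
  refine Z_congr fun u hu k' => ?_
  rw [if_neg (Finset.ne_of_mem_erase hu)]

/-- the value of the partition function as a linear form in the weights at one vertex -/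
theorem Z_vertex {m : ℕ → ℕ} {q : R} {U : Finset ℕ} {v : ℕ} (hv : v ∈ U)
    (w : ℕ → Fin N → R) :
    Z m q U w = ∑ i, w v i * Z m q U (fun u k => if u = v then (if k = i then 1 else 0)
      else w u k) := by
  rw [← Z_update_sum hv]
  refine Z_congr fun u _ k => ?_
  by_cases h : u = v
  · subst h; simp
  · simp [h]

/-- two vertex sets without edges between them -/
theorem Z_union {m : ℕ → ℕ} {q : R} {A B : Finset ℕ} :
    ∀ (_ : Disjoint A B)
    (_ : ∀ u ∈ A, ∀ v ∈ B, ¬ (u < v ∧ v ≤ m u) ∧ ¬ (v < u ∧ u ≤ m v)) (w : ℕ → Fin N → R),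
    Z m q (A ∪ B) w = Z m q A w * Z m q B w := by
  induction A using Finset.induction_on with
  | empty => intro _ _ w; simp
  | insert a A ha ih =>
    intro hd he w
    have haB : a ∉ B := fun h => Finset.disjoint_left.mp hd (Finset.mem_insert_self a A) h
    have hdA : Disjoint A B := Disjoint.mono_left (Finset.subset_insert a A) hd
    have haU : a ∉ A ∪ B := by simp [ha, haB]
    rw [Finset.insert_union, Z_insert haU, Z_insert ha, Finset.sum_mul]
    refine Finset.sum_congr rfl fun k _ => ?_
    rw [ih hdA (fun u hu v hv => he u (Finset.mem_insert_of_mem hu) v hv)]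
    have : Z m q B (fun u k' => w u k' * pw m q a k u k') = Z m q B w := by
      refine Z_congr fun u hu k' => ?_
      have := he a (Finset.mem_insert_self a A) u hu
      rw [pw_of_not this.1 this.2, mul_one]
    rw [this]
    ring

/-- the partition function commutes with ring homomorphisms -/
theorem Z_map {R' : Type} [CommRing R'] (φ : R →+* R') (m : ℕ → ℕ) (q : R) (U : Finset ℕ) :
    ∀ w : ℕ → Fin N → R, φ (Z m q U w) = Z m (φ q) U (fun v k => φ (w v k)) := by
  induction U using Finset.induction_on with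
  | empty => intro w; simp
  | insert v U hv ih =>
    intro w
    rw [Z_insert hv, Z_insert hv, map_sum]
    refine Finset.sum_congr rfl fun k _ => ?_
    rw [map_mul, ih]
    congr 2
    funext u k'
    rw [map_mul]
    congr 1
    unfold pw
    split_ifs <;> simp

theorem Z_zero {m : ℕ → ℕ} {q : R} {U : Finset ℕ} {v : ℕ} (hv : v ∈ U)
    {w : ℕ → Fin N → R} (h : ∀ k, w v k = 0) : Z m q U w = 0 := by
  rw [Z_erase hv]
  exact Finset.sum_eq_zero fun k _ => by rw [h k, zero_mul]

end api

end Pool.Agent.SWC
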