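import Pool.Agent.Lib.MP_263316_co.Spec

/-!
MP_263316_co: splitting off one colour, threshold `i`.
-/

set_option autoImplicit false

namespace Pool.Agent.SWC

open Finset

namespace CS1aux

private theorem prod_pw {R : Type} [CommRing R] {N : ℕ} (m : ℕ → ℕ) (q : R) (v : ℕ)
    (i k : Fin N) (hk : k ≠ i) (J : Finset ℕ) :
    ∏ u ∈ J, pw m q u i v k = q ^ (if i < k then aL m J v else aR m J v) := by
  rcases lt_or_gt_of_ne hk with h | h
  · have h1 : ¬ i < k := not_lt.mpr h.le
    rw [if_neg h1]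
    unfold aR
    rw [← Finset.prod_const, Finset.prod_filter]
    refine Finset.prod_congr rfl fun u _ => ?_
    by_cases h2 : v < u ∧ u ≤ m v
    · rw [if_pos h2, pw_gt h2.1 h2.2, if_neg (Ne.symm hk), if_pos h]
    · rw [if_neg h2]
      by_cases h3 : u < v ∧ v ≤ m u
      · rw [pw_lt h3.1 h3.2, if_neg (Ne.symm hk), if_neg h1]
      · exact pw_of_not h3 h2 i k
  · have h1 : ¬ k < i := not_lt.mpr h.le
    rw [if_pos h]
    unfold aL
    rw [← Finset.prod_const, Finset.prod_filter]
    refine Finset.prod_congr rfl fun u _ => ?_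
    by_cases h3 : u < v ∧ v ≤ m u
    · rw [if_pos h3, pw_lt h3.1 h3.2, if_neg (Ne.symm hk), if_pos h]
    · rw [if_neg h3]
      by_cases h2 : v < u ∧ u ≤ m v
      · rw [pw_gt h2.1 h2.2, if_neg (Ne.symm hk), if_neg h1]
      · exact pw_of_not h3 h2 i k

private theorem aL_union (m : ℕ → ℕ) {S J : Finset ℕ} (h : Disjoint S J) (v : ℕ) :
    aL m (S ∪ J) v = aL m S v + aL m J v := by
  unfold aL
  rw [Finset.filter_union, Finset.card_union_of_disjoint (Finset.disjoint_filter_filter h)]

private theorem aR_union (m : ℕ → ℕ) {S J : Finset ℕ} (h : Disjoint S J) (v : ℕ) :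
    aR m (S ∪ J) v = aR m S v + aR m J v := by
  unfold aR
  rw [Finset.filter_union, Finset.card_union_of_disjoint (Finset.disjoint_filter_filter h)]

end CS1aux

/-- **CS1.** -/
theorem t_CS1 (h0 : S_CS) : S_CS1 := by
  intro R _ N m q x μ U S i
  unfold ZS
  rw [h0 R N m q (U \ S) _ i]
  refine Finset.sum_congr rfl fun J hJ => ?_
  rw [Finset.mem_filter, Finset.mem_powerset] at hJ
  have hd : Disjoint S J := by
    rw [Finset.disjoint_left]
    intro a ha hb
    exact (Finset.mem_sdiff.mp (hJ.1 hb)).2 ha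
  have hU : (U \ S) \ J = U \ (S ∪ J) := by
    ext a
    simp only [Finset.mem_sdiff, Finset.mem_union]
    tauto
  unfold ZD
  rw [hU]
  congr 1
  · refine Finset.prod_congr rfl fun v _ => ?_
    rw [if_pos le_rfl]
  · refine Z_congr fun v _ k => ?_
    by_cases hk : k = i
    · rw [if_pos hk, if_pos hk]
    · rw [if_neg hk, if_neg hk, CS1aux.prod_pw m q v i k hk J, CS1aux.aL_union m hd,
        CS1aux.aR_union m hd]
      by_cases h2 : i < k
      · have h3 : (i : ℕ) ≤ (k : ℕ) := h2.le
        rw [if_pos h2, if_pos h2, if_pos h3, pow_add]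
        ring
      · have h3 : ¬ (i : ℕ) ≤ (k : ℕ) := by
          intro h4
          exact h2 (lt_of_le_of_ne h4 (Ne.symm hk))
        rw [if_neg h2, if_neg h2, if_neg h3, pow_add]
        ring

end Pool.Agent.SWC
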