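import Pool.Agent.Lib.MP_263316_co.Spec

/-!
MP_263316_co: the transfer operator of a clique.
-/

set_option autoImplicit false

namespace Pool.Agent.SWC

open Finset

namespace KTaux

variable {R : Type} [CommRing R]

theorem qn_geom (q : R) (n : ℕ) : (1 - q) * qn q n = 1 - q ^ n := by
  unfold qn
  exact mul_neg_geom_sum q n

theorem qf_succ (q : R) (n : ℕ) : qf q (n + 1) = qf q n * qn q (n + 1) := by
  unfold qf
  rw [Finset.prod_range_succ]

/-- the product over the ranks -/
theorem prod_rank (q : R) (S : Finset ℕ) :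
    ∏ v ∈ S, qn q ((S.filter (fun u => u < v)).card + 1) = qf q S.card := by
  induction S using Finset.induction_on_max with
  | empty =>
    simp [qf]
  | insert a S hlt ih =>
    have ha : a ∉ S := fun h => lt_irrefl a (hlt a h)
    rw [Finset.prod_insert ha, Finset.card_insert_of_notMem ha, qf_succ, mul_comm]
    congr 1
    · rw [← ih]
      refine Finset.prod_congr rfl fun v hv => ?_
      rw [Finset.filter_insert, if_neg (not_lt.2 (hlt v hv).le)]
    · rw [Finset.filter_insert, if_neg (lt_irrefl a), Finset.filter_true_of_mem]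
      intro u hu
      exact hlt u hu

theorem aL_eq {m : ℕ → ℕ} {U S : Finset ℕ} {v : ℕ} (hcl : Clq m U) (hS : S ⊆ U) (hv : v ∈ U) :
    aL m S v = (S.filter (fun u => u < v)).card := by
  unfold aL
  congr 1
  apply Finset.filter_congr
  intro u hu
  exact ⟨fun h => h.1, fun h => ⟨h, hcl u (hS hu) v hv h⟩⟩

theorem aR_eq {m : ℕ → ℕ} {U S : Finset ℕ} {v : ℕ} (hcl : Clq m U) (hS : S ⊆ U) (hv : v ∈ U) :
    aR m S v = (S.filter (fun u => v < u)).card := by
  unfold aR
  congr 1
  apply Finset.filter_congr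
  intro u hu
  exact ⟨fun h => h.1, fun h => ⟨h, hcl v hv u (hS hu) h⟩⟩

section

variable {m : ℕ → ℕ} {U : Finset ℕ} {s t : ℕ}

/-- the setting -/
structure St (m : ℕ → ℕ) (U : Finset ℕ) (s t : ℕ) : Prop where
  hs : s ∈ U
  ht : t ∈ U
  hst : s < t
  hb : ∀ u ∈ U, s ≤ u ∧ u ≤ t
  cl : Clq m U

/-- the inner vertices -/
def Wi (U : Finset ℕ) (s t : ℕ) : Finset ℕ := (U.erase s).erase t

theorem mem_Wi {v : ℕ} : v ∈ Wi U s t ↔ v ≠ t ∧ v ≠ s ∧ v ∈ U := by
  unfold Wi
  rw [Finset.mem_erase, Finset.mem_erase]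

theorem Wi_lt (h : St m U s t) {v : ℕ} (hv : v ∈ Wi U s t) : s < v ∧ v < t := by
  rw [mem_Wi] at hv
  have := h.hb v hv.2.2
  omega

theorem card_Wi (h : St m U s t) {k : ℕ} (hk : U.card = k + 1) :
    1 ≤ k ∧ (Wi U s t).card = k - 1 := by
  have h1 : t ∈ U.erase s := Finset.mem_erase.2 ⟨h.hst.ne', h.ht⟩
  have h2 := Finset.card_erase_of_mem h1
  have h3 := Finset.card_erase_of_mem h.hs
  have h4 : 0 < (U.erase s).card := Finset.card_pos.2 ⟨t, h1⟩
  unfold Wi
  omega

theorem sum_PW0 (h : St m U s t) (F : Finset ℕ → R) :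
    ∑ S ∈ PW0 U s t, F S = ∑ S' ∈ (Wi U s t).powerset, F (insert s S') := by
  unfold PW0
  refine Finset.sum_bij' (fun S _ => S.erase s) (fun S' _ => insert s S') ?_ ?_ ?_ ?_ ?_
  · intro S hS
    simp only [Finset.mem_filter, Finset.mem_powerset] at hS ⊢
    intro v hv
    rw [Finset.mem_erase] at hv
    rw [mem_Wi]
    refine ⟨?_, hv.1, hS.1 hv.2⟩
    rintro rfl
    exact hS.2.2 hv.2
  · intro S' hS'
    simp only [Finset.mem_filter, Finset.mem_powerset] at hS' ⊢
    refine ⟨?_, Finset.mem_insert_self _ _, ?_⟩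
    · intro v hv
      rcases Finset.mem_insert.1 hv with rfl | hv
      · exact h.hs
      · exact (mem_Wi.1 (hS' hv)).2.2
    · intro ht
      rcases Finset.mem_insert.1 ht with ht | ht
      · exact h.hst.ne' ht
      · exact (mem_Wi.1 (hS' ht)).1 rfl
  · intro S hS
    simp only [Finset.mem_filter, Finset.mem_powerset] at hS
    exact Finset.insert_erase hS.2.1
  · intro S' hS'
    simp only [Finset.mem_powerset] at hS'
    exact Finset.erase_insert fun hs => (mem_Wi.1 (hS' hs)).2.1 rfl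
  · intro S hS
    simp only [Finset.mem_filter, Finset.mem_powerset] at hS
    rw [Finset.insert_erase hS.2.1]

theorem sum_PW1 (h : St m U s t) (F : Finset ℕ → R) :
    ∑ S ∈ PW1 U s t, F S = ∑ S' ∈ (Wi U s t).powerset, F (insert t (insert s S')) := by
  unfold PW1
  refine Finset.sum_bij' (fun S _ => (S.erase t).erase s) (fun S' _ => insert t (insert s S'))
    ?_ ?_ ?_ ?_ ?_
  · intro S hS
    simp only [Finset.mem_filter, Finset.mem_powerset] at hS ⊢
    intro v hv
    rw [Finset.mem_erase, Finset.mem_erase] at hv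
    rw [mem_Wi]
    exact ⟨hv.2.1, hv.1, hS.1 hv.2.2⟩
  · intro S' hS'
    simp only [Finset.mem_filter, Finset.mem_powerset] at hS' ⊢
    refine ⟨?_, Finset.mem_insert_of_mem (Finset.mem_insert_self _ _),
      Finset.mem_insert_self _ _⟩
    intro v hv
    rcases Finset.mem_insert.1 hv with rfl | hv
    · exact h.ht
    · rcases Finset.mem_insert.1 hv with rfl | hv
      · exact h.hs
      · exact (mem_Wi.1 (hS' hv)).2.2
  · intro S hS
    simp only [Finset.mem_filter, Finset.mem_powerset] at hS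
    have h1 : s ∈ S.erase t := Finset.mem_erase.2 ⟨h.hst.ne, hS.2.1⟩
    rw [Finset.insert_erase h1, Finset.insert_erase hS.2.2]
  · intro S' hS'
    simp only [Finset.mem_powerset] at hS'
    have h1 : s ∉ S' := fun hs => (mem_Wi.1 (hS' hs)).2.1 rfl
    have h2 : t ∉ insert s S' := by
      intro ht
      rcases Finset.mem_insert.1 ht with ht | ht
      · exact h.hst.ne' ht
      · exact (mem_Wi.1 (hS' ht)).1 rfl
    rw [Finset.erase_insert h2, Finset.erase_insert h1]
  · intro S hS
    simp only [Finset.mem_filter, Finset.mem_powerset] at hS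
    have h1 : s ∈ S.erase t := Finset.mem_erase.2 ⟨h.hst.ne, hS.2.1⟩
    rw [Finset.insert_erase h1, Finset.insert_erase hS.2.2]

theorem subs0 (h : St m U s t) {S' : Finset ℕ} (hS : S' ⊆ Wi U s t) : insert s S' ⊆ U := by
  intro v hv
  rcases Finset.mem_insert.1 hv with rfl | hv
  · exact h.hs
  · exact (mem_Wi.1 (hS hv)).2.2

theorem subs1 (h : St m U s t) {S' : Finset ℕ} (hS : S' ⊆ Wi U s t) :
    insert t (insert s S') ⊆ U := by
  intro v hv
  rcases Finset.mem_insert.1 hv with rfl | hv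
  · exact h.ht
  · exact subs0 h hS hv

theorem s_nmem {S' : Finset ℕ} (hS : S' ⊆ Wi U s t) : s ∉ S' :=
  fun hs => (mem_Wi.1 (hS hs)).2.1 rfl

theorem t_nmem {S' : Finset ℕ} (hS : S' ⊆ Wi U s t) : t ∉ S' :=
  fun hs => (mem_Wi.1 (hS hs)).1 rfl

theorem t_nmem' (h : St m U s t) {S' : Finset ℕ} (hS : S' ⊆ Wi U s t) : t ∉ insert s S' := by
  intro ht
  rcases Finset.mem_insert.1 ht with ht | ht
  · exact h.hst.ne' ht
  · exact t_nmem hS ht

/-- left degree of an inner vertex -/
theorem aL0 (h : St m U s t) {S' : Finset ℕ} (hS : S' ⊆ Wi U s t) {v : ℕ} (hv : v ∈ U)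
    (hsv : s < v) : aL m (insert s S') v = (S'.filter (fun u => u < v)).card + 1 := by
  rw [aL_eq h.cl (subs0 h hS) hv, Finset.filter_insert, if_pos hsv,
    Finset.card_insert_of_notMem]
  intro h1
  exact s_nmem hS (Finset.mem_of_mem_filter s h1)

theorem aL1 (h : St m U s t) {S' : Finset ℕ} (hS : S' ⊆ Wi U s t) {v : ℕ} (hv : v ∈ U)
    (hsv : s < v) :
    aL m (insert t (insert s S')) v = (S'.filter (fun u => u < v)).card + 1 := by
  rw [aL_eq h.cl (subs1 h hS) hv, Finset.filter_insert, if_neg (not_lt.2 (h.hb v hv).2),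
    Finset.filter_insert, if_pos hsv, Finset.card_insert_of_notMem]
  intro h1
  exact s_nmem hS (Finset.mem_of_mem_filter s h1)

theorem aR0 (h : St m U s t) {S' : Finset ℕ} (hS : S' ⊆ Wi U s t) {v : ℕ} (hv : v ∈ U)
    (hsv : s < v) : aR m (insert s S') v = (S'.filter (fun u => v < u)).card := by
  rw [aR_eq h.cl (subs0 h hS) hv, Finset.filter_insert, if_neg (not_lt.2 hsv.le)]

theorem Pi0 (h : St m U s t) (q : R) {S' : Finset ℕ} (hS : S' ⊆ Wi U s t) :
    Pi m q s (insert s S') = qf q S'.card := by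
  unfold Pi
  rw [Finset.erase_insert (s_nmem hS), ← prod_rank]
  refine Finset.prod_congr rfl fun v hv => ?_
  have hv' := hS hv
  rw [aL0 h hS (mem_Wi.1 hv').2.2 (Wi_lt h hv').1]

theorem Pi1 (h : St m U s t) (q : R) {S' : Finset ℕ} (hS : S' ⊆ Wi U s t) :
    Pi m q s (insert t (insert s S')) = qf q S'.card * qn q (S'.card + 1) := by
  unfold Pi
  have e1 : (insert t (insert s S')).erase s = insert t S' := by
    rw [Finset.insert_comm, Finset.erase_insert]
    intro h1
    rcases Finset.mem_insert.1 h1 with h1 | h1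
    · exact h.hst.ne h1
    · exact s_nmem hS h1
  rw [e1, Finset.prod_insert (t_nmem hS), aL1 h hS h.ht h.hst, mul_comm]
  congr 1
  · rw [← prod_rank]
    refine Finset.prod_congr rfl fun v hv => ?_
    have hv' := hS hv
    rw [aL1 h hS (mem_Wi.1 hv').2.2 (Wi_lt h hv').1]
  · rw [Finset.filter_true_of_mem]
    intro u hu
    exact (Wi_lt h (hS hu)).2

theorem sd0 (h : St m U s t) {S' : Finset ℕ} (hS : S' ⊆ Wi U s t) :
    U \ insert s S' = insert t (Wi U s t \ S') := by
  ext v
  simp only [Finset.mem_sdiff, Finset.mem_insert, mem_Wi, not_or]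
  constructor
  · rintro ⟨h1, h2, h3⟩
    by_cases h4 : v = t
    · exact Or.inl h4
    · exact Or.inr ⟨⟨h4, h2, h1⟩, h3⟩
  · rintro (rfl | ⟨⟨h4, h2, h1⟩, h3⟩)
    · exact ⟨h.ht, h.hst.ne', t_nmem hS⟩
    · exact ⟨h1, h2, h3⟩

theorem sd1 (h : St m U s t) {S' : Finset ℕ} (hS : S' ⊆ Wi U s t) :
    U \ insert t (insert s S') = Wi U s t \ S' := by
  ext v
  simp only [Finset.mem_sdiff, Finset.mem_insert, mem_Wi, not_or]
  constructor
  · rintro ⟨h1, h4, h2, h3⟩
    exact ⟨⟨h4, h2, h1⟩, h3⟩
  · rintro ⟨⟨h4, h2, h1⟩, h3⟩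
    exact ⟨h1, h4, h2, h3⟩

theorem t_nmem2 {S' : Finset ℕ} : t ∉ Wi U s t \ S' := by
  intro h1
  exact (mem_Wi.1 (Finset.mem_sdiff.1 h1).1).1 rfl

theorem ea0 (h : St m U s t) {k : ℕ} (hk : U.card = k + 1) {S' : Finset ℕ}
    (hS : S' ⊆ Wi U s t) : ea m U (insert s S') =
      k + ∑ w ∈ Wi U s t \ S', (S'.filter (fun u => u < w)).card := by
  unfold ea
  rw [sd0 h hS, Finset.sum_insert t_nmem2, aL0 h hS h.ht h.hst, Finset.filter_true_of_mem
    (fun u hu => (Wi_lt h (hS hu)).2)]
  have e1 : ∑ v ∈ Wi U s t \ S', aL m (insert s S') v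
      = ∑ v ∈ Wi U s t \ S', ((S'.filter (fun u => u < v)).card + 1) := by
    refine Finset.sum_congr rfl fun v hv => ?_
    have hv' := (Finset.mem_sdiff.1 hv).1
    rw [aL0 h hS (mem_Wi.1 hv').2.2 (Wi_lt h hv').1]
  rw [e1, Finset.sum_add_distrib, Finset.sum_const, smul_eq_mul, mul_one,
    Finset.card_sdiff_of_subset hS]
  have h1 := card_Wi h hk
  have h2 := Finset.card_le_card hS
  omega

theorem ea1 (h : St m U s t) {k : ℕ} (hk : U.card = k + 1) {S' : Finset ℕ}
    (hS : S' ⊆ Wi U s t) : ea m U (insert t (insert s S')) =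
      (k - 1 - S'.card) + ∑ w ∈ Wi U s t \ S', (S'.filter (fun u => u < w)).card := by
  unfold ea
  rw [sd1 h hS]
  have e1 : ∑ v ∈ Wi U s t \ S', aL m (insert t (insert s S')) v
      = ∑ v ∈ Wi U s t \ S', ((S'.filter (fun u => u < v)).card + 1) := by
    refine Finset.sum_congr rfl fun v hv => ?_
    have hv' := (Finset.mem_sdiff.1 hv).1
    rw [aL1 h hS (mem_Wi.1 hv').2.2 (Wi_lt h hv').1]
  rw [e1, Finset.sum_add_distrib, Finset.sum_const, smul_eq_mul, mul_one,
    Finset.card_sdiff_of_subset hS]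
  have h1 := card_Wi h hk
  omega

theorem eb0 (h : St m U s t) {S' : Finset ℕ} (hS : S' ⊆ Wi U s t) :
    eb m U (insert s S') = ∑ w ∈ Wi U s t \ S', (S'.filter (fun u => w < u)).card := by
  unfold eb
  rw [sd0 h hS, Finset.sum_insert t_nmem2, aR0 h hS h.ht h.hst]
  have e0 : (S'.filter (fun u => t < u)).card = 0 := by
    rw [Finset.card_eq_zero, Finset.filter_eq_empty_iff]
    intro u hu
    exact not_lt.2 (Wi_lt h (hS hu)).2.le
  rw [e0, zero_add]
  refine Finset.sum_congr rfl fun v hv => ?_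
  have hv' := (Finset.mem_sdiff.1 hv).1
  rw [aR0 h hS (mem_Wi.1 hv').2.2 (Wi_lt h hv').1]

end

/-- the sum over `PW0` -/
theorem total0 (hKF : S_KF) (hKB : S_KB) {N : ℕ} {m : ℕ → ℕ} {U : Finset ℕ} {s t k : ℕ}
    (h : St m U s t) (hk : U.card = k + 1) (q : R) (x : Fin N → R) (c : ℕ) (j : Fin N) :
    ∑ S ∈ PW0 U s t, Pi m q s S * (q ^ ea m U S - q ^ (c + S.card + eb m U S)) *
      es x (c + S.card) * FF m q x (U \ S) t j =
    qf q (k - 1) * ∑ i ∈ range k, (q ^ k - q ^ (c + k - i)) * es x (c + k - i) * eh q x i j := by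
  obtain ⟨hk1, hW⟩ := card_Wi h hk
  rw [sum_PW0 h, Finset.sum_powerset, hW, Nat.sub_add_cancel hk1, ← Finset.sum_range_reflect,
    Finset.mul_sum]
  refine Finset.sum_congr rfl fun i hi => ?_
  rw [Finset.mem_range] at hi
  have hik : k - 1 - i ≤ (Wi U s t).card := by omega
  obtain ⟨b1, b2⟩ := hKB R q (Wi U s t) (k - 1 - i) hik
  have e0 : (Wi U s t).card - (k - 1 - i) = i := by omega
  rw [e0, hW] at b1 b2
  have e1 : ∀ S' ∈ powersetCard (k - 1 - i) (Wi U s t),
      Pi m q s (insert s S') * (q ^ ea m U (insert s S') -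
        q ^ (c + (insert s S').card + eb m U (insert s S'))) *
        es x (c + (insert s S').card) * FF m q x (U \ insert s S') t j =
      (es x (c + k - i) * eh q x i j) * (q ^ k * (qf q (k - 1 - i) * qf q i *
        q ^ (∑ w ∈ Wi U s t \ S', (S'.filter (fun u => u < w)).card)) -
        q ^ (c + k - i) * (qf q (k - 1 - i) * qf q i *
        q ^ (∑ w ∈ Wi U s t \ S', (S'.filter (fun u => w < u)).card))) := by
    intro S' hS'
    rw [Finset.mem_powersetCard] at hS'
    obtain ⟨hS, hc⟩ := hS'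
    have c1 : (insert s S').card = k - i := by
      rw [Finset.card_insert_of_notMem (s_nmem hS), hc]
      omega
    have c2 : c + (k - i) = c + k - i := by omega
    have hcl : Clq m (insert t (Wi U s t \ S')) := by
      rw [← sd0 h hS]
      intro u hu v hv huv
      exact h.cl u (Finset.mem_sdiff.1 hu).1 v (Finset.mem_sdiff.1 hv).1 huv
    have hF := (hKF R N m q x (insert t (Wi U s t \ S')) hcl).2 t (Finset.mem_insert_self _ _) (by
      intro u hu
      rcases Finset.mem_insert.1 hu with rfl | hu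
      · exact le_rfl
      · exact (Wi_lt h (Finset.mem_sdiff.1 hu).1).2.le) j
    have c3 : (insert t (Wi U s t \ S')).card - 1 = i := by
      rw [Finset.card_insert_of_notMem t_nmem2, Finset.card_sdiff_of_subset hS, hc]
      omega
    rw [c3] at hF
    rw [Pi0 h q hS, hc, c1, ea0 h hk hS, eb0 h hS, sd0 h hS, hF, c2, pow_add, pow_add]
    ring
  rw [Finset.sum_congr rfl e1, ← Finset.mul_sum, Finset.sum_sub_distrib, ← Finset.mul_sum,
    ← Finset.mul_sum, ← Finset.mul_sum, ← Finset.mul_sum, b1, b2]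
  ring

/-- the sum over `PW1` -/
theorem total1 (hKF : S_KF) (hKB : S_KB) {N : ℕ} {m : ℕ → ℕ} {U : Finset ℕ} {s t k : ℕ}
    (h : St m U s t) (hk : U.card = k + 1) (q : R) (x : Fin N → R) (c : ℕ) (j : Fin N) :
    ∑ S ∈ PW1 U s t, Pi m q s S * q ^ ea m U S * eh q x (c + S.card - 1) j *
      XX m q x (U \ S) =
    qf q (k - 1) * ∑ i ∈ range k, q ^ i * qn q (k - i) * es x i * eh q x (c + k - i) j := by
  obtain ⟨hk1, hW⟩ := card_Wi h hk
  rw [sum_PW1 h, Finset.sum_powerset, hW, Nat.sub_add_cancel hk1, ← Finset.sum_range_reflect,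
    Finset.mul_sum]
  refine Finset.sum_congr rfl fun i hi => ?_
  rw [Finset.mem_range] at hi
  have hik : k - 1 - i ≤ (Wi U s t).card := by omega
  obtain ⟨b1, _⟩ := hKB R q (Wi U s t) (k - 1 - i) hik
  have e0 : (Wi U s t).card - (k - 1 - i) = i := by omega
  rw [e0, hW] at b1
  have e1 : ∀ S' ∈ powersetCard (k - 1 - i) (Wi U s t),
      Pi m q s (insert t (insert s S')) * q ^ ea m U (insert t (insert s S')) *
        eh q x (c + (insert t (insert s S')).card - 1) j *
        XX m q x (U \ insert t (insert s S')) =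
      (q ^ i * qn q (k - i) * es x i * eh q x (c + k - i) j) *
        (qf q (k - 1 - i) * qf q i *
          q ^ (∑ w ∈ Wi U s t \ S', (S'.filter (fun u => u < w)).card)) := by
    intro S' hS'
    rw [Finset.mem_powersetCard] at hS'
    obtain ⟨hS, hc⟩ := hS'
    have c1 : c + (insert t (insert s S')).card - 1 = c + k - i := by
      rw [Finset.card_insert_of_notMem (t_nmem' h hS), Finset.card_insert_of_notMem (s_nmem hS), hc]
      omega
    have hcl : Clq m (Wi U s t \ S') := by
      intro u hu v hv huv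
      exact h.cl u (mem_Wi.1 (Finset.mem_sdiff.1 hu).1).2.2 v
        (mem_Wi.1 (Finset.mem_sdiff.1 hv).1).2.2 huv
    have hX := (hKF R N m q x (Wi U s t \ S') hcl).1
    have c3 : (Wi U s t \ S').card = i := by
      rw [Finset.card_sdiff_of_subset hS, hc]
      omega
    have c4 : k - 1 - (k - 1 - i) = i := by omega
    have c5 : k - 1 - i + 1 = k - i := by omega
    rw [c3] at hX
    rw [Pi1 h q hS, c1, ea1 h hk hS, sd1 h hS, hX, hc, c4, c5, pow_add]
    ring
  rw [Finset.sum_congr rfl e1, ← Finset.mul_sum, ← Finset.mul_sum, b1]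
  ring

theorem alg (q : R) (k c : ℕ) (E H : ℕ → R) :
    (∑ i ∈ range k, (q ^ k - q ^ (c + k - i)) * E (c + k - i) * H i) +
      (1 - q) * ∑ i ∈ range k, q ^ i * qn q (k - i) * E i * H (c + k - i) =
    (1 - q) * (∑ i ∈ range (min k (c + 1)), q ^ i * qn q (k - i) * E i * H (c + k - i) +
      ∑ i ∈ range (min k c), q ^ k * qn q (c - i) * E (c + k - i) * H i) := by
  have small : ∀ i, i ≤ c → i < k → (q ^ k - q ^ (c + k - i)) * E (c + k - i) * H i
      = (1 - q) * (q ^ k * qn q (c - i) * E (c + k - i) * H i) := by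
    intro i hi hik
    have e : q ^ (c + k - i) = q ^ k * q ^ (c - i) := by
      rw [← pow_add]
      congr 1
      omega
    have g := qn_geom q (c - i)
    rw [e]
    linear_combination (-(q ^ k * E (c + k - i) * H i)) * g
  rcases le_or_gt k c with hkc | hkc
  · rw [min_eq_left (by omega : k ≤ c + 1), min_eq_left hkc, mul_add, add_comm]
    congr 1
    rw [Finset.mul_sum]
    refine Finset.sum_congr rfl fun i hi => ?_
    rw [Finset.mem_range] at hi
    exact small i (by omega) hi
  · rw [min_eq_right (by omega : c + 1 ≤ k), min_eq_right hkc.le]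
    rw [← Finset.sum_range_add_sum_Ico _ (by omega : c + 1 ≤ k),
      ← Finset.sum_range_add_sum_Ico (fun i => q ^ i * qn q (k - i) * E i * H (c + k - i))
        (by omega : c + 1 ≤ k)]
    have e1 : ∑ i ∈ range (c + 1), (q ^ k - q ^ (c + k - i)) * E (c + k - i) * H i
        = (1 - q) * ∑ i ∈ range c, q ^ k * qn q (c - i) * E (c + k - i) * H i := by
      rw [Finset.sum_range_succ, Finset.mul_sum]
      have e2 : c + k - c = k := by omega
      rw [e2, sub_self, zero_mul, zero_mul, add_zero]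
      refine Finset.sum_congr rfl fun i hi => ?_
      rw [Finset.mem_range] at hi
      exact small i (by omega) (by omega)
    have e3 : ∑ i ∈ Ico (c + 1) k, (q ^ k - q ^ (c + k - i)) * E (c + k - i) * H i
        = -((1 - q) * ∑ i ∈ Ico (c + 1) k, q ^ i * qn q (k - i) * E i * H (c + k - i)) := by
      rw [Finset.mul_sum, ← Finset.sum_neg_distrib]
      refine Finset.sum_bij' (fun i _ => c + k - i) (fun i _ => c + k - i) ?_ ?_ ?_ ?_ ?_
      · intro i hi
        rw [Finset.mem_Ico] at hi ⊢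
        omega
      · intro i hi
        rw [Finset.mem_Ico] at hi ⊢
        omega
      · intro i hi
        rw [Finset.mem_Ico] at hi
        show c + k - (c + k - i) = i
        omega
      · intro i hi
        rw [Finset.mem_Ico] at hi
        show c + k - (c + k - i) = i
        omega
      · intro i hi
        rw [Finset.mem_Ico] at hi
        have f1 : k - (c + k - i) = i - c := by omega
        have f2 : c + k - (c + k - i) = i := by omega
        have f3 : q ^ k = q ^ (c + k - i) * q ^ (i - c) := by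
          rw [← pow_add]
          congr 1
          omega
        have g := qn_geom q (i - c)
        rw [f1, f2, f3]
        linear_combination (q ^ (c + k - i) * E (c + k - i) * H i) * g
    rw [e1, e3]
    ring

end KTaux

open KTaux in
theorem t_KT (hSTAR : S_STAR) (hKF : S_KF) (hKB : S_KB) : S_KT := by
  intro R _ _ N m hm q hq x U s t k hs ht hst hb hcl hk c j
  have h : St m U s t := ⟨hs, ht, hst, hb, hcl⟩
  have h1 := (hSTAR R N m hm q x U s t hs ht hst hb).1 c j
  rw [total0 hKF hKB h hk, total1 hKF hKB h hk] at h1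
  have h2 := alg q k c (fun i => es x i) (fun i => eh q x i j)
  have h3 : (1 - q) ≠ 0 := sub_ne_zero.2 (Ne.symm hq)
  apply mul_left_cancel₀ h3
  rw [h1]
  have h4 : qf q (k - 1) * (∑ i ∈ range k, (q ^ k - q ^ (c + k - i)) * es x (c + k - i) *
      eh q x i j) + (1 - q) * (qf q (k - 1) * ∑ i ∈ range k, q ^ i * qn q (k - i) * es x i *
      eh q x (c + k - i) j) = qf q (k - 1) * ((∑ i ∈ range k, (q ^ k - q ^ (c + k - i)) *
      es x (c + k - i) * eh q x i j) + (1 - q) * ∑ i ∈ range k, q ^ i * qn q (k - i) * es x i *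
      eh q x (c + k - i) j) := by ring
  rw [h4, h2]
  ring

end Pool.Agent.SWC
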