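import Pool.Agent.Lib.MP_263316_co.Base

/-!
MP_263316_co (Shareshian-Wachs conjecture): specification of the lemmas for the theorem

  X_G(x,q) is e-positive and e-unimodal (palindromic coefficients) for every natural unit interval
  graph G in which every maximal clique with at least four vertices is a block
  (all blocks complete or of clique number at most 3).

All definitions about graphs and colourings are in Base.lean (read it first; its lemmas `Z_insert`,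
`Z_erase`, `Z_congr`, `Z_scale`, `Z_update_sum`, `Z_vertex`, `Z_union`, `Z_map`, `Z_zero` are
proved). Adjacency: u < v adjacent iff v ≤ m u. Everywhere `q` is the parameter,
`qn q n = 1 + q + ... + q^(n-1)`, `qf q n = [n]!`.
-/

set_option autoImplicit false

namespace Pool.Agent.SWC

open Finset

/-! ## Further definitions -/

/-- palindromic unimodal polynomials with nonnegative coefficients and centre `d / 2`: the cone
generated by the polynomials `q^i [k]` with `2 i + k = d + 1` -/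
noncomputable def PU (d : ℕ) : AddSubmonoid (Polynomial ℤ) :=
  AddSubmonoid.closure {p | ∃ i k : ℕ, 2 * i + k = d + 1 ∧
    p = Polynomial.X ^ i * qn (Polynomial.X : Polynomial ℤ) k}

/-- the ring of polynomials in `N` variables over `ℤ[q]` -/
abbrev AN (N : ℕ) : Type := MvPolynomial (Fin N) (Polynomial ℤ)

/-- the parameter `q` in `AN N` -/
noncomputable def qq (N : ℕ) : AN N := MvPolynomial.C Polynomial.X

/-- the variables -/
noncomputable def xx (N : ℕ) : Fin N → AN N := MvPolynomial.X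

/-- e-positive elements of degree `n` whose coefficients are in `PU d` -/
noncomputable def Cone (N n d : ℕ) : AddSubmonoid (AN N) :=
  AddSubmonoid.closure {f | ∃ (l : Multiset ℕ) (p : Polynomial ℤ), l.sum = n ∧ p ∈ PU d ∧
    f = MvPolynomial.C p * (l.map (es (xx N))).prod}

/-- the marked cone: generated by `u * eh c` with `u` in a cone -/
noncomputable def MCone (N n d : ℕ) : AddSubmonoid (Fin N → AN N) :=
  AddSubmonoid.closure {F | ∃ (n' d' c : ℕ) (u : AN N), u ∈ Cone N n' d' ∧ n' + c + 1 = n ∧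
    d' + c = d ∧ F = fun j => u * eh (qq N) (xx N) c j}

/-- independent sets -/
def ind (m : ℕ → ℕ) (J : Finset ℕ) : Prop := ∀ u ∈ J, ∀ v ∈ J, ¬ (u < v ∧ v ≤ m u)

instance (m : ℕ → ℕ) (J : Finset ℕ) : Decidable (ind m J) := by unfold ind; infer_instance

/-- the mark: vertex `t` has colour `j` -/
def mu {R : Type} [CommRing R] {N : ℕ} (t : ℕ) (j : Fin N) (v : ℕ) (k : Fin N) : R :=
  if v = t then (if k = j then 1 else 0) else 1

/-- colourings of `U \ S` in the telescoping sum, threshold `i` -/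
noncomputable def ZS {R : Type} [CommRing R] {N : ℕ} (m : ℕ → ℕ) (q : R) (x : Fin N → R)
    (μ : ℕ → Fin N → R) (U S : Finset ℕ) (i : ℕ) : R :=
  Z m q (U \ S) (fun v k => x k * μ v k * q ^ (if i ≤ (k : ℕ) then aL m S v else aR m S v))

/-- colourings of `U \ D` with colours different from `i` -/
noncomputable def ZD {R : Type} [CommRing R] {N : ℕ} (m : ℕ → ℕ) (q : R) (x : Fin N → R)
    (μ : ℕ → Fin N → R) (U D : Finset ℕ) (i : Fin N) : R :=
  Z m q (U \ D) (fun v k => if k = i then 0 else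
    x k * μ v k * q ^ (if i < k then aL m D v else aR m D v))

/-- kernel: vertex `s` has colour `i` and vertex `t` has colour `j` -/
noncomputable def KK {R : Type} [CommRing R] {N : ℕ} (m : ℕ → ℕ) (q : R) (x : Fin N → R)
    (U : Finset ℕ) (s t : ℕ) (i j : Fin N) : R :=
  Z m q U (fun v k => x k * (if v = s then (if k = i then 1 else 0) else 1) * mu t j v k)

/-- local sum, first kind: over independent `J ⊆ D \ {s}` disjoint from `L` -/
def loA {R : Type} [CommRing R] (m : ℕ → ℕ) (q y : R) (s : ℕ) (D L : Finset ℕ) : R :=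
  ∑ J ∈ (D.erase s).powerset.filter (fun J => ind m J ∧ Disjoint J L),
    y ^ J.card * q ^ (∑ v ∈ J, aL m (D \ J) v) * Pi m q s (D \ J)

/-- local sum, second kind -/
def loB {R : Type} [CommRing R] (m : ℕ → ℕ) (q y : R) (s : ℕ) (D L : Finset ℕ) : R :=
  ∑ J ∈ (D.erase s).powerset.filter (fun J => ind m J ∧ Disjoint J L),
    y ^ J.card * q ^ (∑ v ∈ J, aR m (D \ J) v) * Pi m q s (D \ J)

/-- sets containing `s` but not `t` -/
def PW0 (U : Finset ℕ) (s t : ℕ) : Finset (Finset ℕ) :=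
  U.powerset.filter (fun S => s ∈ S ∧ t ∉ S)

/-- sets containing `s` and `t` -/
def PW1 (U : Finset ℕ) (s t : ℕ) : Finset (Finset ℕ) :=
  U.powerset.filter (fun S => s ∈ S ∧ t ∈ S)

/-- product over colours with threshold `i` -/
def EE {R : Type} [CommRing R] {N : ℕ} (q z : R) (x : Fin N → R) (i : ℕ) : R :=
  ∏ k : Fin N, (1 + (if (k : ℕ) < i then q * z * x k else z * x k))

/-- product over the colours different from `i` -/
def GG {R : Type} [CommRing R] {N : ℕ} (q z : R) (x : Fin N → R) (i : Fin N) : R :=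
  ∏ k ∈ univ.erase i, (1 + (if k < i then q * z * x k else z * x k))

/-- the state sum for the ladder recursion: `k` further twins (colour set `C`) are adjacent to
`v1` and `v2` -/
noncomputable def WW {R : Type} [CommRing R] {N : ℕ} (m : ℕ → ℕ) (q : R) (x : Fin N → R)
    (V : Finset ℕ) (v1 v2 t k : ℕ) (j : Fin N) : R :=
  ∑ C ∈ powersetCard k (univ : Finset (Fin N)), (∏ i ∈ C, x i) *
    Z m q V (fun v κ => x κ * (if v = v1 ∨ v = v2 then
      (if κ ∈ C then 0 else q ^ (C.filter (fun i => i < κ)).card) else 1) * mu t j v κ)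

/-- `U` is a triangular ladder (square of a path) with `n ≥ 4` vertices, enumerated by `f` -/
def Lad (m : ℕ → ℕ) (U : Finset ℕ) (n : ℕ) (f : ℕ → ℕ) : Prop :=
  StrictMono f ∧ U = (range n).image f ∧ 4 ≤ n ∧
    ∀ i j, i < j → j < n → (f j ≤ m (f i) ↔ j ≤ i + 2)

/-- clique -/
def Clq (m : ℕ → ℕ) (U : Finset ℕ) : Prop := ∀ u ∈ U, ∀ v ∈ U, u < v → v ≤ m u

/-- no induced K_4 with a further vertex adjacent to exactly two or three of its vertices
(equivalently: every maximal clique with at least four vertices is a block) -/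
def Good (m : ℕ → ℕ) (U : Finset ℕ) : Prop :=
  ∀ x1 ∈ U, ∀ x2 ∈ U, ∀ x3 ∈ U, ∀ x4 ∈ U, ∀ x5 ∈ U, x1 < x2 → x2 < x3 → x3 < x4 → x4 < x5 →
    (x4 ≤ m x1 → x5 ≤ m x3 → x5 ≤ m x1) ∧ (x5 ≤ m x2 → x3 ≤ m x1 → x5 ≤ m x1)

/-! ## Part P: polynomials and cones -/

/-- TASK PUmul. It suffices (closure induction twice) to treat generators: with
`2 i + k = d + 1`, `2 i' + k' = d' + 1` and (by symmetry) `k ≤ k'` one has
`[k] [k'] = ∑_{r < k} q^r [k + k' - 1 - 2 r]` (induction on `k`, or: `(q-1)^2` times both sides),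
and `q^(i+i'+r) [k+k'-1-2r]` is a generator of `PU (d + d')`. -/
def S_PUmul : Prop := ∀ (d d' : ℕ) (p p' : Polynomial ℤ), p ∈ PU d → p' ∈ PU d' →
  p * p' ∈ PU (d + d')

/-- TASK PUcoeff. The four properties hold for the generators (the coefficient of `q^r` in
`q^i [k]` is 1 if `i ≤ r < i + k` and 0 otherwise, `2 i + k = d + 1`) and are preserved by sums. -/
def S_PUcoeff : Prop := ∀ (d : ℕ) (p : Polynomial ℤ), p ∈ PU d →
  (∀ i : ℕ, 0 ≤ p.coeff i) ∧ (∀ i : ℕ, d < i → p.coeff i = 0) ∧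
  (∀ i : ℕ, i ≤ d → p.coeff i = p.coeff (d - i)) ∧
  (∀ i j : ℕ, i ≤ j → 2 * j ≤ d → p.coeff i ≤ p.coeff j)

/-- TASK Cmul. Closure induction twice; for generators `C p * ∏ e_l` and `C p' * ∏ e_l'` use
`S_PUmul` and `l + l'`. -/
def S_Cmul : Prop := ∀ (N n d n' d' : ℕ) (u u' : AN N), u ∈ Cone N n d → u' ∈ Cone N n' d' →
  u * u' ∈ Cone N (n + n') (d + d')

/-- TASK Cpart. Closure induction; for a generator `C p * ∏_{k ∈ l} e_k` let `μ` be the partition
of `n` whose parts are the nonzero elements of `l` (`Nat.Partition.ofMultiset` /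
`ofSums`, or build it by hand; `e_0 = 1`, so the product does not change), and take `a μ = p`,
`a = 0` elsewhere (`es (xx N) k = MvPolynomial.esymm (Fin N) (Polynomial ℤ) k` holds by `rfl`). -/
def S_Cpart : Prop := ∀ (N n d : ℕ) (f : AN N), f ∈ Cone N n d →
  ∃ a : Nat.Partition n → Polynomial ℤ,
    f = ∑ μ : Nat.Partition n, MvPolynomial.C (a μ) *
      (μ.parts.map (fun k => MvPolynomial.esymm (Fin N) (Polynomial ℤ) k)).prod ∧
    ∀ μ, a μ ∈ PU d

/-- TASK PC (exchange of sums). Both sides are the sum of `f k C` over the pairs `(k, C)` with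
`k ∉ C`, `|C| = r`; bijection `(k, C) ↦ (insert k C, k)`, inverse `(C', k) ↦ (k, C'.erase k)`. -/
def S_PC : Prop := ∀ (R : Type) [CommRing R] (N r : ℕ) (f : Fin N → Finset (Fin N) → R),
  ∑ k, ∑ C ∈ powersetCard r (univ.erase k), f k C =
    ∑ C' ∈ powersetCard (r + 1) univ, ∑ k ∈ C', f k (C'.erase k)

/-- TASK RK. Induction on `C` by inserting the maximum (`Finset.induction_on_max`): the new
element has rank `|C|`, the ranks of the others do not change. -/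
def S_RK : Prop := ∀ (R : Type) [CommRing R] (N : ℕ) (q : R) (C : Finset (Fin N)),
  ∑ k ∈ C, q ^ (C.filter (fun i => i < k)).card = qn q C.card

/-- TASK EHsum. `S_PC` with `f j C = x_j ∏_{k ∈ C} (q x_k or x_k)`; then
`∏_{k ∈ C'.erase j} (...) = q^{rank of j} ∏_{k ∈ C'.erase j} x_k` and `S_RK`. -/
def S_EHsum : Prop := ∀ (R : Type) [CommRing R] (N : ℕ) (q : R) (x : Fin N → R) (c : ℕ),
  ∑ j, eh q x c j = qn q (c + 1) * es x (c + 1)

/-- TASK Msum. Closure induction; for a generator use `S_EHsum`, `S_Cmul`,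
`qn (qq N) (c+1) = C (qn X (c+1))`, `qn X (c+1) ∈ PU c` (generator with `i = 0`), and
`C p * e_k ∈ Cone N k d` for `p ∈ PU d`. -/
def S_Msum : Prop := ∀ (N n d : ℕ) (F : Fin N → AN N), F ∈ MCone N n d →
  ∑ j, F j ∈ Cone N n d

/-- TASK Msmul. Closure induction and `S_Cmul`. -/
def S_Msmul : Prop := ∀ (N n d n' d' : ℕ) (u : AN N) (F : Fin N → AN N), u ∈ Cone N n' d' →
  F ∈ MCone N n d → (fun j => u * F j) ∈ MCone N (n' + n) (d' + d)

/-- TASK Mlin. Closure induction (`L 0 = 0` from additivity); for a generator `u * eh c` of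
`MCone N (n+1) d` (so `n' + c = n`, `d' + c = d`) use linearity, the hypothesis on `eh c` and
`S_Msmul`. -/
def S_Mlin : Prop := ∀ (N n d a b : ℕ) (L : (Fin N → AN N) → (Fin N → AN N)),
  (∀ f g, L (f + g) = L f + L g) → (∀ (u : AN N) (f : Fin N → AN N),
    L (fun j => u * f j) = fun j => u * L f j) →
  (∀ c : ℕ, L (eh (qq N) (xx N) c) ∈ MCone N (c + a) (c + b)) →
  ∀ F ∈ MCone N (n + 1) d, L F ∈ MCone N (n + a) (d + b)

/-! ## Part C: splitting off one colour -/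

/-- TASK CS. Induction on `U` (insert `v`), for all `w`. `Z_insert` gives
`∑_k w v k * Z U (w * pw v k)`. The term `k = i`: by induction it is the sum over
`J ⊆ U` independent of `w v i * ∏_{u ∈ J} (w u i * pw v i u i) * Z (U \ J) (...)`; the factor
`∏_{u ∈ J} pw v i u i` is 1 if no `u ∈ J` is adjacent to `v` and 0 otherwise, so these are the
terms `insert v J` of the right-hand side. The terms `k ≠ i`: by induction
`∑_J ∏_{u ∈ J} (w u i * pw v k u i) * Z (U \ J) (...)`, and summing over `k ≠ i` gives, by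
`Z_insert` for `insert v (U \ J) = (insert v U) \ J`, the terms `J ∌ v` of the right-hand side
(`pw` is symmetric: `pw_comm`). -/
def S_CS : Prop := ∀ (R : Type) [CommRing R] (N : ℕ) (m : ℕ → ℕ) (q : R) (U : Finset ℕ)
  (w : ℕ → Fin N → R) (i : Fin N),
  Z m q U w = ∑ J ∈ U.powerset.filter (fun J => ind m J), (∏ v ∈ J, w v i) *
    Z m q (U \ J) (fun v k => if k = i then 0 else w v k * ∏ u ∈ J, pw m q u i v k)

/-- TASK CS1. `S_CS` for `U \ S` and the weights of `ZS`; for `v ∈ (U \ S) \ J` and `k ≠ i`: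
`∏_{u ∈ J} pw u i v k = q ^ (if i < k then aL m J v else aR m J v)` (a left neighbour `u` of `v`
contributes `q` iff `i < k`, a right neighbour iff `k < i`), for `k ≠ i` the condition
`(i : ℕ) ≤ k` is `i < k`, and `aL m S v + aL m J v = aL m (S ∪ J) v`, same for `aR`
(`S`, `J` disjoint). -/
def S_CS1 : Prop := ∀ (R : Type) [CommRing R] (N : ℕ) (m : ℕ → ℕ) (q : R) (x : Fin N → R)
  (μ : ℕ → Fin N → R) (U S : Finset ℕ) (i : Fin N),
  ZS m q x μ U S i = ∑ J ∈ (U \ S).powerset.filter (fun J => ind m J),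
    (∏ v ∈ J, (x i * μ v i * q ^ aL m S v)) * ZD m q x μ U (S ∪ J) i

/-- TASK CS2. Same as CS1 with threshold `i + 1`: for the colour `i` itself the exponent is now
`aR m S v`; for `k ≠ i` nothing changes. -/
def S_CS2 : Prop := ∀ (R : Type) [CommRing R] (N : ℕ) (m : ℕ → ℕ) (q : R) (x : Fin N → R)
  (μ : ℕ → Fin N → R) (U S : Finset ℕ) (i : Fin N),
  ZS m q x μ U S ((i : ℕ) + 1) = ∑ J ∈ (U \ S).powerset.filter (fun J => ind m J),
    (∏ v ∈ J, (x i * μ v i * q ^ aR m S v)) * ZD m q x μ U (S ∪ J) i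

/-- TASK CS3. `S_CS` for `U` and the weights of `KK`; for `k ≠ i` the weight at `s` is zero, so
only the `J ∋ s` contribute (`Z_zero`), and for `s ∈ J` the weights on `U \ J` are those of `ZD`
(computation of `∏_{u ∈ J} pw` as in CS1). -/
def S_CS3 : Prop := ∀ (R : Type) [CommRing R] (N : ℕ) (m : ℕ → ℕ) (q : R) (x : Fin N → R)
  (U : Finset ℕ) (s t : ℕ) (i j : Fin N), s ∈ U →
  KK m q x U s t i j = ∑ D ∈ U.powerset.filter (fun D => s ∈ D ∧ ind m D),
    (∏ v ∈ D, (x i * mu t j v i)) * ZD m q x (mu t j) U D i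

/-! ## Part L: the local identity -/

/-- TASK LREC. `D = insert t D'`, `t` larger than all elements of `D'`, `s ∈ D'`,
`N = {u ∈ D' : t ≤ m u}` (the left neighbours of `t`), `β = |N|`; `N` is a clique (for `u < v` in
`N`: `v < t ≤ m u`), so an independent `J` meets `N` in at most one vertex.
(1), (1'): the `J ⊆ D \ {s}` disjoint from `insert t L` are the `J ⊆ D' \ {s}` disjoint from `L`;
`D \ J = insert t (D' \ J)`, `aL (D \ J) v = aL (D' \ J) v` for `v ∈ J` (`t > v`), and `Pi` gets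
the new factor `qn q (aL (D \ J) t) = qn q (β - |J ∩ N|)`; the exponent `∑_{v ∈ J} aR (D \ J) v`
grows by `|J ∩ N|`. Split the sum according to `J ∩ N = ∅` (that is, `J` disjoint from `L ∪ N`)
or `|J ∩ N| = 1`. If `β = 0` everything is zero.
(2), (2'): the `J` containing `t` are `insert t J'` with `J' ⊆ D' \ {s}` independent and disjoint
from `N`; `D \ J = D' \ J'`, `aL (D' \ J') t = β`, `aR (D' \ J') t = 0`. -/
def S_LREC : Prop := ∀ (R : Type) [CommRing R] (m : ℕ → ℕ), Monotone m → ∀ (q y : R) (s t : ℕ)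
  (D' : Finset ℕ), s ∈ D' → (∀ u ∈ D', s ≤ u) → (∀ u ∈ D', u < t) →
  (∀ L ⊆ D', loA m q y s (insert t D') (insert t L) =
    qn q (D'.filter (fun u => t ≤ m u)).card * loA m q y s D' (L ∪ D'.filter (fun u => t ≤ m u)) +
    qn q ((D'.filter (fun u => t ≤ m u)).card - 1) *
      (loA m q y s D' L - loA m q y s D' (L ∪ D'.filter (fun u => t ≤ m u)))) ∧
  (∀ L ⊆ D', loB m q y s (insert t D') (insert t L) =
    qn q (D'.filter (fun u => t ≤ m u)).card * loB m q y s D' (L ∪ D'.filter (fun u => t ≤ m u)) +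
    q * qn q ((D'.filter (fun u => t ≤ m u)).card - 1) *
      (loB m q y s D' L - loB m q y s D' (L ∪ D'.filter (fun u => t ≤ m u)))) ∧
  loA m q y s (insert t D') ∅ = loA m q y s (insert t D') {t} +
    y * q ^ (D'.filter (fun u => t ≤ m u)).card * loA m q y s D' (D'.filter (fun u => t ≤ m u)) ∧
  loB m q y s (insert t D') ∅ = loB m q y s (insert t D') {t} +
    y * loB m q y s D' (D'.filter (fun u => t ≤ m u))

/-- TASK LOC. Write `A[L] = loA D L`, `B[L] = loB D L` and `A'`, `B'` for `D' = D \ {t}`,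
`t = max D`. Prove by induction on `|D|` the two claims
(L0) `(1 + y) A[∅] = (1 + q y) B[∅] + (1 - q) y^{|D|} [D independent]`;
(C) for every `ℓ ∈ D` with `ℓ = t` or `t ≤ m ℓ`, `L = {v ∈ D : ℓ ≤ v}`, `b = |L|`:
    `(1 + y) (B[L] - q^{b-1} A[L]) = (1 - q^{b-1}) B[∅]`.
`D = {s}`: `A = B = 1`, `b = 1`. For `|D| ≥ 2` let `N = {u ∈ D' : t ≤ m u}`, `β = |N|` and use
`S_LREC`: with `[β] = q^{β-1} + [β-1] = 1 + q [β-1]` (`β ≥ 1`), for `L' = L \ {t}`, `L' ⊆ N`
(`ℓ ∈ D'` with `t ≤ m ℓ` means `ℓ ∈ N`; for `ℓ = t`, `L' = ∅`):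
 `A[L] = q^{β-1} A'[N] + [β-1] A'[L']`, `B[L] = B'[N] + q [β-1] B'[L']`,
 `A[∅] = A[{t}] + y q^β A'[N]`, `B[∅] = B[{t}] + y B'[N] = (1 + y) B'[N] + q [β-1] B'[∅]`.
Case `β = 0`: `A[{t}] = B[{t}] = 0`, `A[∅] = y A'[∅]`, `B[∅] = y B'[∅]` (`N = ∅`), `ℓ = t`, `b = 1`,
and `D` is independent iff `D'` is: both claims follow from (L0) for `D'`.
Case `β ≥ 1`: `D` is not independent. `N = {v ∈ D' : ℓ0 ≤ v}` with `ℓ0 = min N` (`m` monotone),
`t' := max D'` satisfies `t' ≤ t ≤ m ℓ0`, so (C) for `D'` gives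
 (i) `(1+y) B'[N] = (1+y) q^{β-1} A'[N] + (1 - q^{β-1}) B'[∅]`, and for `ℓ ∈ N` with `b' = b - 1`
 (ii) `(1+y) B'[L'] = (1+y) q^{b-2} A'[L'] + (1 - q^{b-2}) B'[∅]`. Moreover
 (iii) `[β-1] (1+y) A'[∅] = [β-1] (1+qy) B'[∅]` (trivial for `β = 1`; for `β ≥ 2` the clique `N`
 shows that `D'` is not independent, use (L0) for `D'`).
(C) for `ℓ = t`, `b = 1`: `(1+y)(B[{t}] - A[{t}]) = (1+y)(B'[N] - q^{β-1} A'[N]) +
 [β-1] (q (1+y) B'[∅] - (1+y) A'[∅]) = (1 - q^{β-1}) B'[∅] + [β-1] (q + q y - 1 - q y) B'[∅] = 0`,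
 because `(1-q) [β-1] = 1 - q^{β-1}`.
(C) for `ℓ ∈ N`: `(1+y)(B[L] - q^{b-1} A[L]) = (1+y) B'[N] - q^{b-1} q^{β-1} (1+y) A'[N] +
 [β-1] (q (1+y) B'[L'] - q^{b-1} (1+y) A'[L']) = (1+y) B'[N] - q^{b-1} ((1+y) B'[N] -
 (1-q^{β-1}) B'[∅]) + [β-1] q (1 - q^{b-2}) B'[∅] = (1 - q^{b-1}) (1+y) B'[N] +
 B'[∅] [β-1] (q^{b-1} (1-q) + q - q^{b-1}) = (1 - q^{b-1}) ((1+y) B'[N] + q [β-1] B'[∅])
 = (1 - q^{b-1}) B[∅]`.
(L0): `(1+y) A[∅] = (1+y) A[{t}] + y q^β (1+y) A'[N] = (1+y) B[{t}] + y q ((1+y) B'[N] -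
 (1-q^{β-1}) B'[∅])` and `(1+qy) B[∅] = (1+qy) (B[{t}] + y B'[N])`; the difference is
 `y (1-q) (B[{t}] - B'[N] - q [β-1] B'[∅]) = 0`.
The second conclusion of the statement is (C) for `ℓ = t`. -/
def S_LOC : Prop := ∀ (R : Type) [CommRing R] (m : ℕ → ℕ), Monotone m → ∀ (q y : R) (s t : ℕ)
  (D : Finset ℕ), s ∈ D → t ∈ D → (∀ u ∈ D, s ≤ u ∧ u ≤ t) →
  (1 + y) * loA m q y s D ∅ = (1 + q * y) * loB m q y s D ∅ +
    (1 - q) * y ^ D.card * (if ind m D then 1 else 0) ∧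
  (1 + y) * loA m q y s D {t} = (1 + y) * loB m q y s D {t}

/-! ## Part G: the telescoping sum -/

/-- TASK REG (regrouping). For fixed threshold colour `i`, put `y = z * x i`. Insert `S_CS1` and
exchange the sums: the pairs `(S, J)` with `s ∈ S ⊆ U`, `t ∉ S` (resp. `t ∈ S`),
`J ⊆ U \ S` independent correspond to the pairs `(D, J)`, `D = S ∪ J`, `s ∈ D ⊆ U`,
`J ⊆ D \ {s}` independent, with `t ∈ J` if `t ∈ D` (resp. `t ∈ D` and `t ∉ J`). Since
`|U| - |S| = (|U| - |D|) + |J|`, `z^{|U|-|S|} ∏_{v ∈ J} (x i * μ v i * q^{aL m S v}) =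
z^{|U|-|D|} y^{|J|} q^{∑_{v ∈ J} aL m (D \ J) v} ∏_{v ∈ J} μ v i`, and the last product is 1 if
`t ∉ J` and `[i = j]` if `t ∈ J` (for `μ = mu t j`), resp. 1 for `μ = 1`. The sum over the
`J ∋ t` is `loA D ∅ - loA D {t}`. The same with `aR`, `S_CS2` and `loB`. -/
def S_REG : Prop := ∀ (R : Type) [CommRing R] (N : ℕ) (m : ℕ → ℕ) (q z : R) (x : Fin N → R)
  (U : Finset ℕ) (s t : ℕ), s ∈ U → t ∈ U → s < t → ∀ (i j : Fin N),
  (∑ S ∈ PW0 U s t, Pi m q s S * z ^ (U.card - S.card) * ZS m q x (mu t j) U S i =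
    ∑ D ∈ U.powerset.filter (fun D => s ∈ D), z ^ (U.card - D.card) *
      (if t ∈ D then (if i = j then loA m q (z * x i) s D ∅ - loA m q (z * x i) s D {t} else 0)
        else loA m q (z * x i) s D ∅) * ZD m q x (mu t j) U D i) ∧
  (∑ S ∈ PW0 U s t, Pi m q s S * z ^ (U.card - S.card) * ZS m q x (mu t j) U S ((i : ℕ) + 1) =
    ∑ D ∈ U.powerset.filter (fun D => s ∈ D), z ^ (U.card - D.card) *
      (if t ∈ D then (if i = j then loB m q (z * x i) s D ∅ - loB m q (z * x i) s D {t} else 0)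
        else loB m q (z * x i) s D ∅) * ZD m q x (mu t j) U D i) ∧
  (∑ S ∈ PW1 U s t, Pi m q s S * z ^ (U.card - S.card) * ZS m q x (fun _ _ => 1) U S i =
    ∑ D ∈ U.powerset.filter (fun D => s ∈ D ∧ t ∈ D), z ^ (U.card - D.card) *
      loA m q (z * x i) s D {t} * ZD m q x (mu t j) U D i) ∧
  (∑ S ∈ PW1 U s t, Pi m q s S * z ^ (U.card - S.card) * ZS m q x (fun _ _ => 1) U S ((i : ℕ) + 1) =
    ∑ D ∈ U.powerset.filter (fun D => s ∈ D ∧ t ∈ D), z ^ (U.card - D.card) *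
      loB m q (z * x i) s D {t} * ZD m q x (mu t j) U D i)

/-- TASK STEP. From `S_REG`, `S_CS3` and `S_LOC`, all three sums are over `D` with the common
factor `z^{|U|-|D|} * ZD D`. With `y = z * x i` (for `S_LOC` apply it with the maximum of `D`):
if `t ∉ D`: `(1+y) loA ∅ - (1+qy) loB ∅ = (1-q) y^{|D|} [D independent]`, which is the
contribution of `(1-q) z^{|U|} KK` (`z^{|U|} ∏_{v ∈ D} x i = z^{|U|-|D|} y^{|D|}`); if `t ∈ D` and
`i ≠ j` all are zero (`mu t j t i = 0`); if `t ∈ D` and `i = j`: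
`(1+y) (loA ∅ - loA {t}) - (1+qy) (loB ∅ - loB {t}) = (1-q) y^{|D|} [D independent] -
 ((1+y) loB {t} - (1+qy) loB {t}) = (1-q) y^{|D|} [D independent] - (1-q) y loB {t}`.
The second statement is the second part of `S_LOC` (here `t` is the maximum of `D`). -/
def S_STEP : Prop := ∀ (R : Type) [CommRing R] (N : ℕ) (m : ℕ → ℕ), Monotone m →
  ∀ (q z : R) (x : Fin N → R) (U : Finset ℕ) (s t : ℕ), s ∈ U → t ∈ U → s < t →
  (∀ u ∈ U, s ≤ u ∧ u ≤ t) → ∀ (i j : Fin N),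
  ((1 + z * x i) * (∑ S ∈ PW0 U s t, Pi m q s S * z ^ (U.card - S.card) *
      ZS m q x (mu t j) U S i) -
    (1 + q * z * x i) * (∑ S ∈ PW0 U s t, Pi m q s S * z ^ (U.card - S.card) *
      ZS m q x (mu t j) U S ((i : ℕ) + 1)) =
    (1 - q) * (z ^ U.card * KK m q x U s t i j - (if i = j then z * x j *
      ∑ S ∈ PW1 U s t, Pi m q s S * z ^ (U.card - S.card) *
        ZS m q x (fun _ _ => 1) U S ((i : ℕ) + 1) else 0))) ∧
  ((1 + z * x i) * (∑ S ∈ PW1 U s t, Pi m q s S * z ^ (U.card - S.card) *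
      ZS m q x (fun _ _ => 1) U S i) =
    (1 + z * x i) * (∑ S ∈ PW1 U s t, Pi m q s S * z ^ (U.card - S.card) *
      ZS m q x (fun _ _ => 1) U S ((i : ℕ) + 1)))

/-- TASK GF. Let `R` be a domain in which no `1 + z x_i` vanishes. By the second part of `S_STEP`
the sum `∑_{S ∈ PW1} Pi z^.. ZS 1 U S i` does not depend on `i ∈ {0, ..., N}`. For `i = 0` all
exponents are `aL m S v`, and `ZS μ U S 0 = q^{ea m U S} * Z (U \ S) (x μ)` by `Z_scale`
(`∏_{v ∈ U \ S} q^{aL m S v} = q^{ea m U S}`); for `i = N` all exponents are `aR m S v`, giving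
`q^{eb m U S}`. This is the second statement. First statement: multiply the first part of `S_STEP`
by `GG q z x i`; since `(1 + z x i) GG i = EE i` and `(1 + q z x i) GG i = EE (i+1)` the left-hand
side is `EE i * T_i - EE (i+1) * T_{i+1}` with `T_i = ∑_{S ∈ PW0} Pi z^.. ZS (mu t j) U S i`; sum
over `i` (`Fin.sum_univ_eq_sum_range`, `Finset.sum_range_sub'`). -/
def S_GF : Prop := ∀ (R : Type) [CommRing R] [IsDomain R] (N : ℕ) (m : ℕ → ℕ), Monotone m →
  ∀ (q z : R) (x : Fin N → R), (∀ i, 1 + z * x i ≠ 0) → ∀ (U : Finset ℕ) (s t : ℕ), s ∈ U →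
  t ∈ U → s < t → (∀ u ∈ U, s ≤ u ∧ u ≤ t) → ∀ (j : Fin N),
  (EE q z x 0 * (∑ S ∈ PW0 U s t, Pi m q s S * z ^ (U.card - S.card) *
      (q ^ ea m U S * FF m q x (U \ S) t j)) -
    EE q z x N * (∑ S ∈ PW0 U s t, Pi m q s S * z ^ (U.card - S.card) *
      (q ^ eb m U S * FF m q x (U \ S) t j)) =
    (1 - q) * (z ^ U.card * (∑ i, GG q z x i * KK m q x U s t i j) - z * x j * GG q z x j *
      ∑ S ∈ PW1 U s t, Pi m q s S * z ^ (U.card - S.card) *
        (q ^ ea m U S * XX m q x (U \ S)))) ∧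
  ((∑ S ∈ PW1 U s t, Pi m q s S * z ^ (U.card - S.card) * (q ^ ea m U S * XX m q x (U \ S))) =
    ∑ S ∈ PW1 U s t, Pi m q s S * z ^ (U.card - S.card) * (q ^ eb m U S * XX m q x (U \ S)))

/-- TASK COEF (coefficients of the products), in `Polynomial R` with `z = X`:
`EE 0 = ∏ (1 + X x_k) = ∑_C X^{|C|} ∏_{k ∈ C} x_k` (`Finset.prod_one_add`), so its coefficient of
degree `d` is `es x d`; `EE N` has the coefficient `q^d es x d`; `x_j GG j` has the coefficient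
`eh q x d j`. -/
def S_COEF : Prop := ∀ (R : Type) [CommRing R] (N : ℕ) (q : R) (x : Fin N → R) (d : ℕ),
  (EE (Polynomial.C q) Polynomial.X (fun k => Polynomial.C (x k)) 0).coeff d = es x d ∧
  (EE (Polynomial.C q) Polynomial.X (fun k => Polynomial.C (x k)) N).coeff d = q ^ d * es x d ∧
  ∀ j, (Polynomial.C (x j) *
    GG (Polynomial.C q) Polynomial.X (fun k => Polynomial.C (x k)) j).coeff d = eh q x d j

/-- TASK STAR. Apply `S_GF` in `Polynomial R` with `q ↦ C q`, `x_k ↦ C x_k`, `z = X`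
(`1 + X C x_i ≠ 0`: its coefficient of degree 0 is 1) and take the coefficient of `X^{|U| + c}`.
`Pi`, `FF`, `XX`, `KK` are images under `C` (`Z_map` and `map_prod`). The term of `S` on the
left-hand side: `EE 0 * X^{|U|-|S|}` has the coefficient `es x (c + |S|)` (`S_COEF`;
`|S| ≤ |U|`), `EE N * X^{|U|-|S|}` has `q^{c+|S|} es x (c + |S|)`. Right-hand side:
`KK i j = x_i * KK' i j` with `KK' i j` the sum with weight `[k = i]` (without `x_k`) at `s`
(`Z_vertex`; here `s ≠ t`), so the coefficient of `∑_i GG i * KK i j` in degree `c` is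
`∑_i eh q x c i * KK' i j = TT m q x U s t (eh q x c) j` (`Z_vertex`); the last term has the
coefficient `eh q x (c + |S| - 1) j` since `z * X^{|U|-|S|} = X^{|U|-|S|+1}`.
Second statement: the coefficient of `X^{|U|-r}` of the second statement of `S_GF`. -/
def S_STAR : Prop := ∀ (R : Type) [CommRing R] [IsDomain R] (N : ℕ) (m : ℕ → ℕ), Monotone m →
  ∀ (q : R) (x : Fin N → R) (U : Finset ℕ) (s t : ℕ), s ∈ U → t ∈ U → s < t →
  (∀ u ∈ U, s ≤ u ∧ u ≤ t) →
  (∀ (c : ℕ) (j : Fin N), (1 - q) * TT m q x U s t (eh q x c) j =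
    (∑ S ∈ PW0 U s t, Pi m q s S * (q ^ ea m U S - q ^ (c + S.card + eb m U S)) *
      es x (c + S.card) * FF m q x (U \ S) t j) +
    (1 - q) * ∑ S ∈ PW1 U s t, Pi m q s S * q ^ ea m U S * eh q x (c + S.card - 1) j *
      XX m q x (U \ S)) ∧
  (∀ r : ℕ, ∑ S ∈ (PW1 U s t).filter (fun S => S.card = r),
    Pi m q s S * (q ^ ea m U S - q ^ eb m U S) * XX m q x (U \ S) = 0)

/-! ## Part K: complete blocks -/

/-- TASK ZK. `W` is a clique and all vertices have the same weights `y`. Induction on `W` by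
inserting the maximum `v` (`Finset.induction_on_max`), for all `y`: by `Z_insert` the value is
`∑_k y_k Z W y'` with `y'_{k'} = y_{k'} * (0 if k' = k, q if k' < k, 1 if k' > k)` (`pw_gt`,
`u < v ≤ m u`), which is `∑_k y_k qf |W| ∑_{C ∌ k, |C| = |W|} q^{#{i ∈ C : i < k}} ∏_{C} y`;
use `S_PC` and `S_RK`: the sum is `qf |W| * qn (|W|+1) * es y (|W|+1)`. -/
def S_ZK : Prop := ∀ (R : Type) [CommRing R] (N : ℕ) (m : ℕ → ℕ) (q : R) (W : Finset ℕ),
  Clq m W → ∀ (y : Fin N → R), Z m q W (fun _ k => y k) = qf q W.card * es y W.card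

/-- TASK KF. `XX` is `S_ZK` with `y = x`. `FF`: `Z_erase` at `t` leaves only the colour `j`:
`FF U t j = x_j * Z (U.erase t) (x_k * (0 if k = j, q if k < j, 1 if k > j))` and `S_ZK` for the
clique `U.erase t` of size `|U| - 1` gives `qf (|U|-1) * eh (|U|-1) j`. -/
def S_KF : Prop := ∀ (R : Type) [CommRing R] (N : ℕ) (m : ℕ → ℕ) (q : R) (x : Fin N → R)
  (W : Finset ℕ), Clq m W → XX m q x W = qf q W.card * es x W.card ∧
  ∀ t ∈ W, (∀ u ∈ W, u ≤ t) → ∀ j, FF m q x W t j = qf q (W.card - 1) * eh q x (W.card - 1) j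

/-- TASK KB (q-binomial coefficients, no graph). Induction on `W` by inserting the maximum `v`
(`Finset.induction_on_max`), for all `r ≤ |W| + 1`: the sets `S ∋ v` contribute
`g(W, r-1)` (for the first sum; no `w` is larger than `v`), resp. `q^{|W|-(r-1)} g'(W, r-1)`, and
the sets `S ∌ v` contribute `q^r g(W, r)`, resp. `g'(W, r)`; conclude with
`[r] + q^r [n-r] = [n] = q^{n-r} [r] + [n-r]`. (`g(W,r) = 0` for `r > |W|`.) -/
def S_KB : Prop := ∀ (R : Type) [CommRing R] (q : R) (W : Finset ℕ) (r : ℕ), r ≤ W.card →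
  qf q r * qf q (W.card - r) * (∑ S ∈ powersetCard r W,
    q ^ (∑ w ∈ W \ S, (S.filter (fun u => u < w)).card)) = qf q W.card ∧
  qf q r * qf q (W.card - r) * (∑ S ∈ powersetCard r W,
    q ^ (∑ w ∈ W \ S, (S.filter (fun u => w < u)).card)) = qf q W.card

/-- TASK KT. `U` a clique with `k + 1` vertices, `k ≥ 1`, `R` a domain, `q ≠ 1`. Evaluate
`S_STAR`. Let `W = U \ {s, t}`, `|W| = k - 1`. For `S ∋ s` of size `r` in a clique,
`Pi S = [1] [2] ... [r-1] = qf (r-1)`.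
PW0: `S = {s} ∪ S'`, `S' ⊆ W`, `|S'| = r - 1`, `1 ≤ r ≤ k`:
`ea = k + ∑_{w ∈ W \ S'} #{u ∈ S' : u < w}` (`s` is to the left of all `w ∈ W \ S'` and of `t`,
`|W \ S'| + 1 = k - r + 1`, and the `r - 1` elements of `S'` are to the left of `t`),
`eb = ∑_{w ∈ W \ S'} #{u ∈ S' : w < u}`; `FF (U \ S) = qf (k-r) eh (k-r)` (`S_KF`), so by `S_KB`
the sum over the `S` of size `r` is `qf (k-1) (q^k - q^{c+r}) es (c+r) eh (k-r)`.
PW1: `S = {s, t} ∪ S'`, `|S'| = r - 2`, `2 ≤ r ≤ k + 1`: `ea = (k+1-r) + ∑ #{u ∈ S' : u < w}`,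
`XX (U \ S) = qf (k+1-r) es (k+1-r)`, `Pi S = qf (r-1) = qf (r-2) [r-1]`: the sum over the `S` of
size `r` is `qf (k-1) q^{k+1-r} [r-1] es (k+1-r) eh (c+r-1)`. Hence (`i = k - r`, resp.
`i = k + 1 - r`)
`(1-q) T = qf (k-1) (∑_{i<k} (q^k - q^{c+k-i}) es (c+k-i) eh i +
  (1-q) ∑_{i<k} q^i [k-i] es i eh (c+k-i))`.
For `i ≤ c`, `q^k - q^{c+k-i} = (1-q) q^k [c-i]`; for `c < i < k`,
`q^k - q^{c+k-i} = -(1-q) q^{c+k-i} [i-c]`, and this term (with `i' = c+k-i`, `c < i' < k`,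
`[i-c] = [k-i']`) cancels against the term `i'` of the second sum: these are exactly the terms of
the second sum with `i' > c`. What remains are the `i < min k c` of the first sum (`i = c` gives
zero) and the `i < min k (c+1)` of the second; divide by `1 - q`. -/
def S_KT : Prop := ∀ (R : Type) [CommRing R] [IsDomain R] (N : ℕ) (m : ℕ → ℕ), Monotone m →
  ∀ (q : R), q ≠ 1 → ∀ (x : Fin N → R) (U : Finset ℕ) (s t k : ℕ), s ∈ U → t ∈ U → s < t →
  (∀ u ∈ U, s ≤ u ∧ u ≤ t) → Clq m U → U.card = k + 1 → ∀ (c : ℕ) (j : Fin N),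
  TT m q x U s t (eh q x c) j = qf q (k - 1) *
    (∑ i ∈ range (min k (c + 1)), q ^ i * qn q (k - i) * es x i * eh q x (c + k - i) j +
      ∑ i ∈ range (min k c), q ^ k * qn q (c - i) * es x (c + k - i) * eh q x i j)

/-- TASK KM. From `S_KT` with `q = qq N = C X` (`≠ 1`), `x = xx N`. `eE m U = k (k+1) / 2` for a
clique with `k + 1` vertices; `qf X (k-1) ∈ PU ((k-1)(k-2)/2)`, `X^i [k-i] ∈ PU (k + i - 1)`
(`i < k`), `X^k [c-i] ∈ PU (2k + c - i - 1)` (`i < c`), `S_PUmul`; then the terms are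
`C p * es i * eh (c+k-i)` with `i + (c+k-i) + 1 = c + |U|` and
`deg p + (c + k - i) = (k-1)(k-2)/2 + (k+i-1) + (c+k-i) = c + k(k+1)/2`, resp.
`C p * es (c+k-i) * eh i` with `(k-1)(k-2)/2 + (2k+c-i-1) + i = c + k(k+1)/2`. -/
def S_KM : Prop := ∀ (N : ℕ) (m : ℕ → ℕ), Monotone m →
  ∀ (U : Finset ℕ) (s t : ℕ), s ∈ U → t ∈ U → s < t →
  (∀ u ∈ U, s ≤ u ∧ u ≤ t) → Clq m U → ∀ (c : ℕ),
  TT m (qq N) (xx N) U s t (eh (qq N) (xx N) c) ∈ MCone N (c + U.card) (c + eE m U)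

/-! ## Part A: ladders -/

/-- TASK EDG. Split `∑_{v ∈ U} aL m U v` with `aL m U v = aL m S v + aL m (U \ S) v`; the sum over
`v ∈ S` of `aL m (U \ S) v` is the number of pairs `(w, v)`, `w ∈ U \ S`, `v ∈ S`, `w < v ≤ m w`,
which is `eb m U S` (`Finset.sum_comm` / `Finset.card_eq_sum_ones`). -/
def S_EDG : Prop := ∀ (m : ℕ → ℕ) (U S : Finset ℕ), S ⊆ U →
  eE m U = eE m S + ea m U S + eb m U S + eE m (U \ S)

/-- TASK PIM. If some `v ∈ S`, `v ≠ s`, has `aL m S v = 0` then the product is zero. Otherwise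
`qn X (aL m S v) ∈ PU (aL m S v - 1)`, and by `S_PUmul` the product is in `PU d` with
`d = ∑_{v ∈ S.erase s} (aL m S v - 1) = eE m S - (|S| - 1)` (`aL m S s = 0`). -/
def S_PIM : Prop := ∀ (m : ℕ → ℕ) (S : Finset ℕ) (s : ℕ), s ∈ S → (∀ u ∈ S, s ≤ u) →
  Pi m (Polynomial.X : Polynomial ℤ) s S = 0 ∨
  ∃ d : ℕ, d + S.card = eE m S + 1 ∧ Pi m (Polynomial.X : Polynomial ℤ) s S ∈ PU d

/-- TASK LCNT. `U` a ladder with `n ≥ 4` vertices `f 0 < ... < f (n-1)`. For `S ⊆ U`,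
`ea m U S - eb m U S = ∑_{v ∈ S} (aR m U v - aL m U v)` (as integers): indeed
`ea m U S = #{(v,w) : v ∈ S, w ∈ U \ S, v < w ≤ m v} = ∑_{v ∈ S} (aR m U v - aR m S v)`,
`eb m U S = ∑_{v ∈ S} (aL m U v - aL m S v)` and `∑_{v ∈ S} aR m S v = ∑_{v ∈ S} aL m S v`.
For `v = f i` in the ladder, `aR m U v = min 2 (n-1-i)`, `aL m U v = min 2 i`, so the difference
is 2, 1, 0, ..., 0, -1, -2 for `i = 0, 1, ..., n-2, n-1`. Hence for `f 0 ∈ S`, `f (n-1) ∉ S`:
`ea - eb ≤ 2 + [f 1 ∈ S] ≤ |S| + 1`; for `f 0, f (n-1) ∈ S`: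
`ea - eb = [f 1 ∈ S] - [f (n-2) ∈ S]`. -/
def S_LCNT : Prop := ∀ (m : ℕ → ℕ) (U : Finset ℕ) (n : ℕ) (f : ℕ → ℕ), Lad m U n f →
  ∀ S ⊆ U, f 0 ∈ S →
    (f (n - 1) ∉ S → ea m U S ≤ eb m U S + S.card + 1) ∧
    (f (n - 1) ∈ S → ea m U S ≤ eb m U S + 1 ∧ eb m U S ≤ ea m U S + 1)

/-- TASK LM1 (ladders, `c ≥ 1`). Cancel `1 - q` in the first part of `S_STAR` (`q = C X`).
PW0 terms: by `S_LCNT` and `c ≥ 1`, `M := c + |S| + eb - ea ≥ 0` and
`q^ea - q^(c+|S|+eb) = (1-q) q^ea [M]`, so the term is `Pi S * q^ea [M] * es (c+|S|) * FF (U \ S)`;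
`Pi m q s S = C (Pi m X s S)` is 0 or in `PU (eE m S + 1 - |S|)` (`S_PIM`), `X^ea [M]` is
0 or in `PU (2 ea + M - 1)`, `FF (U \ S) ∈ MCone |U \ S| (eE (U \ S))` by hypothesis; the total
degree is `(eE S + 1 - |S|) + (ea + eb + c + |S| - 1) + eE (U \ S) = c + eE U` (`S_EDG`).
PW1 terms of size `r` (`2 ≤ r`): `eh (c+r-1) * ∑_S Pi S q^ea XX (U \ S)`; show that the sum over
`S` is in `Cone (|U| - r) (eE U - r + 1)`. By `S_LCNT`, `ea - eb ∈ {-1, 0, 1}`. Let
`Y_δ = ∑_{S : ea - eb = δ} Pi S q^{min ea eb} XX (U \ S)`. The second part of `S_STAR` reads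
`(q - 1) Y_1 + (1 - q) Y_{-1} = 0`, so `Y_1 = Y_{-1}` and the sum is
`Y_0 + q Y_1 + Y_{-1} = Y_0 + (1 + q) Y_{-1}`. Terms of `Y_0`: degree
`(eE S + 1 - r) + 2 ea + eE (U \ S) = eE U - r + 1`; terms of `Y_{-1}` (`eb = ea + 1`):
`(eE S + 1 - r) + 2 ea + eE (U \ S) = eE U - r`, and `1 + X = [2] ∈ PU 1`. -/
def S_LM1 : Prop := ∀ (N : ℕ) (m : ℕ → ℕ), Monotone m → ∀ (U : Finset ℕ) (n : ℕ) (f : ℕ → ℕ),
  Lad m U n f →
  (∀ V ⊆ U, f 0 ∉ V → XX m (qq N) (xx N) V ∈ Cone N V.card (eE m V)) →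
  (∀ V ⊆ U, f 0 ∉ V → f (n - 1) ∈ V →
    FF m (qq N) (xx N) V (f (n - 1)) ∈ MCone N V.card (eE m V)) →
  ∀ c : ℕ, 1 ≤ c → TT m (qq N) (xx N) U (f 0) (f (n - 1)) (eh (qq N) (xx N) c) ∈
    MCone N (c + U.card) (c + eE m U)

/-- TASK W1. `v1` is adjacent in `V` exactly to `v2` and `v3` (both to the right). `Z_erase` at
`v1` (note `t ≠ v1`): the sum over the colour `c1 ∉ C` of `v1` changes the weights at `v2`, `v3`
only, by the factor `0 if κ = c1, q if c1 < κ, 1 if κ < c1` (`pw_lt`; `pw_of_not` for the other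
vertices). Put `C' = insert c1 C` (`S_PC`), `|C'| = k + 1`: the weight at `v2` becomes
`x_κ * (0 if κ ∈ C', else q^{#{i ∈ C' : i < κ}})`, and
`WW V k = ∑_{C'} ∏_{C'} x * ∑_{c1 ∈ C'} q^{rank of c1 in C'} Z (V.erase v1) (v3 : factor
(0 if κ = c1, q if c1 < κ, 1 otherwise))`. By linearity in the weight at `v3` (`Z_update_sum`) and
the identity, for `|C'| = k + 1` and every colour `γ`,
`∑_{c1 ∈ C'} q^{rank c1} (0 if γ = c1, q if c1 < γ, 1 otherwise) =
   q [k] + (0 if γ ∈ C', else q^{#{i ∈ C' : i < γ}})`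
(with `g = #{i ∈ C' : i < γ}`: the `c1 < γ` contribute `q + ... + q^g`; the `c1 > γ` contribute
`q^g + ... + q^k` if `γ ∉ C'` and `q^{g+1} + ... + q^k` if `γ ∈ C'`; use `S_RK` or induction on
`C'` by inserting the maximum) the result is
`q [k] * TT (V.erase v1) v2 t (eh (k+1)) j + WW (V.erase v1) v2 v3 t (k+1) j`, because
`eh q x (k+1) κ = x_κ ∑_{C' ∌ κ, |C'| = k+1} q^{#{i ∈ C' : i < κ}} ∏_{C'} x` is the weight of `v2`
(linearity at `v2`; the sets `C' ∋ κ` contribute zero). -/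
def S_W1 : Prop := ∀ (R : Type) [CommRing R] (N : ℕ) (m : ℕ → ℕ) (q : R) (x : Fin N → R)
  (V : Finset ℕ) (v1 v2 v3 t k : ℕ) (j : Fin N), v1 ∈ V → v2 ∈ V → v3 ∈ V → t ∈ V →
  v1 < v2 → v2 < v3 → v3 ≤ m v1 → (∀ u ∈ V, u ≠ v1 → u ≠ v2 → u ≠ v3 → v1 < u ∧ m v1 < u) →
  t ≠ v1 → t ≠ v2 →
  WW m q x V v1 v2 t k j = q * qn q k * TT m q x (V.erase v1) v2 t (eh q x (k + 1)) j +
    WW m q x (V.erase v1) v2 v3 t (k + 1) j

/-- TASK W0. `V = {v1, v2}`, `v1 < v2 ≤ m v1`, mark at `v2`. `Z_insert` twice: the colour of `v2`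
is `j`, the colour of `v1` is `c1 ∉ C`, `c1 ≠ j`, `j ∉ C`; with `C' = insert c1 C` (`S_PC`):
`WW = x_j ∑_{C' ∌ j, |C'| = k+1} ∏_{C'} x * q^{#{i ∈ C' : i < j}} ∑_{c1 ∈ C'} q^{rank c1}` and
`S_RK`. -/
def S_W0 : Prop := ∀ (R : Type) [CommRing R] (N : ℕ) (m : ℕ → ℕ) (q : R) (x : Fin N → R)
  (v1 v2 k : ℕ) (j : Fin N), v1 < v2 → v2 ≤ m v1 →
  WW m q x {v1, v2} v1 v2 v2 k j = qn q (k + 1) * eh q x (k + 1) j

/-- TASK LF. Let `V_i = (Ico i n).image f`, `v_i = f i`. `WW V_0 v_0 v_1 t 0 = FF U t` (only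
`C = ∅`). By `S_W1` for `i < n - 2` (the neighbours of `f i` in `V_i` are `f (i+1)`, `f (i+2)`;
`V_{i+1} = V_i.erase (f i)`): `WW V_i (k = i) = q [i] TT V_{i+1} (eh (i+1)) + WW V_{i+1} (i+1)`; at
the end `WW V_{n-2} (n-2) = [n-1] eh (n-1)` by `S_W0`. -/
def S_LF : Prop := ∀ (R : Type) [CommRing R] (N : ℕ) (m : ℕ → ℕ) (q : R) (x : Fin N → R)
  (U : Finset ℕ) (n : ℕ) (f : ℕ → ℕ), Lad m U n f → ∀ j : Fin N,
  FF m q x U (f (n - 1)) j = (∑ i ∈ range (n - 2), q * qn q i *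
    TT m q x ((Ico (i + 1) n).image f) (f (i + 1)) (f (n - 1)) (eh q x (i + 1)) j) +
    qn q (n - 1) * eh q x (n - 1) j

/-- TASK LM0 (ladders, `c = 0`). From `S_LF`. `eE m ((Ico i n).image f) = 2 (n - i) - 3` for
`i ≤ n - 2` (the vertex `f l`, `l ≥ i + 2`, has two left neighbours, `f (i+1)` has one). Term
`i ≥ 1`: `X [i] ∈ PU (i+1)`, `TT V_{i+1} (eh (i+1)) ∈ MCone n ((i+1) + (2 (n-i-1) - 3))` by
hypothesis (`(i+1) + |V_{i+1}| = n`); total degree `2 n - 3 = eE m U`. The term `i = 0` is zero.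
Last term: `[n-1] ∈ PU (n-2)`, total degree `(n-2) + (n-1) = 2 n - 3`. -/
def S_LM0 : Prop := ∀ (N : ℕ) (m : ℕ → ℕ) (U : Finset ℕ) (n : ℕ) (f : ℕ → ℕ),
  Lad m U n f →
  (∀ i : ℕ, 0 < i → i < n → ∀ c : ℕ, TT m (qq N) (xx N) ((Ico i n).image f) (f i) (f (n - 1))
    (eh (qq N) (xx N) c) ∈
      MCone N (c + ((Ico i n).image f).card) (c + eE m ((Ico i n).image f))) →
  FF m (qq N) (xx N) U (f (n - 1)) ∈ MCone N U.card (eE m U)

/-! ## Part M: composition, structure and the main theorem -/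

/-- TASK CUT. `v` is a cut vertex: no vertex of `U` to the left of `v` is adjacent to a vertex to
the right of `v`. `Z_erase` at `v`, `Z_union` for the two sides:
`TT U s t f j = ∑_i w_i * Z (U_{<v}) (..) * Z (U_{>v}) (..)`; on the other side
`(TT (U_{≤v}) s v f) i` is (by `Z_erase` at `v`) `w_i * Z (U_{<v}) (..)` where `w_i = x_i` (or `f i`
if `s = v`), and `TT (U_{≥v}) v t g j = ∑_i g_i [mark] Z (U_{>v}) (..)` (careful with the cases
`s = v`, `v = t`; both are allowed). -/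
def S_CUT : Prop := ∀ (R : Type) [CommRing R] (N : ℕ) (m : ℕ → ℕ) (q : R) (x : Fin N → R)
  (U : Finset ℕ) (s v t : ℕ), s ∈ U → v ∈ U → t ∈ U → s ≤ v → v ≤ t →
  (∀ a ∈ U, ∀ b ∈ U, a < v → v < b → m a < b) → ∀ (f : Fin N → R),
  TT m q x U s t f = TT m q x (U.filter (fun u => v ≤ u)) v t
    (TT m q x (U.filter (fun u => u ≤ v)) s v f)

/-- TASK DIS. `Z_union`: `TT (A ∪ B) s t f j = Z A (weights without mark) * FF B t j`, and
`Z A (weights) = ∑_i TT A s a f i` (linearity in the weight at `a`: `∑_i [k = i] = 1`;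
`Z_update_sum` or `Z_erase` at `a`). -/
def S_DIS : Prop := ∀ (R : Type) [CommRing R] (N : ℕ) (m : ℕ → ℕ) (q : R) (x : Fin N → R)
  (A B : Finset ℕ) (s a t : ℕ), s ∈ A → a ∈ A → t ∈ B → (∀ u ∈ A, ∀ v ∈ B, u < v ∧ m u < v) →
  ∀ (f : Fin N → R) (j : Fin N),
  TT m q x (A ∪ B) s t f j = (∑ i, TT m q x A s a f i) * FF m q x B t j

/-- TASK TRI (structure of the good graphs). Let `n = |U| ≥ 2` and let `f : ℕ → ℕ` be strictly
increasing with `U = (range n).image f` (`Finset.orderEmbOfFin`, continued by `max U + i`).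
If `f (i+1) > m (f i)` for some `i + 1 < n`: first alternative (`A = {u ∈ U : u ≤ f i}`, `m`
monotone). Otherwise, if `f (i+1) > m (f (i-1))` for some `0 < i < n - 1`: second alternative
with `v = f i`. Otherwise `f (i+2) ≤ m (f i)` for `i + 2 < n` and `f (i+1) ≤ m (f i)` for
`i + 1 < n`. If no `f (i+3) ≤ m (f i)` (`i + 3 < n`): then `f j ≤ m (f i) ↔ j ≤ i + 2` for
`i < j < n`; for `n ≥ 4` this is the ladder, for `n ≤ 3` the clique. If `f (i+3) ≤ m (f i)`: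
first `f j ≤ m (f i)` for all `j` with `i + 3 ≤ j < n` by induction (apply `Good` to
`f i < f (j-2) < f (j-1) < f j < f (j+1)`... that is to the 5 vertices
`x1 = f i, x2 = f (j-2), x3 = f (j-1), x4 = f j, x5 = f (j+1)`, where `x4 ≤ m x1` and
`f (j+1) ≤ m (f (j-1))`), so `f (n-1) ≤ m (f i)`; then downwards: `f (n-1) ≤ m (f (i-1))` by
`Good` for `f (i-1) < f i < f (i+1) < f (i+2) < f (n-1)` (`x5 ≤ m x2` and `x3 ≤ m x1`); hence
`f (n-1) ≤ m (f 0)` and `U` is a clique. -/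
def S_TRI : Prop := ∀ (m : ℕ → ℕ), Monotone m → ∀ (U : Finset ℕ) (s t : ℕ), s ∈ U → t ∈ U →
  s < t → (∀ u ∈ U, s ≤ u ∧ u ≤ t) → Good m U →
  (∃ A B : Finset ℕ, A ∪ B = U ∧ A.Nonempty ∧ B.Nonempty ∧ ∀ u ∈ A, ∀ v ∈ B, u < v ∧ m u < v) ∨
  (∃ v ∈ U, s < v ∧ v < t ∧ ∀ a ∈ U, ∀ b ∈ U, a < v → v < b → m a < b) ∨
  Clq m U ∨ (∃ (n : ℕ) (f : ℕ → ℕ), Lad m U n f)

/-- TASK MAIN. Strong induction on `|U|`. `U = {s}`: `TT = eh c` (`Z_singleton`), and `eh c` is in
`MCone (c+1) c`. `S_TRI`: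
1. `U = A ∪ B`: `S_DIS` with `a = max A`, induction for `A` (`S_Msum`) and for `B` with `c = 0`
   (`eh 0 = xx`, `TT B (min B) t xx = FF B t`), `S_Msmul`, `eE (A ∪ B) = eE A + eE B`.
2. cut vertex: `S_CUT`, induction for both parts (both have fewer vertices), `S_Mlin` for
   `L = TT (U_{≥v}) v t` (`TT` is additive and linear in `f`: `Z_update_sum` / `Z_vertex`),
   `eE U = eE U_{≤v} + eE U_{≥v}`, `|U| + 1 = |U_{≤v}| + |U_{≥v}|`.
3. clique: `S_KM`. 4. ladder: for `c ≥ 1` `S_LM1`, for `c = 0` `S_LM0` (with `TT U s t (eh 0) =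
   FF U t`); the hypotheses follow by induction: `FF V t = TT V (min V) t xx`,
   `XX V = ∑_j FF V (max V) j` and `S_Msum` (`XX ∅ = 1`), `Good` passes to subsets. -/
def S_MAIN : Prop := ∀ (N : ℕ) (m : ℕ → ℕ), Monotone m → ∀ (U : Finset ℕ), Good m U →
  ∀ s t : ℕ, s ∈ U → t ∈ U → (∀ u ∈ U, s ≤ u ∧ u ≤ t) → ∀ c : ℕ,
  TT m (qq N) (xx N) U s t (eh (qq N) (xx N) c) ∈ MCone N (c + U.card) (c + eE m U)

/-- TASK FUN. Induction on `n`, for all `w`: `range (n+1) = insert n (range n)`, `Z_insert`;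
functions `Fin (n+1) → Fin N` are pairs (value at the last point, restriction)
(`Fin.snocEquiv` / `Fin.snoc`, `Fintype.sum_equiv`), `Fin.prod_univ_castSucc`; the pairs `p` with
`p.2 = last` give `∏_i pw n k i (κ i)` (`pw_gt` / `pw_of_not`), the pairs with `p.1 = last` do not
occur. -/
def S_FUN : Prop := ∀ (R : Type) [CommRing R] (N n : ℕ) (m : ℕ → ℕ) (q : R)
  (w : ℕ → Fin N → R),
  Z m q (range n) w = ∑ κ : Fin n → Fin N, (∏ i : Fin n, w i (κ i)) *
    ∏ p ∈ univ.filter (fun p : Fin n × Fin n => p.1 < p.2 ∧ (p.2 : ℕ) ≤ m (p.1 : ℕ)),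
      (if κ p.1 = κ p.2 then 0 else if κ p.1 < κ p.2 then q else 1)

/-- The final theorem: frozen statement S07725 for the natural unit interval graphs satisfying the
condition on `h` (no `K_4` with a further vertex adjacent to exactly two or three of its
vertices; in other words every maximal clique with at least four vertices is a block).
TASK FIN: `m v = if v < n then h v else v`; `XX (range n) = ∑_j FF (range n) (n-1) j` for `n ≥ 1`
(`n = 0` directly), `S_MAIN` with `c = 0`, `S_Msum`, `S_Cpart`, `S_PUcoeff`, `S_FUN` (the product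
over the edges is zero unless `κ` is proper, and then it is `q ^ asc`), and
`eE m (range n) = E`. -/
def S_FINAL : Prop := ∀ (n : ℕ) (h : Fin n → Fin n), Monotone h → (∀ i, i ≤ h i) →
    (∀ a b c d e : Fin n, a < b → b < c → c < d → d < e →
      (d ≤ h a → e ≤ h c → e ≤ h a) ∧ (e ≤ h b → c ≤ h a → e ≤ h a)) →
    ∀ E : ℕ, E = (Finset.univ.filter (fun p : Fin n × Fin n => p.1 < p.2 ∧ p.2 ≤ h p.1)).card →
    ∃ a : Nat.Partition n → Polynomial ℤ,
      ((∑ κ ∈ (Finset.univ.filter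
            (fun κ : Fin n → Fin n => ∀ i j : Fin n, i < j → j ≤ h i → κ i ≠ κ j)),
          MvPolynomial.C (Polynomial.X ^ ((Finset.univ.filter
            (fun p : Fin n × Fin n => p.1 < p.2 ∧ p.2 ≤ h p.1 ∧ κ p.1 < κ p.2)).card))
            * ∏ i : Fin n, MvPolynomial.X (κ i) : MvPolynomial (Fin n) (Polynomial ℤ))
        = ∑ μ : Nat.Partition n, MvPolynomial.C (a μ) *
            (μ.parts.map (fun k => MvPolynomial.esymm (Fin n) (Polynomial ℤ) k)).prod)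
      ∧ ∀ μ : Nat.Partition n,
          (∀ i : ℕ, 0 ≤ (a μ).coeff i)
          ∧ (∀ i : ℕ, E < i → (a μ).coeff i = 0)
          ∧ (∀ i : ℕ, i ≤ E → (a μ).coeff i = (a μ).coeff (E - i))
          ∧ (∀ i j : ℕ, i ≤ j → 2 * j ≤ E → (a μ).coeff i ≤ (a μ).coeff j)

end Pool.Agent.SWC
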